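import Pool.Agent.Work.MP_59f3ad_nt.Pex.I_Tr

set_option autoImplicit false

/-!
# MP_59f3ad_nt Pex, item AL: approximated by powers implies local power
-/

open NumberField IsDedekindDomain Filter Topology

namespace Pool.Agent.Work.MP_59f3ad_nt.Pex

open Pool.Agent.Work.MP_59f3ad_nt.Tw

universe u

namespace IPxAL

variable {K : Type u} [Field K] [NumberField K]

theorem tends (w : HeightOneSpectrum (𝓞 K)) (P : WithZero (Multiplicative ℤ)) (hP : P < 1)
    (x : ℕ → w.adicCompletion K) (h : ∀ n, Valued.v (x n) ≤ P ^ n) :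
    Tendsto x atTop (𝓝 0) := by
  simp only [(Valued.hasBasis_nhds_zero _ _).tendsto_right_iff, Set.mem_ofPred_eq,
    eventually_atTop, forall_const]
  intro y
  obtain ⟨n, hn⟩ := exists_pow_lt₀ hP
    (Units.map (MonoidWithZeroHom.ValueGroup₀.embedding
      (f := (.ofClass (Valued.v : Valuation (w.adicCompletion K) _)))) y)
  refine ⟨n, fun m hm ↦ ?_⟩
  rw [Valuation.restrict_lt_iff_lt_embedding]
  refine hn.trans_le' ((h m).trans ?_)
  exact pow_le_pow_right_of_le_one' hP.le hm

theorem cauchy (w : HeightOneSpectrum (𝓞 K)) (P : WithZero (Multiplicative ℤ)) (hP : P < 1)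
    (x : ℕ → w.adicCompletion K) (h : ∀ n i j, n ≤ i → n ≤ j → Valued.v (x i - x j) ≤ P ^ n) :
    CauchySeq x := by
  rw [CauchySeq, Valued.cauchy_iff]
  refine ⟨inferInstance, fun y => ?_⟩
  obtain ⟨n, hn⟩ := exists_pow_lt₀ hP
    (Units.map (MonoidWithZeroHom.ValueGroup₀.embedding
      (f := (.ofClass (Valued.v : Valuation (w.adicCompletion K) _)))) y)
  refine ⟨x '' Set.Ici n, image_mem_map (Ici_mem_atTop n), ?_⟩
  rintro _ ⟨i, hi, rfl⟩ _ ⟨j, hj, rfl⟩
  rw [Valuation.restrict_lt_iff_lt_embedding]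
  exact hn.trans_le' (h n j i hj hi)

end IPxAL

open IPxAL IPxTr in
theorem pr_AL (h1 : StPhi.{u}) : StAL.{u} := by
  intro K _ _ p hp hp2 hN a ha hA w hw
  have hv1 : ∀ k : K, Valued.v (algebraMap K (w.adicCompletion K) k) = w.valuation K k :=
    fun k => HeightOneSpectrum.valuedAdicCompletion_eq_valuation' w k
  obtain ⟨C, hC⟩ := bound p hp a ha
  have hCw := hC w hw
  choose y hy using hA
  have hP := p_lt w p hw
  have hvp : w.valuation K (p : K) ≠ 0 :=
    (Valuation.ne_zero_iff _).2 (Nat.cast_ne_zero.2 hp.ne_zero)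
  set P := w.valuation K (p : K) with hPdef
  have hpow : ∀ n, w.valuation K ((y n : K) ^ p - (a : K)) ≤ P ^ n := fun n => by
    have h := val_dvd w p n _ (hy n)
    have e : ((y n ^ p - a : 𝓞 K) : K) = (y n : K) ^ p - (a : K) := by
      push_cast
      rfl
    rwa [e] at h
  have hval : ∀ n, C + 1 ≤ n → w.valuation K (y n : K) ^ p = w.valuation K (a : K) := by
    intro n hn
    have h3 : P ^ n < w.valuation K (a : K) := by
      refine lt_of_lt_of_le ?_ hCw
      exact pow_lt_pow_right_of_lt_one₀ (zero_lt_iff.2 hvp) hP (by omega)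
    have e : (y n : K) ^ p = (a : K) + ((y n : K) ^ p - (a : K)) := by ring
    rw [← map_pow, e]
    exact Valuation.map_add_eq_of_lt_left _ ((hpow n).trans_lt h3)
  have hva : w.valuation K (a : K) ≠ 0 := fun h => by
    rw [h] at hCw
    exact pow_ne_zero _ hvp (le_antisymm hCw zero_le)
  have hdiff : ∀ n i j, n ≤ i → n ≤ j →
      w.valuation K ((y (i + C + 1) : K) - (y (j + C + 1) : K)) ≤ P ^ n := by
    intro n i j hi hj
    have e1 := hval (i + C + 1) (by omega)
    have e2 := hval (j + C + 1) (by omega)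
    have e3 : w.valuation K (y (i + C + 1) : K) = w.valuation K (y (j + C + 1) : K) :=
      (pow_left_inj₀ zero_le zero_le hp.ne_zero).1 (e1.trans e2.symm)
    have hy0 : (y (j + C + 1) : K) ≠ 0 := by
      intro h
      rw [h, map_zero, zero_pow hp.ne_zero] at e2
      exact hva e2.symm
    have h4 := h1 K p hp hp2 hN w hw _ _ hy0 e3
    have h5 : w.valuation K ((y (i + C + 1) : K) ^ p - (y (j + C + 1) : K) ^ p) ≤
        P ^ (n + C + 1) := by
      have e : (y (i + C + 1) : K) ^ p - (y (j + C + 1) : K) ^ p =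
          ((y (i + C + 1) : K) ^ p - (a : K)) - ((y (j + C + 1) : K) ^ p - (a : K)) := by ring
      rw [e]
      refine Valuation.map_sub_le _ ((hpow _).trans ?_) ((hpow _).trans ?_)
      · exact pow_le_pow_right_of_le_one' hP.le (by omega)
      · exact pow_le_pow_right_of_le_one' hP.le (by omega)
    have h8 : P ^ C ≤ w.valuation K (y (j + C + 1) : K) ^ (p - 1) := by
      calc P ^ C ≤ w.valuation K (a : K) := hCw
        _ = w.valuation K (y (j + C + 1) : K) ^ p := e2.symm
        _ ≤ w.valuation K (y (j + C + 1) : K) ^ (p - 1) :=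
            pow_le_pow_right_of_le_one' (val_le w _) (Nat.sub_le _ _)
    have h9 : w.valuation K ((y (i + C + 1) : K) - (y (j + C + 1) : K)) * P ^ (C + 1) ≤
        P ^ n * P ^ (C + 1) := by
      calc w.valuation K ((y (i + C + 1) : K) - (y (j + C + 1) : K)) * P ^ (C + 1)
          = w.valuation K ((y (i + C + 1) : K) - (y (j + C + 1) : K)) * P ^ C * P := by
            rw [pow_succ, mul_assoc]
        _ ≤ w.valuation K ((y (i + C + 1) : K) - (y (j + C + 1) : K)) *
              w.valuation K (y (j + C + 1) : K) ^ (p - 1) * P := by gcongr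
        _ ≤ w.valuation K ((y (i + C + 1) : K) ^ p - (y (j + C + 1) : K) ^ p) := h4
        _ ≤ P ^ (n + C + 1) := h5
        _ = P ^ n * P ^ (C + 1) := by
            rw [← pow_add]
            congr 1
    exact le_of_mul_le_mul_right h9 (zero_lt_iff.2 (pow_ne_zero _ hvp))
  -- the limit
  let x : ℕ → w.adicCompletion K := fun n => algebraMap K (w.adicCompletion K) (y (n + C + 1) : K)
  have hx : CauchySeq x := cauchy w P hP x fun n i j hi hj => by
    rw [← map_sub, hv1]
    exact hdiff n i j hi hj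
  obtain ⟨η, hη⟩ := cauchySeq_tendsto_of_complete hx
  refine ⟨η, ?_⟩
  rw [pow_one]
  have t1 : Tendsto (fun n => x n ^ p - algebraMap K (w.adicCompletion K) (a : K)) atTop
      (𝓝 (η ^ p - algebraMap K (w.adicCompletion K) (a : K))) := (hη.pow p).sub_const _
  have t2 : Tendsto (fun n => x n ^ p - algebraMap K (w.adicCompletion K) (a : K)) atTop
      (𝓝 0) := by
    refine tends w P hP _ fun n => ?_
    rw [← map_pow, ← map_sub, hv1]
    exact (hpow _).trans (pow_le_pow_right_of_le_one' hP.le (by omega))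
  exact sub_eq_zero.1 (tendsto_nhds_unique t1 t2)

end Pool.Agent.Work.MP_59f3ad_nt.Pex
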