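import Pool.Agent.Work.MP_59f3ad_nt.Pex.Stmts

/-!
# MP_59f3ad_nt Pex: item Base
-/

set_option autoImplicit false

open NumberField IsDedekindDomain

namespace Pool.Agent.Work.MP_59f3ad_nt.Pex

open Pool.Agent.Work.MP_59f3ad_nt.Tw

universe u

theorem pr_Base (h1 : StAL.{u}) (h2 : StClq.{u}) : StBase.{u} := by
  intro K _ _ p hp hp2 hNR hL hcl a ha hval happ
  have ha' : (a : K) ≠ 0 := by
    intro h
    apply ha
    exact RingOfIntegers.ext h
  obtain ⟨cl, hc1, hc2⟩ := h2 K p hp.ne_zero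
  have hval1 : ValP K p (1 : K) := fun w => ⟨1, by simp⟩
  have hone : ∀ c : ClassGroup (𝓞 K), c ^ p = 1 → c = 1 := by
    intro c hc
    have hcop : Nat.Coprime p (classNumber K) := (Nat.Prime.coprime_iff_not_dvd hp).2 hcl
    have h3 : c ^ classNumber K = 1 := by
      rw [classNumber]
      exact pow_card_eq_one
    have h4 : orderOf c ∣ p := orderOf_dvd_of_pow_eq_one hc
    have h5 : orderOf c ∣ classNumber K := orderOf_dvd_of_pow_eq_one h3
    exact orderOf_eq_one_iff.1 (Nat.dvd_one.1 (hcop.gcd_eq_one ▸ Nat.dvd_gcd h4 h5))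
  obtain ⟨u, γ, hγ, hu⟩ := hc2 (a : K) 1 ha' one_ne_zero hval hval1
    (by rw [hone _ (hc1 _ ha' hval), hone _ (hc1 _ one_ne_zero hval1)])
  rw [mul_one] at hu
  have hloc := h1 K p hp hp2 hNR a ha happ
  obtain ⟨w, hw⟩ := hL 1 u (fun v hv => by
    obtain ⟨η, hη⟩ := hloc v hv
    have hγ' : algebraMap K (v.adicCompletion K) γ ≠ 0 := by
      rw [Ne, map_eq_zero]
      exact hγ
    refine ⟨η / algebraMap K (v.adicCompletion K) γ, ?_⟩
    rw [div_pow, hη, hu, map_mul, map_pow, pow_one, mul_div_assoc, div_self (pow_ne_zero _ hγ'),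
      mul_one])
  refine ⟨((w : 𝓞 K) : K) * γ, ?_⟩
  rw [hu, hw, mul_pow]
  simp

end Pool.Agent.Work.MP_59f3ad_nt.Pex
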