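import Pool.Agent.Work.MP_59f3ad_nt.Pex.Stmts

/-!
# MP_59f3ad_nt Pex, item Fix: a nontrivial fixed vector modulo `p`-th powers
-/

set_option autoImplicit false

namespace Pool.Agent.Work.MP_59f3ad_nt.Pex

universe u

namespace IPxFix

/-- the subgroup of `p`-th powers -/
def PP (M : Type u) [Field M] (p : ℕ) : Subgroup Mˣ := (powMonoidHom p : Mˣ →* Mˣ).range

/-- the units modulo `p`-th powers -/
abbrev AA (M : Type u) [Field M] (p : ℕ) : Type u := Mˣ ⧸ PP M p

section
variable {K M : Type u} [Field K] [Field M] [Algebra K M] {p : ℕ}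

theorem AA_pow (a : AA M p) : a ^ p = 1 := by
  induction a using QuotientGroup.induction_on with
  | H z =>
    rw [← QuotientGroup.mk_pow, QuotientGroup.eq_one_iff]
    exact ⟨z, rfl⟩

theorem mk_eq_one (u : Mˣ) : (QuotientGroup.mk u : AA M p) = 1 ↔ ∃ z : Mˣ, z ^ p = u := by
  rw [QuotientGroup.eq_one_iff]
  exact Iff.rfl

/-- the action of the Galois group -/
def act (τ : M ≃ₐ[K] M) : AA M p →* AA M p :=
  QuotientGroup.map (PP M p) (PP M p) (Units.map (τ : M →* M)) (by
    rintro _ ⟨z, rfl⟩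
    exact ⟨Units.map (τ : M →* M) z, (map_pow (Units.map (τ : M →* M)) z p).symm⟩)

theorem act_mk (τ : M ≃ₐ[K] M) (u : Mˣ) :
    act τ (QuotientGroup.mk u : AA M p) = QuotientGroup.mk (Units.map (τ : M →* M) u) := rfl

theorem act_one (a : AA M p) : act (1 : M ≃ₐ[K] M) a = a := by
  induction a using QuotientGroup.induction_on with
  | H z =>
    rw [act_mk]
    congr 1

theorem act_mul (σ τ : M ≃ₐ[K] M) (a : AA M p) : act (σ * τ) a = act σ (act τ a) := by
  induction a using QuotientGroup.induction_on with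
  | H z =>
    rw [act_mk, act_mk, act_mk]
    congr 1

end

end IPxFix

open IPxFix in
theorem pr_Fix : StFix.{u} := by
  intro K M _ _ _ _ _ p j hp hd Q hQm hQσ x hx0 hQx hx
  have hfact : Fact p.Prime := ⟨hp⟩
  have hpow : ∀ (n : ℕ) (y : M), Q y → Q (y ^ (n + 1)) := by
    intro n y hy
    induction n with
    | zero => simpa using hy
    | succ n ih =>
      rw [pow_succ]
      exact hQm _ _ ih hy
  -- the subgroup of the classes of elements with `Q`
  let S : Subgroup (AA M p) :=
    { carrier := {a | a = 1 ∨ ∃ y : Mˣ, Q (y : M) ∧ a = QuotientGroup.mk y}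
      one_mem' := Or.inl rfl
      mul_mem' := by
        rintro a b (rfl | ⟨y, hy, rfl⟩) (rfl | ⟨z, hz, rfl⟩)
        · exact Or.inl (mul_one (1 : AA M p))
        · exact Or.inr ⟨z, hz, one_mul (QuotientGroup.mk z : AA M p)⟩
        · exact Or.inr ⟨y, hy, mul_one (QuotientGroup.mk y : AA M p)⟩
        · exact Or.inr ⟨y * z, hQm _ _ hy hz, rfl⟩
      inv_mem' := by
        rintro a (rfl | ⟨y, hy, rfl⟩)
        · exact Or.inl inv_one
        · obtain ⟨n, hn⟩ : ∃ n, p = n + 2 := ⟨p - 2, by have := hp.two_le; omega⟩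
          refine Or.inr ⟨y ^ (n + 1), ?_, ?_⟩
          · rw [Units.val_pow_eq_pow_val]
            exact hpow n _ hy
          · rw [inv_eq_iff_mul_eq_one, QuotientGroup.mk_pow, ← pow_succ']
            have := AA_pow (p := p) (QuotientGroup.mk y : AA M p)
            rwa [show n + 1 + 1 = p by omega] }
  let a0 : AA M p := QuotientGroup.mk (Units.mk0 x hx0)
  let X : Subgroup (AA M p) := Subgroup.closure (Set.range fun τ : M ≃ₐ[K] M => act τ a0)
  have hXS : X ≤ S := by
    rw [Subgroup.closure_le]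
    rintro _ ⟨τ, rfl⟩
    exact Or.inr ⟨Units.map (τ : M →* M) (Units.mk0 x hx0), hQσ τ x hQx, rfl⟩
  have hXact : ∀ (τ : M ≃ₐ[K] M) (a : AA M p), a ∈ X → act τ a ∈ X := by
    intro τ a ha
    have h1 : X ≤ X.comap (act τ) := by
      rw [Subgroup.closure_le]
      rintro _ ⟨σ, rfl⟩
      refine Subgroup.subset_closure ⟨τ * σ, ?_⟩
      exact act_mul τ σ a0
    exact h1 ha
  have hfinG : Finite (M ≃ₐ[K] M) := inferInstance
  have hFG : Group.FG X := by
    rw [Group.fg_iff_subgroup_fg, Subgroup.fg_iff]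
    exact ⟨_, rfl, Set.finite_range _⟩
  have htor : IsMulTorsion X := by
    intro a
    rw [isOfFinOrder_iff_pow_eq_one]
    refine ⟨p, hp.pos, ?_⟩
    apply Subtype.ext
    exact AA_pow (a : AA M p)
  have hfinX : Finite X := CommGroup.finite_of_fg_isMulTorsion X htor
  have hPX : IsPGroup p X := by
    intro a
    refine ⟨1, ?_⟩
    rw [pow_one]
    apply Subtype.ext
    exact AA_pow (a : AA M p)
  have ha0X : a0 ∈ X := Subgroup.subset_closure ⟨1, act_one a0⟩
  have ha01 : a0 ≠ 1 := by
    intro h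
    obtain ⟨z, hz⟩ := (mk_eq_one _).1 h
    apply hx
    refine ⟨(z : M), ?_⟩
    have := congrArg Units.val hz
    simpa using this
  have hcard : p ∣ Nat.card X := by
    obtain ⟨n, hn⟩ := IsPGroup.iff_card.1 hPX
    have hn0 : n ≠ 0 := by
      rintro rfl
      rw [pow_zero] at hn
      have h1 : Subsingleton X := (Nat.card_eq_one_iff_unique.1 hn).1
      apply ha01
      have h2 : (⟨a0, ha0X⟩ : X) = 1 := Subsingleton.elim _ _
      exact congrArg Subtype.val h2
    rw [hn]
    exact dvd_pow_self p hn0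
  have hG : IsPGroup p (M ≃ₐ[K] M) := by
    refine IsPGroup.of_card (n := j) ?_
    rw [IsGalois.card_aut_eq_finrank, hd]
  let hact : MulAction (M ≃ₐ[K] M) X :=
    { smul := fun τ a => ⟨act τ (a : AA M p), hXact τ a a.2⟩
      one_smul := fun a => Subtype.ext (act_one (a : AA M p))
      mul_smul := fun σ τ a => Subtype.ext (act_mul σ τ (a : AA M p)) }
  obtain ⟨b, hb, hb1⟩ := hG.exists_fixed_point_of_prime_dvd_card_of_fixed_point X hcard
    (a := (1 : X)) (fun τ => Subtype.ext (map_one (act τ)))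
  rcases hXS b.2 with h1 | ⟨y, hy, hby⟩
  · exact absurd (Subtype.ext h1 : b = 1) hb1.symm
  refine ⟨(y : M), y.ne_zero, hy, ?_, ?_⟩
  · rintro ⟨z, hz⟩
    have hz0 : z ≠ 0 := by
      rintro rfl
      rw [zero_pow hp.ne_zero] at hz
      exact y.ne_zero hz.symm
    apply hb1
    apply Subtype.ext
    show (1 : AA M p) = b
    rw [hby]
    symm
    rw [mk_eq_one]
    refine ⟨Units.mk0 z hz0, ?_⟩
    apply Units.ext
    simpa using hz
  · intro σ
    have h2 : act σ (b : AA M p) = b := congrArg Subtype.val (hb σ)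
    rw [hby, act_mk, eq_comm, QuotientGroup.eq] at h2
    obtain ⟨z, hz⟩ := h2
    refine ⟨(z : M), z.ne_zero, ?_⟩
    have h3 : Units.map (σ : M →* M) y = y * z ^ p := by
      have h4 : z ^ p = y⁻¹ * Units.map (σ : M →* M) y := hz
      rw [h4, mul_inv_cancel_left]
    have h5 := congrArg Units.val h3
    simpa using h5

end Pool.Agent.Work.MP_59f3ad_nt.Pex
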