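import Pool.Agent.Work.MP_59f3ad_nt.Pex.Stmts

/-!
# MP_59f3ad_nt Pex, item H90 (helper35): Hilbert 90
-/

set_option autoImplicit false

open NumberField IsDedekindDomain

namespace Pool.Agent.Work.MP_59f3ad_nt.Pex

universe u

namespace IPxH90

theorem uniq {M : Type u} [Field M] {p : ℕ} (h : NoMu M p) {a b : M} (hb : b ≠ 0)
    (hab : a ^ p = b ^ p) : a = b := by
  have h1 : (a / b) ^ p = 1 := by
    rw [div_pow, hab, div_self (pow_ne_zero _ hb)]
  exact (div_eq_one_iff_eq hb).1 (h _ h1)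

end IPxH90

theorem pr_H90 : StH90.{u} := by
  intro K M _ _ _ _ _ p hp hmu x hx h
  choose z hz0 hz using h
  let f : (M ≃ₐ[K] M) → Mˣ := fun σ => Units.mk0 (z σ) (hz0 σ)
  have hf : groupCohomology.IsMulCocycle₁ f := by
    intro σ τ
    apply Units.ext
    change z (σ * τ) = σ (z τ) * z σ
    have hne : σ (z τ) * z σ ≠ 0 :=
      mul_ne_zero ((map_ne_zero_iff σ σ.injective).2 (hz0 τ)) (hz0 σ)
    refine IPxH90.uniq hmu hne ?_
    have h1 : x * z (σ * τ) ^ p = x * (σ (z τ) * z σ) ^ p := by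
      rw [← hz (σ * τ), AlgEquiv.mul_apply, hz τ, map_mul, map_pow, hz σ, mul_pow]
      ring
    exact mul_left_cancel₀ hx h1
  obtain ⟨y, hy⟩ := groupCohomology.isMulCoboundary₁_of_isMulCocycle₁_of_aut_to_units f hf
  have hy' : ∀ σ : M ≃ₐ[K] M, σ (y : M) = z σ * (y : M) := by
    intro σ
    have h1 := hy σ
    rw [div_eq_iff_eq_mul] at h1
    have h2 := congrArg (fun t : Mˣ => (t : M)) h1
    exact h2
  have hy0 : (y : M) ≠ 0 := y.ne_zero
  have hfix : ∀ σ : M ≃ₐ[K] M, σ (x / (y : M) ^ p) = x / (y : M) ^ p := by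
    intro σ
    rw [map_div₀, map_pow, hz σ, hy' σ, mul_pow]
    have h1 : z σ ^ p ≠ 0 := pow_ne_zero _ (hz0 σ)
    have h2 : (y : M) ^ p ≠ 0 := pow_ne_zero _ hy0
    rw [div_eq_div_iff (mul_ne_zero h1 h2) h2]
    ring
  obtain ⟨a, ha⟩ := (IsGalois.mem_range_algebraMap_iff_fixed (x / (y : M) ^ p)).2 hfix
  refine ⟨a, y, ?_, hy0, ?_⟩
  · rintro rfl
    rw [map_zero] at ha
    exact (div_ne_zero hx (pow_ne_zero _ hy0)) ha.symm
  · rw [ha, div_mul_cancel₀ _ (pow_ne_zero _ hy0)]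

end Pool.Agent.Work.MP_59f3ad_nt.Pex
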