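import Pool.Agent.Work.MP_59f3ad_nt.Pex.Stmts

set_option autoImplicit false

/-!
# MP_59f3ad_nt, block Pex, item LA: local powers are approximated by powers of integers
-/

open NumberField IsDedekindDomain

namespace Pool.Agent.Work.MP_59f3ad_nt.Pex

open Pool.Agent.Work.MP_59f3ad_nt.Tw

universe u

namespace IPxLA

variable (K : Type u) [Field K] [NumberField K]

/-- global integers approximate local integers -/
theorem int_approx (v : HeightOneSpectrum (𝓞 K)) (η : v.adicCompletion K)
    (hη : Valued.v η ≤ 1) (c : 𝓞 K) (hc : c ≠ 0) :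
    ∃ a : 𝓞 K, Valued.v (algebraMap K (v.adicCompletion K) (a : K) - η) <
      Valued.v (algebraMap K (v.adicCompletion K) (c : K)) := by
  have hv1 : ∀ k : K, Valued.v (algebraMap K (v.adicCompletion K) k) = v.valuation K k :=
    fun k => HeightOneSpectrum.valuedAdicCompletion_eq_valuation' v k
  have hcK : (c : K) ≠ 0 := by
    simpa using hc
  have hc0 : v.valuation K (c : K) ≠ 0 := by
    rw [Ne, map_eq_zero]
    exact hcK
  have hc1 : v.valuation K (c : K) ≤ 1 := HeightOneSpectrum.valuation_le_one v c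
  have hopen : IsOpen {y : v.adicCompletion K | Valued.v (y - η) <
      Valued.v (algebraMap K (v.adicCompletion K) (c : K))} := by
    have h1 := Valued.isOpen_ball (v.adicCompletion K)
      (Valued.v.restrict (algebraMap K (v.adicCompletion K) (c : K)))
    have h2 : {y : v.adicCompletion K | Valued.v (y - η) <
        Valued.v (algebraMap K (v.adicCompletion K) (c : K))} =
        (fun y => y - η) ⁻¹' {x | Valued.v.restrict x <
          Valued.v.restrict (algebraMap K (v.adicCompletion K) (c : K))} := by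
      ext y
      simp [Valuation.restrict_lt_iff]
    rw [h2]
    exact h1.preimage (continuous_id.sub continuous_const)
  have hne : Valued.v (η - η) < Valued.v (algebraMap K (v.adicCompletion K) (c : K)) := by
    rw [sub_self, map_zero, hv1]
    exact zero_lt_iff.mpr hc0
  obtain ⟨y, hy⟩ := (HeightOneSpectrum.denseRange_algebraMap (R := 𝓞 K) K v).exists_mem_open
    hopen ⟨η, hne⟩
  have hy' : Valued.v (algebraMap K (v.adicCompletion K) y - η) <
      Valued.v (algebraMap K (v.adicCompletion K) (c : K)) := hy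
  have hy1 : v.valuation K y ≤ 1 := by
    rw [← hv1]
    have h1 : algebraMap K (v.adicCompletion K) y =
        (algebraMap K (v.adicCompletion K) y - η) + η := by ring
    rw [h1]
    refine (Valued.v.map_add _ _).trans (max_le ?_ hη)
    refine hy'.le.trans ?_
    rw [hv1]
    exact hc1
  obtain ⟨a, ha⟩ := HeightOneSpectrum.exists_valuation_sub_lt_of_integer (K := K) v hy1
    (Units.mk0 _ hc0)
  refine ⟨a, ?_⟩
  have h2 : algebraMap K (v.adicCompletion K) (a : K) - η =
      algebraMap K (v.adicCompletion K) ((a : K) - y) +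
        (algebraMap K (v.adicCompletion K) y - η) := by
    rw [map_sub]
    ring
  rw [h2]
  refine (Valued.v.map_add _ _).trans_lt (max_lt ?_ hy')
  rw [hv1, hv1]
  exact ha

/-- the approximation at one place -/
theorem at_place (v : HeightOneSpectrum (𝓞 K)) {p : ℕ} (hp : p ≠ 0) (a c : 𝓞 K) (hc : c ≠ 0)
    (h : ∃ η : v.adicCompletion K, η ^ p = algebraMap K (v.adicCompletion K) (a : K)) :
    ∃ y : 𝓞 K, v.intValuation (y ^ p - a) ≤ v.intValuation c := by
  obtain ⟨η, hη⟩ := h
  have hv1 : ∀ k : K, Valued.v (algebraMap K (v.adicCompletion K) k) = v.valuation K k :=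
    fun k => HeightOneSpectrum.valuedAdicCompletion_eq_valuation' v k
  have h1 : Valued.v η ≤ 1 := by
    have h2 : Valued.v η ^ p ≤ 1 := by
      rw [← map_pow, hη, hv1]
      exact HeightOneSpectrum.valuation_le_one v a
    exact (pow_le_one_iff hp).mp h2
  obtain ⟨y, hy⟩ := int_approx K v η h1 c hc
  have hI := HeightOneSpectrum.adicCompletionIntegers.integers (R := 𝓞 K) K v
  let η' : v.adicCompletionIntegers K := ⟨η, by
    rw [HeightOneSpectrum.mem_adicCompletionIntegers]
    exact h1⟩
  have d1 : algebraMap (𝓞 K) (v.adicCompletionIntegers K) c ∣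
      algebraMap (𝓞 K) (v.adicCompletionIntegers K) y - η' := by
    apply hI.dvd_of_le
    exact hy.le
  have d2 := d1.trans (sub_dvd_pow_sub_pow _ _ p)
  have h3 : η' ^ p = algebraMap (𝓞 K) (v.adicCompletionIntegers K) a := by
    apply Subtype.ext
    exact hη
  rw [h3, ← map_pow, ← map_sub] at d2
  have h4 := hI.le_of_dvd d2
  have h5 : Valued.v (algebraMap K (v.adicCompletion K) ((y ^ p - a : 𝓞 K) : K)) ≤
      Valued.v (algebraMap K (v.adicCompletion K) ((c : 𝓞 K) : K)) := h4
  rw [hv1, hv1] at h5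
  refine ⟨y, ?_⟩
  rw [← HeightOneSpectrum.valuation_of_algebraMap (K := K),
    ← HeightOneSpectrum.valuation_of_algebraMap (K := K)]
  exact h5

end IPxLA

open IPxLA in
/-- Local `p`-th powers above `p` are approximated by `p`-th powers of integers. -/
theorem pr_LA : StLA.{u} := by
  intro K _ _ p hp a hloc N
  classical
  have hp0 : (p : 𝓞 K) ≠ 0 := by exact_mod_cast hp.ne_zero
  set c : 𝓞 K := (p : 𝓞 K) ^ N with hc
  have hc0 : c ≠ 0 := pow_ne_zero _ hp0
  have hfin : {v : HeightOneSpectrum (𝓞 K) | v.asIdeal ∣ Ideal.span {(p : 𝓞 K)}}.Finite := by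
    apply Ideal.finite_factors
    intro h
    exact hp0 (Ideal.span_singleton_eq_bot.mp h)
  have hmem : ∀ v : HeightOneSpectrum (𝓞 K), v ∈ hfin.toFinset ↔ (p : 𝓞 K) ∈ v.asIdeal := by
    intro v
    rw [Set.Finite.mem_toFinset]
    show v.asIdeal ∣ Ideal.span {(p : 𝓞 K)} ↔ _
    rw [Ideal.dvd_span_singleton]
  have hloc' : ∀ v : HeightOneSpectrum (𝓞 K), (p : 𝓞 K) ∈ v.asIdeal →
      ∃ y : 𝓞 K, v.intValuation (y ^ p - a) ≤ v.intValuation c := by
    intro v hv
    refine at_place K v hp.ne_zero a c hc0 ?_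
    have h := hloc v hv
    rwa [pow_one] at h
  let y0 : HeightOneSpectrum (𝓞 K) → 𝓞 K := fun v =>
    if hv : (p : 𝓞 K) ∈ v.asIdeal then (hloc' v hv).choose else 0
  have hy0 : ∀ v : HeightOneSpectrum (𝓞 K), (p : 𝓞 K) ∈ v.asIdeal →
      v.intValuation (y0 v ^ p - a) ≤ v.intValuation c := by
    intro v hv
    simp only [y0, dif_pos hv]
    exact (hloc' v hv).choose_spec
  let e : HeightOneSpectrum (𝓞 K) → ℕ := fun v =>
    (Associates.mk v.asIdeal).count (Associates.mk (Ideal.span {c})).factors
  have he : ∀ (v : HeightOneSpectrum (𝓞 K)) (x : 𝓞 K),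
      v.intValuation x ≤ v.intValuation c ↔ x ∈ v.asIdeal ^ e v := by
    intro v x
    rw [← HeightOneSpectrum.intValuation_le_pow_iff_mem, HeightOneSpectrum.intValuation_if_neg v hc0]
  obtain ⟨y, hy⟩ := IsDedekindDomain.exists_forall_sub_mem_ideal (s := hfin.toFinset)
    (fun v : HeightOneSpectrum (𝓞 K) => v.asIdeal) e (fun v _ => v.prime)
    (fun v _ w _ hvw h => hvw (HeightOneSpectrum.ext h)) (fun v => y0 v)
  have hy1 : ∀ v : HeightOneSpectrum (𝓞 K), (p : 𝓞 K) ∈ v.asIdeal →
      v.intValuation (y ^ p - a) ≤ v.intValuation c := by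
    intro v hv
    rw [he]
    have h1 := hy v ((hmem v).2 hv)
    have h2 : y ^ p - y0 v ^ p ∈ v.asIdeal ^ e v := by
      obtain ⟨r, hr⟩ := sub_dvd_pow_sub_pow y (y0 v) p
      rw [hr]
      exact Ideal.mul_mem_right _ _ h1
    have h3 := (he v _).1 (hy0 v hv)
    have h4 : y ^ p - a = (y ^ p - y0 v ^ p) + (y0 v ^ p - a) := by ring
    rw [h4]
    exact add_mem h2 h3
  have hcK : (c : K) ≠ 0 := by simpa using hc0
  have key : ∀ v : HeightOneSpectrum (𝓞 K),
      v.valuation K (((y ^ p - a : 𝓞 K) : K) / (c : K)) ≤ 1 := by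
    intro v
    rw [map_div₀]
    by_cases hv : (p : 𝓞 K) ∈ v.asIdeal
    · have h := hy1 v hv
      rw [← HeightOneSpectrum.valuation_of_algebraMap (K := K),
        ← HeightOneSpectrum.valuation_of_algebraMap (K := K)] at h
      exact div_le_one_of_le₀ h (by simp)
    · have hcv : v.valuation K (c : K) = 1 := by
        refine (HeightOneSpectrum.valuation_eq_one_iff_notMem (K := K) v).mpr ?_
        intro h
        exact hv (v.isPrime.mem_of_pow_mem _ h)
      rw [hcv, div_one]
      exact HeightOneSpectrum.valuation_le_one v _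
  obtain ⟨w, hw⟩ := HeightOneSpectrum.mem_integers_of_valuation_le_one K _ key
  refine ⟨y, w, ?_⟩
  apply RingOfIntegers.coe_injective
  have h5 : ((w : 𝓞 K) : K) = ((y ^ p - a : 𝓞 K) : K) / (c : K) := hw
  have h6 : algebraMap (𝓞 K) K (c * w) = (c : K) * (w : K) := map_mul _ _ _
  rw [h6, h5]
  field_simp

end Pool.Agent.Work.MP_59f3ad_nt.Pex
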