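import Pool.Agent.Work.MP_59f3ad_nt.Pex.I_Tr
import Pool.Agent.Work.MP_59f3ad_nt.Bd.B01

set_option autoImplicit false

/-!
# MP_59f3ad_nt Pex, item Loc1: no local roots of unity
-/

open NumberField IsDedekindDomain

namespace Pool.Agent.Work.MP_59f3ad_nt.Pex

open Pool.Agent.Work.MP_59f3ad_nt.Tw

universe u

open IPxTr in
theorem pr_Loc1 (h1 : StPhi.{u}) : StLoc1.{u} := by
  intro M _ _ p hp hp2 hN w hw ζ hζ
  by_contra hne
  have hv1 : ∀ k : M, Valued.v (algebraMap M (w.adicCompletion M) k) = w.valuation M k :=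
    fun k => HeightOneSpectrum.valuedAdicCompletion_eq_valuation' w k
  have hζ1 : Valued.v ζ = 1 := by
    have h : Valued.v ζ ^ p = 1 := by rw [← map_pow, hζ, map_one]
    exact (pow_eq_one_iff_left hp.ne_zero).1 h
  have hδ0 : Valued.v (ζ - 1) ≠ 0 := (Valuation.ne_zero_iff _).2 (sub_ne_zero.2 hne)
  have hδ1 : Valued.v (ζ - 1) ≤ 1 := Valuation.map_sub_le _ hζ1.le (by rw [map_one])
  have hP := p_lt w p hw
  have hvp : w.valuation M (p : M) ≠ 0 :=
    (Valuation.ne_zero_iff _).2 (Nat.cast_ne_zero.2 hp.ne_zero)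
  obtain ⟨k, hk⟩ := exists_pow_lt₀ hP (Units.mk0 _ hδ0)
  have hk' : w.valuation M (p : M) ^ k < Valued.v (ζ - 1) := hk
  have hc : ((p : 𝓞 M) ^ (k + 1)) ≠ 0 := pow_ne_zero _ (Nat.cast_ne_zero.2 hp.ne_zero)
  obtain ⟨z, hz⟩ := exists_int_approx M w ζ hζ1.le ((p : 𝓞 M) ^ (k + 1)) hc
  have hcv : Valued.v (algebraMap M (w.adicCompletion M) (((p : 𝓞 M) ^ (k + 1) : 𝓞 M) : M)) =
      w.valuation M (p : M) ^ (k + 1) := by
    have e : (((p : 𝓞 M) ^ (k + 1) : 𝓞 M) : M) = (p : M) ^ (k + 1) := by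
      push_cast
      rfl
    rw [e, hv1, map_pow]
  rw [hcv] at hz
  set Z := algebraMap M (w.adicCompletion M) (z : M) with hZ
  have hz2 : Valued.v (Z - ζ) < Valued.v (ζ - 1) * w.valuation M (p : M) := by
    refine hz.trans ?_
    rw [pow_succ]
    exact mul_lt_mul_of_pos_right hk' (zero_lt_iff.2 hvp)
  have hz3 : Valued.v (Z - ζ) < Valued.v (ζ - 1) :=
    hz2.trans_le (mul_le_of_le_one_right' hP.le)
  have hZ1 : Valued.v Z = 1 := by
    have e : Z = ζ + (Z - ζ) := by ring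
    rw [e, Valuation.map_add_eq_of_lt_left _ (by rw [hζ1]; exact hz3.trans_le hδ1), hζ1]
  have hZ2 : Valued.v (Z - 1) = Valued.v (ζ - 1) := by
    have e : Z - 1 = (ζ - 1) + (Z - ζ) := by ring
    rw [e, Valuation.map_add_eq_of_lt_left _ hz3]
  have hZ3 : Valued.v (Z ^ p - 1) ≤ Valued.v (Z - ζ) := by
    have e : Z ^ p - 1 = (Z - ζ) * ∑ i ∈ Finset.range p, Z ^ i * ζ ^ (p - 1 - i) := by
      rw [mul_comm, Commute.geom_sum₂_mul (Commute.all _ _), hζ]
    rw [e, map_mul]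
    refine mul_le_of_le_one_right' (Valuation.map_sum_le _ fun i _ => ?_)
    rw [map_mul, map_pow, map_pow, hZ1, hζ1, one_pow, one_pow, one_mul]
  have h4 := h1 M p hp hp2 hN w hw (z : M) 1 one_ne_zero (by rw [map_one, ← hv1]; exact hZ1)
  rw [map_one, one_pow, mul_one, one_pow] at h4
  have e1 : Valued.v (Z - 1) = w.valuation M ((z : M) - 1) := by
    rw [← hv1, map_sub (algebraMap M _), map_one (algebraMap M _)]
  have e2 : Valued.v (Z ^ p - 1) = w.valuation M ((z : M) ^ p - 1) := by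
    rw [← hv1, map_sub (algebraMap M _), map_pow (algebraMap M _), map_one (algebraMap M _)]
  rw [← e1, ← e2, hZ2] at h4
  exact absurd (h4.trans hZ3) (not_le.2 hz2)

end Pool.Agent.Work.MP_59f3ad_nt.Pex
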