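import Pool.Agent.Work.MP_59f3ad_nt.Pex.Stmts

/-!
# MP_59f3ad_nt Pex: item Mild
-/

set_option autoImplicit false

open NumberField IsDedekindDomain

namespace Pool.Agent.Work.MP_59f3ad_nt.Pex

open Pool.Agent.Work.MP_59f3ad_nt.Tw

universe u

namespace IPxMild

/-- multiplication by a `p`-th power -/
theorem valAt_mul (K : Type u) [Field K] [NumberField K] (q : ℕ) (w : HeightOneSpectrum (𝓞 K))
    (a c : K) (h : ValAt K q w a) : ValAt K q w (a * c ^ q) := by
  obtain ⟨y, hy⟩ := h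
  exact ⟨y * c, by rw [map_mul, map_pow, hy, map_mul, mul_pow]⟩

theorem valAt_div (K : Type u) [Field K] [NumberField K] (q : ℕ) (w : HeightOneSpectrum (𝓞 K))
    (a c : K) (hc : c ≠ 0) (h : ValAt K q w (a * c ^ q)) : ValAt K q w a := by
  have h1 := valAt_mul K q w (a * c ^ q) c⁻¹ h
  rwa [mul_assoc, ← mul_pow, mul_inv_cancel₀ hc, one_pow, mul_one] at h1

end IPxMild

open IPxMild in
theorem pr_Mild (h1 : StTame.{u}) (h2 : StLA.{u}) (h3 : StVP.{u}) : StMild.{u} := by
  intro K M _ _ _ _ _ p hp hp2 hd v₀ q ⟨hq, hqv, hqp, hunr⟩ a ha hloc hval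
  obtain ⟨x, c, hc, hxc⟩ := IsFractionRing.div_surjective (A := 𝓞 K) a
  have hc0 : (c : 𝓞 K) ≠ 0 := nonZeroDivisors.ne_zero hc
  have hcK : (c : K) ≠ 0 := fun h => hc0 (RingOfIntegers.ext h)
  -- the integral element
  obtain ⟨b, hb⟩ : ∃ b : 𝓞 K, (b : K) = a * (c : K) ^ p := by
    refine ⟨x * c ^ (p - 1), ?_⟩
    have h4 : p = (p - 1) + 1 := by have := hp.pos; omega
    have h5 : a = (x : K) / (c : K) := hxc.symm
    rw [h5]
    conv_rhs => rw [h4, pow_succ]
    have h6 : ((x * c ^ (p - 1) : 𝓞 K) : K) = (x : K) * (c : K) ^ (p - 1) := by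
      simp
    rw [h6]
    field_simp
  have hbK : (b : K) ≠ 0 := by
    rw [hb]
    exact mul_ne_zero ha (pow_ne_zero _ hcK)
  have hb0 : b ≠ 0 := by
    rintro rfl
    exact hbK rfl
  have happ : App K p b := by
    apply h2 K p hp b
    intro v hv
    obtain ⟨η, hη⟩ := hloc v hv
    refine ⟨η * algebraMap K (v.adicCompletion K) (c : K), ?_⟩
    rw [mul_pow, hη, hb, map_mul, map_pow, pow_one]
  have key : ∀ v : HeightOneSpectrum (𝓞 K), v ≠ v₀ → ValAt K p v (b : K) := by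
    intro v hv
    by_cases hpv : (p : 𝓞 K) ∈ v.asIdeal
    · exact h3 K p hp b hb0 happ v hpv
    · rw [hb]
      exact valAt_mul K p v a _ (hval v hpv (hunr v hv hpv))
  intro v
  apply valAt_div K p v a (c : K) hcK
  rw [← hb]
  by_cases hv : v = v₀
  · subst hv
    by_cases hpv : (p : 𝓞 K) ∈ v.asIdeal
    · exact h3 K p hp b hb0 happ v hpv
    · have hne : q ≠ p := by
        rintro rfl
        exact hpv hqv
      exact h1 K p q hp hp2 hd hq hne (hqp.resolve_left hne) v hqv b hb0 key happ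
  · exact key v hv

end Pool.Agent.Work.MP_59f3ad_nt.Pex
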