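import Pool.Agent.Work.MP_59f3ad_nt.Pex.Stmts

/-!
# MP_59f3ad_nt Pex, item Mu
-/

set_option autoImplicit false

open NumberField IsDedekindDomain

namespace Pool.Agent.Work.MP_59f3ad_nt.Pex

universe u

namespace IPxMu

/-- there is a place above `p` -/
lemma exists_above (M : Type u) [Field M] [NumberField M] (p : ℕ) (hp : p.Prime) :
    ∃ w : HeightOneSpectrum (𝓞 M), (p : 𝓞 M) ∈ w.asIdeal := by
  have hpz : Prime (p : ℤ) := Nat.prime_iff_prime_int.1 hp
  have hmax : (Ideal.span {(p : ℤ)}).IsMaximal :=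
    PrincipalIdealRing.isMaximal_of_irreducible hpz.irreducible
  have hker : RingHom.ker (algebraMap ℤ (𝓞 M)) ≤ Ideal.span {(p : ℤ)} := by
    intro x hx
    rw [RingHom.mem_ker] at hx
    have : x = 0 := (FaithfulSMul.algebraMap_injective ℤ (𝓞 M)) (by rw [hx, map_zero])
    rw [this]
    exact Ideal.zero_mem _
  obtain ⟨Q, hQ, hQc⟩ := Ideal.exists_ideal_over_maximal_of_isIntegral (S := 𝓞 M) (Ideal.span {(p : ℤ)}) hker
  have hmem : (p : 𝓞 M) ∈ Q := by
    have h1 : (p : ℤ) ∈ Q.comap (algebraMap ℤ (𝓞 M)) := by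
      rw [hQc]
      exact Ideal.mem_span_singleton_self _
    have h2 : algebraMap ℤ (𝓞 M) (p : ℤ) ∈ Q := h1
    simpa using h2
  refine ⟨⟨Q, hQ.isPrime, ?_⟩, hmem⟩
  intro h
  rw [h, Ideal.mem_bot] at hmem
  exact hp.ne_zero (by exact_mod_cast hmem)

end IPxMu

theorem pr_Mu (h2 : StLoc1.{u}) : StMu.{u} := by
  intro M _ _ p hp hp2 hNR ζ hζ
  obtain ⟨w, hw⟩ := IPxMu.exists_above M p hp
  have h1 := h2 M p hp hp2 hNR w hw (algebraMap M (w.adicCompletion M) ζ)
    (by rw [← map_pow, hζ, map_one])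
  exact (algebraMap M (w.adicCompletion M)).injective (by rw [h1, map_one])

end Pool.Agent.Work.MP_59f3ad_nt.Pex
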