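import Pool.Agent.Work.MP_59f3ad_nt.Pex.Stmts

/-!
# MP_59f3ad_nt Pex, item NI (helper15): the norm of an element with valuations divisible by `p`
outside one place
-/

set_option autoImplicit false

open NumberField IsDedekindDomain

namespace Pool.Agent.Work.MP_59f3ad_nt.Pex

universe u

namespace IPxNI

variable {K : Type u} [Field K] [NumberField K]

open UniqueFactorizationMonoid

/-- the valuation in terms of the factorization of the ideal -/
theorem val_count (v : HeightOneSpectrum (𝓞 K)) (a : 𝓞 K) (ha : a ≠ 0) [DecidableEq (Ideal (𝓞 K))] :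
    v.valuation K (a : K) =
      WithZero.exp (-((normalizedFactors (Ideal.span {a})).count v.asIdeal : ℤ)) := by
  have hsr : Ideal.span {a} ≠ 0 := Submodule.span_singleton_eq_bot.mp.mt ha
  have h := v.valuation_of_algebraMap (K := K) a
  have h1 : multiplicity v.asIdeal (Ideal.span {a}) =
      (normalizedFactors (Ideal.span {a})).count v.asIdeal := by
    have h2 := multiplicity_eq_count_normalizedFactors v.irreducible hsr
    rw [normalize_eq] at h2
    exact h2
  rw [show (a : K) = algebraMap (𝓞 K) K a from rfl, h,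
    v.intValuation_eq_exp_neg_multiplicity ha, h1]

/-- valuation divisible by `p` as an element: the multiplicity is divisible by `p` -/
theorem dvd_of_valAt (p : ℕ) (v : HeightOneSpectrum (𝓞 K)) (a : 𝓞 K) (ha : a ≠ 0)
    [DecidableEq (Ideal (𝓞 K))] (h : ValAt K p v (a : K)) :
    p ∣ (normalizedFactors (Ideal.span {a})).count v.asIdeal := by
  obtain ⟨y, hy⟩ := h
  rw [val_count v a ha] at hy
  by_cases hp : p = 0
  · subst hp
    rw [pow_zero, WithZero.exp_eq_one] at hy
    have : ((normalizedFactors (Ideal.span {a})).count v.asIdeal : ℤ) = 0 := by omega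
    exact ⟨0, by omega⟩
  have hy0 : v.valuation K y ≠ 0 := by
    intro h0
    rw [h0, zero_pow hp] at hy
    exact WithZero.exp_ne_zero hy
  rw [← WithZero.exp_log hy0, ← WithZero.exp_nsmul, WithZero.exp_inj] at hy
  have h1 : ((p : ℕ) : ℤ) ∣ ((normalizedFactors (Ideal.span {a})).count v.asIdeal : ℤ) :=
    ⟨-(v.valuation K y).log, by
      rw [nsmul_eq_mul] at hy
      linarith⟩
  exact_mod_cast h1

/-- the converse -/
theorem valAt_of_dvd (p : ℕ) (v : HeightOneSpectrum (𝓞 K)) (a : 𝓞 K) (ha : a ≠ 0)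
    [DecidableEq (Ideal (𝓞 K))]
    (h : p ∣ (normalizedFactors (Ideal.span {a})).count v.asIdeal) : ValAt K p v (a : K) := by
  obtain ⟨m, hm⟩ := h
  obtain ⟨π, hπ⟩ := v.valuation_exists_uniformizer K
  refine ⟨π ^ m, ?_⟩
  rw [val_count v a ha, hm, map_pow, hπ, ← pow_mul, ← WithZero.exp_nsmul, WithZero.exp_inj,
    nsmul_eq_mul]
  push_cast
  ring

/-- the norm of a prime ideal containing a prime number -/
theorem absNorm_prime (q : ℕ) (hq : q.Prime) (v : HeightOneSpectrum (𝓞 K))
    (hv : (q : 𝓞 K) ∈ v.asIdeal) :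
    ∃ f : ℕ, 1 ≤ f ∧ f ≤ Module.finrank ℚ K ∧ Ideal.absNorm v.asIdeal = q ^ f := by
  have h1 : Ideal.absNorm v.asIdeal ∣ Ideal.absNorm (Ideal.span {(q : 𝓞 K)}) :=
    Ideal.absNorm_dvd_absNorm_of_le ((Ideal.span_singleton_le_iff_mem _).2 hv)
  have h2 : Ideal.absNorm (Ideal.span {(q : 𝓞 K)}) = q ^ Module.finrank ℚ K := by
    rw [Ideal.absNorm_span_singleton, Algebra.norm_natCast, RingOfIntegers.rank]
    simp [Int.natAbs_pow]
  rw [h2] at h1
  obtain ⟨f, hf, hfe⟩ := (Nat.dvd_prime_pow hq).1 h1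
  refine ⟨f, ?_, hf, hfe⟩
  rcases Nat.eq_zero_or_pos f with h0 | h0
  · rw [h0, pow_zero, Ideal.absNorm_eq_one_iff] at hfe
    exact absurd hfe v.isPrime.ne_top
  · exact h0

end IPxNI

open IPxNI UniqueFactorizationMonoid in
/-- Item NI. -/
theorem pr_NI : StNI.{u} := by
  intro K _ _ p q hp hq v₀ hv₀ a ha hval
  classical
  obtain ⟨f, hf1, hf2, hf⟩ := absNorm_prime q hq v₀ hv₀
  have hsr : Ideal.span {a} ≠ ⊥ := Submodule.span_singleton_eq_bot.mp.mt ha
  set M := normalizedFactors (Ideal.span {a}) with hM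
  have hprod : M.prod = Ideal.span {a} := Ideal.prod_normalizedFactors_eq_self hsr
  have hdiv : ∀ P ∈ M.filter (fun P => ¬ v₀.asIdeal = P), p ∣ (M.filter (fun P => ¬ v₀.asIdeal = P)).count P := by
    intro P hP
    rw [Multiset.mem_filter] at hP
    have hPp : Prime P := prime_of_normalized_factor P hP.1
    have hPi : P.IsPrime := Ideal.isPrime_of_prime hPp
    let v : HeightOneSpectrum (𝓞 K) := ⟨P, hPi, hPp.ne_zero⟩
    have hv : v ≠ v₀ := by
      intro h
      exact hP.2 (by rw [← h])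
    have h1 := dvd_of_valAt p v a ha (hval v hv)
    rw [Multiset.count_filter_of_pos (p := fun P => ¬ v₀.asIdeal = P) hP.2]
    exact h1
  obtain ⟨U, hU⟩ := Multiset.exists_smul_of_dvd_count _ hdiv
  have hsplit : M = Multiset.replicate (M.count v₀.asIdeal) v₀.asIdeal + p • U := by
    rw [← hU, ← Multiset.filter_eq]
    exact (Multiset.filter_add_not (fun P => v₀.asIdeal = P) M).symm
  have hI : Ideal.span {a} = v₀.asIdeal ^ (M.count v₀.asIdeal) * U.prod ^ p := by
    rw [← hprod]
    conv_lhs => rw [hsplit]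
    rw [Multiset.prod_add, Multiset.prod_replicate, Multiset.prod_nsmul]
  refine ⟨f, M.count v₀.asIdeal, Ideal.absNorm U.prod, hf1, hf2, ?_, ?_, fun h =>
    valAt_of_dvd p v₀ a ha h⟩
  · rw [Nat.pos_iff_ne_zero]
    intro h0
    rw [Ideal.absNorm_eq_zero_iff] at h0
    rw [h0, show (⊥ : Ideal (𝓞 K)) = 0 from rfl, zero_pow hp.ne_zero, mul_zero] at hI
    exact hsr hI
  · rw [← Ideal.absNorm_span_singleton, hI, map_mul, map_pow, map_pow, hf, ← pow_mul]

end Pool.Agent.Work.MP_59f3ad_nt.Pex
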