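import Pool.Agent.Work.MP_59f3ad_nt.Pex.Stmts

/-!
# MP_59f3ad_nt Pex, item NRK: the condition NR in fields of small degree
-/

set_option autoImplicit false

open NumberField IsDedekindDomain

namespace Pool.Agent.Work.MP_59f3ad_nt.Pex

universe u

namespace IPxNRK

open scoped WithZero

/-- elements of `ℤᵐ⁰` -/
lemma exists_exp {x : ℤᵐ⁰} (hx : x ≠ 0) : ∃ n : ℤ, x = WithZero.exp n :=
  ⟨WithZero.log x, (WithZero.exp_log hx).symm⟩

/-- the multiplicity of `w` in `p` is at most the degree -/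
lemma le_finrank (K : Type u) [Field K] [NumberField K] (p : ℕ) (hp : p.Prime)
    (w : HeightOneSpectrum (𝓞 K)) (hw : (p : 𝓞 K) ∈ w.asIdeal) (n : ℕ)
    (hn : (p : 𝓞 K) ∈ w.asIdeal ^ n) : n ≤ Module.finrank ℚ K := by
  have h1 : Ideal.absNorm (Ideal.span {(p : 𝓞 K)}) = p ^ Module.finrank ℚ K := by
    rw [Ideal.absNorm_span_singleton, Algebra.norm_natCast, RingOfIntegers.rank]
    simp
  have h2 : Ideal.absNorm w.asIdeal ∣ p ^ Module.finrank ℚ K := by
    rw [← h1]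
    exact Ideal.absNorm_dvd_absNorm_of_le ((Ideal.span_singleton_le_iff_mem _).mpr hw)
  have h3 : Ideal.absNorm w.asIdeal ^ n ∣ p ^ Module.finrank ℚ K := by
    rw [← h1, ← map_pow]
    exact Ideal.absNorm_dvd_absNorm_of_le ((Ideal.span_singleton_le_iff_mem _).mpr hn)
  obtain ⟨f, -, hf⟩ := (Nat.dvd_prime_pow hp).mp h2
  have hf0 : f ≠ 0 := by
    rintro rfl
    rw [pow_zero, Ideal.absNorm_eq_one_iff] at hf
    exact w.isPrime.ne_top hf
  rw [hf, ← pow_mul, Nat.pow_dvd_pow_iff_le_right hp.one_lt] at h3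
  exact le_trans (Nat.le_mul_of_pos_left n (Nat.pos_of_ne_zero hf0)) h3

end IPxNRK

theorem pr_NRK : StNRK.{u} := by
  intro K _ _ p hp hK w hw s hs
  have hp0 : (p : K) ≠ 0 := Nat.cast_ne_zero.mpr hp.ne_zero
  have hvp : w.valuation K (p : K) ≠ 0 := (Valuation.ne_zero_iff _).mpr hp0
  have hp1 : p - 1 ≠ 0 := by
    have := hp.two_le
    omega
  have hvs : w.valuation K s ≠ 0 := by
    intro h
    rw [h, zero_pow hp1] at hs
    exact hvp hs.symm
  obtain ⟨n, hn⟩ := IPxNRK.exists_exp hvs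
  have hlt : w.valuation K (p : K) < 1 := by
    have h1 := (HeightOneSpectrum.valuation_lt_one_iff_mem (K := K) w (p : 𝓞 K)).mpr hw
    simpa using h1
  rw [← hs, hn, ← WithZero.exp_nsmul, ← WithZero.exp_zero, WithZero.exp_lt_exp] at hlt
  have hn0 : n ≤ -1 := by
    rw [nsmul_eq_mul] at hlt
    have h1 : (0 : ℤ) ≤ ((p - 1 : ℕ) : ℤ) := Int.natCast_nonneg _
    by_contra hcon
    push Not at hcon
    have : 0 ≤ n := by omega
    nlinarith
  have hle : w.valuation K (algebraMap (𝓞 K) K (p : 𝓞 K)) ≤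
      WithZero.exp (-((p - 1 : ℕ) : ℤ)) := by
    rw [map_natCast, ← hs, hn, ← WithZero.exp_nsmul, WithZero.exp_le_exp, nsmul_eq_mul]
    have h1 : (0 : ℤ) ≤ ((p - 1 : ℕ) : ℤ) := Int.natCast_nonneg _
    nlinarith
  rw [HeightOneSpectrum.valuation_of_algebraMap,
    HeightOneSpectrum.intValuation_le_pow_iff_mem] at hle
  have h5 := IPxNRK.le_finrank K p hp w hw _ hle
  omega

end Pool.Agent.Work.MP_59f3ad_nt.Pex
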