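import Pool.Agent.Work.MP_59f3ad_nt.Pex.Stmts

/-!
# MP_59f3ad_nt Pex, item NRL: the condition NR in subfields
-/

set_option autoImplicit false

open NumberField IsDedekindDomain

namespace Pool.Agent.Work.MP_59f3ad_nt.Pex

universe u

namespace IPxNRL

/-- a place above `v` -/
lemma exists_above (K M : Type u) [Field K] [NumberField K] [Field M] [NumberField M]
    [Algebra K M] (v : HeightOneSpectrum (𝓞 K)) :
    ∃ w : HeightOneSpectrum (𝓞 M), w.asIdeal.LiesOver v.asIdeal := by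
  have hker : RingHom.ker (algebraMap (𝓞 K) (𝓞 M)) ≤ v.asIdeal := by
    intro x hx
    rw [RingHom.mem_ker] at hx
    have : x = 0 := (FaithfulSMul.algebraMap_injective (𝓞 K) (𝓞 M)) (by rw [hx, map_zero])
    rw [this]
    exact Ideal.zero_mem _
  have hmax : v.asIdeal.IsMaximal := v.isMaximal
  obtain ⟨Q, hQ, hQc⟩ := Ideal.exists_ideal_over_maximal_of_isIntegral (S := 𝓞 M) v.asIdeal hker
  have hlo : Q.LiesOver v.asIdeal := ⟨hQc.symm⟩
  exact ⟨⟨Q, hQ.isPrime, Ideal.ne_bot_of_liesOver_of_ne_bot v.ne_bot Q⟩, hlo⟩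

end IPxNRL

theorem pr_NRL : StNRL.{u} := by
  intro L M _ _ _ _ _ p _ h v hv s hs
  obtain ⟨w, hw⟩ := IPxNRL.exists_above L M v
  have hpw : (p : 𝓞 M) ∈ w.asIdeal := by
    have h1 : v.asIdeal = w.asIdeal.comap (algebraMap (𝓞 L) (𝓞 M)) := hw.over
    rw [h1, Ideal.mem_comap, map_natCast] at hv
    exact hv
  refine h w hpw (algebraMap L M s) ?_
  have h2 := HeightOneSpectrum.valuation_liesOver M v w s
  have h3 := HeightOneSpectrum.valuation_liesOver M v w (p : L)
  rw [map_natCast (algebraMap L M)] at h3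
  rw [← h2, ← h3, ← hs, ← pow_mul, ← pow_mul, mul_comm]

end Pool.Agent.Work.MP_59f3ad_nt.Pex
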