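import Mathlib
import Pool.Agent.Work.MP_59f3ad_nt.Defs
import Pool.Agent.Work.MP_59f3ad_nt.Tw.Stmts

/-!
# MP_59f3ad_nt Pex: Schneider's conjecture in all extensions of `p`-power degree at once

Statements.  Additive notation is used in the proofs: `w(x)` is the integer with
`w.valuation K x = exp (-w(x))`, so `w.valuation K x ≤ w.valuation K y` means `w(x) ≥ w(y)`.
-/

set_option autoImplicit false

open NumberField IsDedekindDomain

namespace Pool.Agent.Work.MP_59f3ad_nt.Pex

open Pool.Agent.Work.MP_59f3ad_nt.Tw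

universe u

/-! ### definitions -/

/-- the valuation of `a` is divisible by `q` at the place `w` -/
def ValAt (K : Type u) [Field K] [NumberField K] (q : ℕ) (w : HeightOneSpectrum (𝓞 K)) (a : K) :
    Prop := ∃ y : K, w.valuation K a = w.valuation K y ^ q

/-- all valuations of `a` are divisible by `q` -/
def ValP (K : Type u) [Field K] [NumberField K] (q : ℕ) (a : K) : Prop :=
  ∀ w : HeightOneSpectrum (𝓞 K), ValAt K q w a

/-- `a` is approximated by `p`-th powers modulo all powers of `p` -/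
def App (K : Type u) [Field K] [NumberField K] (p : ℕ) (a : 𝓞 K) : Prop :=
  ∀ N : ℕ, ∃ y : 𝓞 K, (p : 𝓞 K) ^ N ∣ y ^ p - a

/-- the Selmer-type group `V` is trivial, in terms of approximation -/
def VA (K : Type u) [Field K] [NumberField K] (p : ℕ) : Prop :=
  ∀ a : 𝓞 K, a ≠ 0 → ValP K p (a : K) → App K p a → ∃ z : K, z ^ p = (a : K)

/-- the groups `V_m` are trivial for all `m`, in terms of completions -/
def VM (K : Type u) [Field K] [NumberField K] (p : ℕ) : Prop :=
  ∀ (m : ℕ) (α : K), α ≠ 0 → ValP K (p ^ m) α → LocPow K p m α → ∃ z : K, z ^ p ^ m = α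

/-- `p - 1` does not divide `w(p)` for the places `w` above `p` -/
def NR (K : Type u) [Field K] [NumberField K] (p : ℕ) : Prop :=
  ∀ w : HeightOneSpectrum (𝓞 K), (p : 𝓞 K) ∈ w.asIdeal →
    ∀ s : K, w.valuation K s ^ (p - 1) ≠ w.valuation K (p : K)

/-- no nontrivial `p`-th roots of unity -/
def NoMu (K : Type u) [Field K] (p : ℕ) : Prop := ∀ ζ : K, ζ ^ p = 1 → ζ = 1

/-- `M/K` is primitively ramified: an element `a` of `K` which is a local `p`-th power above `p` and
has valuations divisible by `p` at all places not above `p` which are unramified in `M`, has all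
valuations divisible by `p` -/
def Prim (K M : Type u) [Field K] [NumberField K] [Field M] [NumberField M] [Algebra K M]
    (p : ℕ) : Prop :=
  ∀ a : K, a ≠ 0 → LocPow K p 1 a →
    (∀ v : HeightOneSpectrum (𝓞 K), (p : 𝓞 K) ∉ v.asIdeal →
      Algebra.IsUnramifiedIn (𝓞 M) v.asIdeal → ValAt K p v a) → ValP K p a

/-- `M/K` is unramified at all finite places outside `p` and `v₀`, where `v₀` lies over `p` or over
a prime number `q` with `q^(p-1)` not congruent to `1` modulo `p^2` -/
def Mild (K M : Type u) [Field K] [NumberField K] [Field M] [NumberField M] [Algebra K M]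
    (p : ℕ) (v₀ : HeightOneSpectrum (𝓞 K)) (q : ℕ) : Prop :=
  q.Prime ∧ (q : 𝓞 K) ∈ v₀.asIdeal ∧ (q = p ∨ ¬ p ^ 2 ∣ q ^ (p - 1) - 1) ∧
    ∀ v : HeightOneSpectrum (𝓞 K), v ≠ v₀ → (p : 𝓞 K) ∉ v.asIdeal →
      Algebra.IsUnramifiedIn (𝓞 M) v.asIdeal

/-! ### A. the condition `NR` -/

/-- `K` of small degree.  `w(p)` is the ramification index of `w`, so `1 ≤ w(p) ≤ [K : ℚ] < p - 1`,
and it is not `(p - 1) w(s)`. -/
def StNRK : Prop := ∀ (K : Type u) [Field K] [NumberField K] (p : ℕ), p.Prime →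
  Module.finrank ℚ K + 1 < p → NR K p

/-- Going up in a Galois extension of `p`-power degree.  Let `w` be over `v` and `e = e(w|v)`; `e`
divides `[M : K] = p^j`, so it is prime to `p - 1`.  `w(p) = e v(p)` (`valuation_liesOver`).  If
`(p - 1) w(s) = w(p)` then `p - 1` divides `e v(p)`, so it divides `v(p)`, and `K` has an element `s'`
with `(p - 1) v(s') = v(p)` (`valuation_surjective`). -/
def StNRM : Prop := ∀ (K M : Type u) [Field K] [NumberField K] [Field M] [NumberField M]
  [Algebra K M] [IsGalois K M] (p j : ℕ), p.Prime → p ≠ 2 → Module.finrank K M = p ^ j →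
  NR K p → NR M p

/-- Going down.  For `w'` above `p` in `L` take `w` above `w'` in `M`: `w(x) = e w'(x)` for all
`x` in `L`, so `(p - 1) w'(s) = w'(p)` gives `(p - 1) w(s) = w(p)`. -/
def StNRL : Prop := ∀ (L M : Type u) [Field L] [NumberField L] [Field M] [NumberField M]
  [Algebra L M] (p : ℕ), p.Prime → NR M p → NR L p

/-- The main inequality `w(u^p - y^p) ≤ w(u - y) + (p - 1) w(y) + w(p)`.  Put `z = u / y`, `w(z) = 0`;
claim `w(z^p - 1) ≤ w(z - 1) + w(p)`.  If `w(z - 1) = 0`, then `z^p - 1` is congruent to `(z - 1)^p`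
modulo `p`, so `w(z^p - 1) = 0`.  If `s = z - 1` has `w(s) > 0`, then
`z^p - 1 = s (s^(p-1) + p (1 + s g))` with `w(g) ≥ 0`, `w(1 + s g) = 0` and `w(s^(p-1)) ≠ w(p)`
(`NR`), so `w(z^p - 1) = w(s) + min(w(s^(p-1)), w(p)) ≤ w(s) + w(p)`. -/
def StPhi : Prop := ∀ (M : Type u) [Field M] [NumberField M] (p : ℕ), p.Prime → p ≠ 2 → NR M p →
  ∀ w : HeightOneSpectrum (𝓞 M), (p : 𝓞 M) ∈ w.asIdeal → ∀ x y : M, y ≠ 0 →
  w.valuation M x = w.valuation M y →
  w.valuation M (x - y) * w.valuation M y ^ (p - 1) * w.valuation M (p : M) ≤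
    w.valuation M (x ^ p - y ^ p)

/-- No nontrivial `p`-th root of unity `ζ` in the completion (uses `StPhi`).  If `ζ ≠ 1` choose `z`
in `M` (dense) with `w(z - ζ) > w(ζ - 1) + w(p)`, which is `≥ 0`.  Then `w(z) = w(ζ) = 0`,
`w(z - 1) = w(ζ - 1)` and `w(z^p - 1) = w(z^p - ζ^p) ≥ w(z - ζ) > w(z - 1) + w(p)`, which contradicts
`StPhi` for `x = z`, `y = 1`. -/
def StLoc1 : Prop := ∀ (M : Type u) [Field M] [NumberField M] (p : ℕ), p.Prime → p ≠ 2 → NR M p →
  ∀ w : HeightOneSpectrum (𝓞 M), (p : 𝓞 M) ∈ w.asIdeal → NoMu (w.adicCompletion M) p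

/-- The same for `M` itself (`M` embeds into a completion at a place above `p`, `StLoc1`; or
directly from `StPhi`). -/
def StMu : Prop := ∀ (M : Type u) [Field M] [NumberField M] (p : ℕ), p.Prime → p ≠ 2 → NR M p →
  NoMu M p

/-! ### B. local powers and approximation -/

/-- For `w` above `p` let `η^p = a` in the completion; `η` is integral.  There is `y_w` in `𝓞 K` with
`w(y_w - η) ≥ N w(p)`, so `w(y_w^p - a) ≥ N w(p)`.  By the Chinese remainder theorem there is `y` in
`𝓞 K` congruent to `y_w` modulo `w^(N w(p))` for all `w` above `p`; then `p^N` divides `y^p - a`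
(compare `Tw/Tex.lean`, lemma `glue`). -/
def StLA : Prop := ∀ (K : Type u) [Field K] [NumberField K] (p : ℕ), p.Prime → ∀ a : 𝓞 K,
  LocPow K p 1 (a : K) → App K p a

/-- The converse (uses `StPhi`).  Let `w` be above `p` and `w(y_N^p - a) ≥ N w(p)`.  For large `N`
`w(y_N^p) = w(a)`, so `w(y_N)` is constant, and `StPhi` gives
`w(y_N - y_(N')) ≥ min(N, N') w(p) - C`.  So `y_N` converges in the completion to some `η`, and
`η^p = a`. -/
def StAL : Prop := ∀ (K : Type u) [Field K] [NumberField K] (p : ℕ), p.Prime → p ≠ 2 → NR K p →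
  ∀ a : 𝓞 K, a ≠ 0 → App K p a → LocPow K p 1 (a : K)

/-- From level one to all levels (uses `StLA`, `StLoc1`).  Induction on `m`; `m = 0` is trivial.  Let
`α` be as in `VM` for `m + 1`.  Multiply `α` by `c^(p^(m+1))`, `c` a positive integer, to get an
element `a` of `𝓞 K`.  It is a local `p`-th power with valuations divisible by `p`, so `App K p a` and
`a = z^p` (`VA`).  `w(z)` is divisible by `p^m` since `p w(z) = w(a)` is divisible by `p^(m+1)`.  Above
`p`: `z^p = a = η^(p^(m+1))`, so `z = η^(p^m)` by `StLoc1`.  So `z` is a `p^m`-th power. -/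
def StLift : Prop := ∀ (K : Type u) [Field K] [NumberField K] (p : ℕ), p.Prime → p ≠ 2 → NR K p →
  VA K p → VM K p

/-! ### C. descent in a Galois extension of `p`-power degree -/

/-- A nontrivial fixed vector.  Let `A` be the group of nonzero elements of `M` modulo `p`-th powers
and `X` the subgroup generated by the classes of the conjugates of `x` (finite, of exponent `p`, not
trivial), on which the `p`-group `G` acts.  So `p` divides the order of `X`, and `X` has a fixed
element different from `1` (`IsPGroup.exists_fixed_point_of_prime_dvd_card_of_fixed_point`).  It is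
the class of a product `x'` of conjugates of `x` with exponents in `ℕ`, not all zero. -/
def StFix : Prop := ∀ (K M : Type u) [Field K] [Field M] [Algebra K M] [FiniteDimensional K M]
  [IsGalois K M] (p j : ℕ), p.Prime → Module.finrank K M = p ^ j → ∀ Q : M → Prop,
  (∀ x y, Q x → Q y → Q (x * y)) → (∀ (σ : M ≃ₐ[K] M) (x : M), Q x → Q (σ x)) →
  ∀ x : M, x ≠ 0 → Q x → (¬ ∃ z, z ^ p = x) →
  ∃ x' : M, x' ≠ 0 ∧ Q x' ∧ (¬ ∃ z, z ^ p = x') ∧
    ∀ σ : M ≃ₐ[K] M, ∃ z : M, z ≠ 0 ∧ σ x' = x' * z ^ p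

/-- Hilbert 90.  `z_σ` is unique as `M` has no nontrivial `p`-th roots of unity, so it is a cocycle,
`z_σ = σ(z) / z`, and `x / z^p` is invariant. -/
def StH90 : Prop := ∀ (K M : Type u) [Field K] [Field M] [Algebra K M] [FiniteDimensional K M]
  [IsGalois K M] (p : ℕ), p.Prime → NoMu M p → ∀ x : M, x ≠ 0 →
  (∀ σ : M ≃ₐ[K] M, ∃ z : M, z ≠ 0 ∧ σ x = x * z ^ p) →
  ∃ (a : K) (z : M), a ≠ 0 ∧ z ≠ 0 ∧ x = algebraMap K M a * z ^ p

/-- Descent of the approximation by the trace (uses `StPhi`).  Let `c = [M : K]`.  Choose `C` with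
`w(a) ≤ C w(p)` for the finitely many `w` above `p`.  Let `N > C` and `y` in `𝓞 M` with `p^N` dividing
`y^p - a`.  For `σ` in the Galois group `p^N` divides `σ(y)^p - a`.  So `p w(y) = w(a) = p w(σ y)` for
`w` above `p`, and `StPhi` gives `w(σ y - y) ≥ N w(p) - w(p) - (p - 1) w(y) ≥ (N - 1 - C) w(p)`.  So
`p^(N-1-C)` divides `σ y - y` in `𝓞 M`.  `b`, the sum of the `σ y`, is in `𝓞 K` and congruent to `c y`
modulo `p^(N-1-C)`; so `p^(N-1-C)` divides `b^p - c^p a` in `𝓞 M`, and in `𝓞 K`. -/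
def StTr : Prop := ∀ (K M : Type u) [Field K] [NumberField K] [Field M] [NumberField M]
  [Algebra K M] [IsGalois K M] (p : ℕ), p.Prime → p ≠ 2 → NR M p → ∀ a : 𝓞 K, a ≠ 0 →
  App M p (algebraMap (𝓞 K) (𝓞 M) a) →
  App K p ((Module.finrank K M : 𝓞 K) ^ p * a)

/-- Unramified places: `w` above `v` has `w(a) = v(a)` for `a` in `K` (`valuation_liesOver`). -/
def StVU : Prop := ∀ (K M : Type u) [Field K] [NumberField K] [Field M] [NumberField M]
  [Algebra K M] (q : ℕ) (v : HeightOneSpectrum (𝓞 K)), Algebra.IsUnramifiedIn (𝓞 M) v.asIdeal →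
  ∀ a : K, ValP M q (algebraMap K M a) → ValAt K q v a

/-- Places above `p`: for large `N`, `v(y^p - a) ≥ N v(p) > v(a)`, so `v(a) = p v(y)`. -/
def StVP : Prop := ∀ (K : Type u) [Field K] [NumberField K] (p : ℕ), p.Prime → ∀ a : 𝓞 K, a ≠ 0 →
  App K p a → ∀ v : HeightOneSpectrum (𝓞 K), (p : 𝓞 K) ∈ v.asIdeal → ValAt K p v (a : K)

/-- Norms: if `p^N` divides `x - y` in `𝓞 K` then it divides the difference of the norms in `ℤ`
(reduce the matrices of the multiplications modulo `p^N`). -/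
def StNm : Prop := ∀ (K : Type u) [Field K] [NumberField K] (k : ℕ) (x y : 𝓞 K),
  (k : 𝓞 K) ∣ x - y → (k : ℤ) ∣ Algebra.norm ℤ x - Algebra.norm ℤ y

/-- The norm of an element with valuations divisible by `p` outside `v₀`: the ideal generated by
`a` is `v₀^k` times the `p`-th power of an ideal, `k = v₀(a)`; take absolute norms, `N(v₀) = q^f` with
`1 ≤ f ≤ [K : ℚ]`. -/
def StNI : Prop := ∀ (K : Type u) [Field K] [NumberField K] (p q : ℕ), p.Prime → q.Prime →
  ∀ v₀ : HeightOneSpectrum (𝓞 K), (q : 𝓞 K) ∈ v₀.asIdeal → ∀ a : 𝓞 K, a ≠ 0 →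
  (∀ v : HeightOneSpectrum (𝓞 K), v ≠ v₀ → ValAt K p v (a : K)) →
  ∃ f k c : ℕ, 1 ≤ f ∧ f ≤ Module.finrank ℚ K ∧ 0 < c ∧
    (Algebra.norm ℤ a).natAbs = q ^ (f * k) * c ^ p ∧ (p ∣ k → ValAt K p v₀ (a : K))

/-- The exceptional place (uses `StNm`, `StNI`).  `q^(fk) c^p = |N(a)|`.  Suppose `p` does not divide
`k`; `p` does not divide `f` as `f ≤ [K : ℚ] < p`.  For `N` large `N(y)^p` is congruent to
`N(a) = ± q^(fk) c^p` modulo `p^N` (`StNm`), so `v_p(N(y)) = v_p(c)`, and after division by `p^(p v_p(c))`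
one gets integers `r, c'` prime to `p` with `r^p` congruent to `± q^(fk) c'^p` modulo `p^2`.  Raise to
the power `p - 1` (even): `r^(p(p-1))` and `c'^(p(p-1))` are congruent to `1` modulo `p^2`, so
`q^(fk(p-1))` is congruent to `1`.  The order of `q^(p-1)` modulo `p^2` divides `p` and `fk`, so
`q^(p-1)` is congruent to `1` modulo `p^2`: contradiction. -/
def StTame : Prop := ∀ (K : Type u) [Field K] [NumberField K] (p q : ℕ), p.Prime → p ≠ 2 →
  Module.finrank ℚ K < p → q.Prime → q ≠ p → ¬ p ^ 2 ∣ q ^ (p - 1) - 1 →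
  ∀ v₀ : HeightOneSpectrum (𝓞 K), (q : 𝓞 K) ∈ v₀.asIdeal → ∀ a : 𝓞 K, a ≠ 0 →
  (∀ v : HeightOneSpectrum (𝓞 K), v ≠ v₀ → ValAt K p v (a : K)) → App K p a →
  ValAt K p v₀ (a : K)

/-- (uses `StTame`, `StLA`, `StVP`.)  Let `a` be as in `Prim`; multiply it by the `p`-th power of a
positive integer to have it in `𝓞 K` (this does not change hypotheses and conclusion).  `App K p a` by
`StLA`.  The valuations above `p` are divisible by `p` by `StVP`, those at the places `v ≠ v₀` not above
`p` by hypothesis.  If `v₀` is not above `p`, then `q ≠ p` and `StTame` applies. -/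
def StMild : Prop := ∀ (K M : Type u) [Field K] [NumberField K] [Field M] [NumberField M]
  [Algebra K M] (p : ℕ), p.Prime → p ≠ 2 → Module.finrank ℚ K < p →
  ∀ (v₀ : HeightOneSpectrum (𝓞 K)) (q : ℕ), Mild K M p v₀ q → Prim K M p

/-- The descent (uses `StMu`, `StFix`, `StH90`, `StTr`, `StVU`, `StAL`).  Let `a` be as in `VA M p` and
suppose that it is not a `p`-th power in `M`.  Let `Q x` be: `x` is the image of some `x₀` in `𝓞 M`,
`x ≠ 0`, `ValP M p x` and `App M p x₀`.  `Q` is stable under products and under the Galois group (it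
permutes the places, and `p^N ∣ y^p - x₀` implies `p^N ∣ σ(y)^p - σ(x₀)`).  By `StFix` and `StH90` there
is `x'` with `Q x'`, not a `p`-th power, and `x' = b z^p`, `b` in `K`.  Multiply by `c^p` for a suitable
integer `c > 0`: `b c^p` is in `𝓞 K` and `c / z` in `𝓞 M`, so `b' = b c^p = x' (c/z)^p` satisfies
`App M p b'` and `ValP M p b'`.  By `StTr` `b'' = [M:K]^p b'` satisfies `App K p b''`, so
`LocPow K p 1 b''` by `StAL`.  Its valuations at the unramified places are divisible by `p` by `StVU`, so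
`ValP K p b''` by `Prim`.  By `VA K p` `b''` is a `p`-th power in `K`, so `x'` is one in `M`:
contradiction. -/
def StDesc : Prop := ∀ (K M : Type u) [Field K] [NumberField K] [Field M] [NumberField M]
  [Algebra K M] [IsGalois K M] (p j : ℕ), p.Prime → p ≠ 2 →
  Module.finrank K M = p ^ j → NR K p → NR M p → Prim K M p → VA K p → VA M p

/-- Intermediate fields.  Let `a` be as in `VA L p`.  Its image in `M` satisfies the hypotheses of
`VA M p` (`w(a) = e w'(a)`), so `a = z^p` with `z` in `M`.  For `σ` in `Gal(M/L)`, `(σ z / z)^p = 1`, so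
`σ z = z`; so `z` is in `L`. -/
def StSub : Prop := ∀ (L M : Type u) [Field L] [NumberField L] [Field M] [NumberField M]
  [Algebra L M] [IsGalois L M] (p : ℕ), p.Prime → NoMu M p → VA M p → VA L p

/-! ### D. no exceptional twists -/

/-- Known (`pr_Cl1` of `Bdx/B06.lean`): a class for the elements with valuations divisible by `q`. -/
def StClq : Prop := ∀ (K : Type u) [Field K] [NumberField K] (q : ℕ), q ≠ 0 →
  ∃ cl : K → ClassGroup (𝓞 K),
    (∀ α : K, α ≠ 0 → ValP K q α → cl α ^ q = 1) ∧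
    ∀ α α' : K, α ≠ 0 → α' ≠ 0 → ValP K q α → ValP K q α' → cl α = cl α' →
      ∃ (u : (𝓞 K)ˣ) (γ : K), γ ≠ 0 ∧ α = ((u : 𝓞 K) : K) * γ ^ q * α'

/-- The group `V` is trivial if `p` does not divide the class number and `LLeo K p 0` holds (uses
`StAL`, `StClq`).  Take `cl` from `StClq` for `q = p`: `cl a ^ p = 1` and `cl 1 ^ p = 1`, so
`cl a = 1 = cl 1` since `p` does not divide the order of the class group.  So `a = u γ^p`, and
`u = a γ^(-p)` is a local `p`-th power above `p`; so `u = w^p` (`LLeo`, `m = 1`). -/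
def StBase : Prop := ∀ (K : Type u) [Field K] [NumberField K] (p : ℕ), p.Prime → p ≠ 2 → NR K p →
  LLeo K p 0 → ¬ p ∣ classNumber K → VA K p

end Pool.Agent.Work.MP_59f3ad_nt.Pex
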