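import Mathlib
import Pool.Agent.Work.MP_59f3ad_nt.Pex.Stmts

/-!
# MP_59f3ad_nt Pex, item NRM: the condition `NR` in Galois extensions of `p`-power degree
-/

set_option autoImplicit false

open NumberField IsDedekindDomain

namespace Pool.Agent.Work.MP_59f3ad_nt.Pex

open Pool.Agent.Work.MP_59f3ad_nt.Tw

universe u

namespace IPxNRM

/-- the ramification index divides the degree -/
theorem ram_dvd (K M : Type u) [Field K] [NumberField K] [Field M] [NumberField M] [Algebra K M]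
    [IsGalois K M] (v : HeightOneSpectrum (𝓞 K)) (w : HeightOneSpectrum (𝓞 M))
    [w.asIdeal.LiesOver v.asIdeal] :
    v.asIdeal.ramificationIdx' w.asIdeal ∣ Module.finrank K M := by
  have h1 := Ideal.ncard_primesOver_mul_ramificationIdxIn_mul_inertiaDegIn v.asIdeal (𝓞 M)
    Gal(M/K)
  have h2 := Ideal.ramificationIdxIn_eq_ramificationIdx v.asIdeal w.asIdeal Gal(M/K)
  have h3 : v.asIdeal.ramificationIdx' w.asIdeal = w.asIdeal.ramificationIdx (𝓞 K) :=
    Ideal.ramificationIdx'_eq_ramificationIdx v.asIdeal w.asIdeal v.ne_bot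
  rw [IsGalois.card_aut_eq_finrank] at h1
  rw [h3, ← h2, ← h1]
  exact Dvd.intro ((v.asIdeal.primesOver (𝓞 M)).ncard * v.asIdeal.inertiaDegIn (𝓞 M)) (by ring)

end IPxNRM

open IPxNRM

theorem pr_NRM : StNRM.{u} := by
  intro K M _ _ _ _ _ _ p j hp hp2 hfin hNR w hw s hs
  have hne : w.asIdeal.under (𝓞 K) ≠ ⊥ := by
    intro h0
    have h1 : (p : 𝓞 K) ∈ w.asIdeal.under (𝓞 K) := by
      rw [Ideal.mem_comap, map_natCast]
      exact hw
    rw [h0, Ideal.mem_bot] at h1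
    have h2 : (p : 𝓞 K) ≠ 0 := by exact_mod_cast hp.ne_zero
    exact h2 h1
  let v : HeightOneSpectrum (𝓞 K) := ⟨w.asIdeal.under (𝓞 K), inferInstance, hne⟩
  have hover : w.asIdeal.LiesOver v.asIdeal := ⟨rfl⟩
  have hpv : (p : 𝓞 K) ∈ v.asIdeal := by
    show (p : 𝓞 K) ∈ w.asIdeal.under (𝓞 K)
    rw [Ideal.mem_comap, map_natCast]
    exact hw
  have he := ram_dvd K M v w
  rw [hfin] at he
  obtain ⟨i, -, hi⟩ := (Nat.dvd_prime_pow hp).1 he
  have hp1 : 2 < p := lt_of_le_of_ne hp.two_le (Ne.symm hp2)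
  have hcop : Nat.Coprime (p - 1) (p ^ i) := by
    refine Nat.Coprime.pow_right i (Nat.Coprime.symm ?_)
    exact (Nat.Prime.coprime_iff_not_dvd hp).2 (Nat.not_dvd_of_pos_of_lt (by omega) (by omega))
  have hval := HeightOneSpectrum.valuation_liesOver M v w (p : K)
  rw [map_natCast (algebraMap K M) p, hi] at hval
  rw [← hval] at hs
  have hpK : (p : K) ≠ 0 := by exact_mod_cast hp.ne_zero
  have hvp : v.valuation K (p : K) ≠ 0 := (Valuation.ne_zero_iff _).2 hpK
  have hlog := congrArg WithZero.log hs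
  rw [WithZero.log_pow, WithZero.log_pow, nsmul_eq_mul, nsmul_eq_mul] at hlog
  have hdvd : ((p - 1 : ℕ) : ℤ) ∣ WithZero.log (v.valuation K (p : K)) := by
    have h1 : ((p - 1 : ℕ) : ℤ) ∣ ((p ^ i : ℕ) : ℤ) * WithZero.log (v.valuation K (p : K)) :=
      Dvd.intro _ hlog
    exact (Int.isCoprime_iff_gcd_eq_one.2 (by exact_mod_cast hcop)).dvd_of_dvd_mul_left h1
  obtain ⟨c, hc⟩ := hdvd
  obtain ⟨s', hs'⟩ := v.valuation_surjective K (WithZero.exp c)
  refine hNR v hpv s' ?_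
  rw [hs', ← WithZero.exp_nsmul, nsmul_eq_mul, ← hc, WithZero.exp_log hvp]

end Pool.Agent.Work.MP_59f3ad_nt.Pex
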