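import Pool.Agent.Work.MP_59f3ad_nt.Pex.Stmts

/-!
# MP_59f3ad_nt Pex, item Nm: norms and congruences
-/

set_option autoImplicit false

open NumberField IsDedekindDomain

namespace Pool.Agent.Work.MP_59f3ad_nt.Pex

universe u

theorem IPxNm.cast_zero (k : ℕ) (n : Type) [Fintype n] [DecidableEq n] :
    ((k : ℕ) : Matrix n n (ZMod k)) = 0 := by
  have h : ((k : ZMod k) : ZMod k) = 0 := ZMod.natCast_self k
  have h1 : ((k : ℕ) : Matrix n n (ZMod k)) = Matrix.scalar n (k : ZMod k) :=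
    (map_natCast (Matrix.scalar n) k).symm
  rw [h1, h, map_zero]

theorem IPxNm.det (k : ℕ) (n : Type) [Fintype n] [DecidableEq n] (A B C : Matrix n n ℤ)
    (h : A = B + (k : Matrix n n ℤ) * C) : (k : ℤ) ∣ A.det - B.det := by
  rw [← ZMod.intCast_eq_intCast_iff_dvd_sub]
  have h1 : (Int.castRingHom (ZMod k)).mapMatrix A = (Int.castRingHom (ZMod k)).mapMatrix B := by
    rw [h, map_add, map_mul, map_natCast, IPxNm.cast_zero, zero_mul, add_zero]
  have h2 := congrArg Matrix.det h1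
  rw [← RingHom.map_det, ← RingHom.map_det] at h2
  exact h2.symm

theorem pr_Nm : StNm.{u} := by
  intro K _ _ k x y h
  classical
  obtain ⟨c, hc⟩ := h
  have hx : x = y + (k : 𝓞 K) * c := by
    rw [← hc]
    ring
  let n := Module.finrank ℤ (𝓞 K)
  let b : Module.Basis (Fin n) ℤ (𝓞 K) := Module.finBasis ℤ (𝓞 K)
  rw [Algebra.norm_eq_matrix_det b x, Algebra.norm_eq_matrix_det b y]
  refine IPxNm.det k (Fin n) _ _ (Algebra.leftMulMatrix b c) ?_
  rw [hx, map_add, map_mul, map_natCast]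

end Pool.Agent.Work.MP_59f3ad_nt.Pex
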