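import Pool.Agent.Work.MP_59f3ad_nt.Pex.Stmts

set_option autoImplicit false

/-!
# MP_59f3ad_nt Pex, item Phi: the main inequality
-/

open NumberField IsDedekindDomain

namespace Pool.Agent.Work.MP_59f3ad_nt.Pex

open Pool.Agent.Work.MP_59f3ad_nt.Tw

universe u

namespace IPxPhi

variable {M : Type u} [Field M] [NumberField M]

theorem nat_le (w : HeightOneSpectrum (𝓞 M)) (n : ℕ) : w.valuation M (n : M) ≤ 1 := by
  have h : w.valuation M (algebraMap (𝓞 M) M (n : 𝓞 M)) ≤ 1 := w.valuation_le_one _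
  rwa [map_natCast] at h

theorem p_lt (w : HeightOneSpectrum (𝓞 M)) (p : ℕ) (hp : (p : 𝓞 M) ∈ w.asIdeal) :
    w.valuation M (p : M) < 1 := by
  have h : w.valuation M (algebraMap (𝓞 M) M (p : 𝓞 M)) < 1 :=
    (w.valuation_lt_one_iff_mem (K := M) (p : 𝓞 M)).2 hp
  rwa [map_natCast] at h

theorem unit {p : ℕ} (hp : p.Prime) (hN : NR M p) (w : HeightOneSpectrum (𝓞 M))
    (hw : (p : 𝓞 M) ∈ w.asIdeal) (z : M) (hz : w.valuation M z = 1) :
    w.valuation M (z - 1) * w.valuation M (p : M) ≤ w.valuation M (z ^ p - 1) := by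
  set v := w.valuation M with hv
  obtain ⟨s, rfl⟩ : ∃ s, z = s + 1 := ⟨z - 1, by ring⟩
  rw [add_sub_cancel_right]
  by_cases hs0 : s = 0
  · rw [hs0, map_zero, zero_mul]
    exact zero_le
  have hvs0 : v s ≠ 0 := (Valuation.ne_zero_iff _).2 hs0
  have hs1 : v s ≤ 1 := by
    have e : s = (s + 1) - 1 := by ring
    rw [e]
    exact v.map_sub_le hz.le (by rw [map_one])
  have hexp := add_pow_prime_eq hp s (1 : M)
  set r : M := ∑ k ∈ Finset.Ioo 0 p, s ^ (k - 1) * ((p.choose k / p : ℕ) : M) with hr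
  have e1 : (s + 1) ^ p - 1 = s ^ p + p * s * r := by
    rw [hexp, one_pow, hr]
    simp only [one_pow, mul_one]
    ring
  rw [e1]
  have hpl : v (p : M) < 1 := p_lt w p hw
  have hp0 : v (p : M) ≠ 0 := (Valuation.ne_zero_iff _).2 (Nat.cast_ne_zero.2 hp.ne_zero)
  have hterm : ∀ k, v (s ^ (k - 1) * ((p.choose k / p : ℕ) : M)) ≤ v s ^ (k - 1) := fun k => by
    rw [map_mul, map_pow]
    exact mul_le_of_le_one_right' (nat_le w _)
  rcases hs1.lt_or_eq with hlt | heq
  · -- small
    have h1 : v r = 1 := by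
      have hmem : (1 : ℕ) ∈ Finset.Ioo 0 p := Finset.mem_Ioo.2 ⟨one_pos, hp.one_lt⟩
      have h2 : r = 1 + ∑ k ∈ (Finset.Ioo 0 p).erase 1,
          s ^ (k - 1) * ((p.choose k / p : ℕ) : M) := by
        rw [hr, ← Finset.add_sum_erase _ _ hmem]
        congr 1
        rw [Nat.sub_self, pow_zero, Nat.choose_one_right, Nat.div_self hp.pos, Nat.cast_one,
          mul_one]
      have h3 : v (∑ k ∈ (Finset.Ioo 0 p).erase 1,
          s ^ (k - 1) * ((p.choose k / p : ℕ) : M)) < v 1 := by
        rw [map_one]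
        refine Valuation.map_sum_lt _ one_ne_zero fun k hk => ?_
        have hk2 : k - 1 ≠ 0 := by
          have h3 := Finset.mem_erase.1 hk
          have h4 := Finset.mem_Ioo.1 h3.2
          have h5 := h3.1
          omega
        exact (hterm k).trans_lt (pow_lt_one₀ zero_le hlt hk2)
      rw [h2, v.map_add_eq_of_lt_left h3, map_one]
    have h6 : v (s ^ p) ≠ v ((p : M) * s * r) := by
      rw [map_pow, map_mul, map_mul, h1, mul_one, mul_comm]
      have e2 : v s ^ p = v s * v s ^ (p - 1) := by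
        rw [← pow_succ', Nat.sub_add_cancel hp.one_le]
      rw [e2]
      intro h
      exact hN w hw s (mul_left_cancel₀ hvs0 h)
    rw [v.map_add_of_distinct_val h6]
    refine le_max_of_le_right ?_
    rw [map_mul, map_mul, h1, mul_one, mul_comm]
  · -- unit
    have h1 : v ((p : M) * s * r) < v (s ^ p) := by
      rw [map_pow, heq, one_pow, map_mul, map_mul, heq, mul_one]
      refine lt_of_le_of_lt (mul_le_of_le_one_right' ?_) hpl
      refine v.map_sum_le fun k _ => (hterm k).trans ?_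
      rw [heq, one_pow]
    rw [v.map_add_eq_of_lt_left h1, map_pow, heq, one_pow, one_mul]
    exact hpl.le

end IPxPhi

open IPxPhi in
theorem pr_Phi : StPhi.{u} := by
  intro M _ _ p hp _ hN w hw x y hy hxy
  set v := w.valuation M with hv
  have hy0 : v y ≠ 0 := (Valuation.ne_zero_iff _).2 hy
  have hz : v (x / y) = 1 := by
    rw [map_div₀, hxy, div_self hy0]
  have h := unit hp hN w hw (x / y) hz
  have e1 : x - y = (x / y - 1) * y := by
    field_simp
  have e2 : x ^ p - y ^ p = ((x / y) ^ p - 1) * y ^ p := by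
    rw [div_pow]
    field_simp
  rw [e1, e2, map_mul, map_mul, map_pow]
  calc v (x / y - 1) * v y * v y ^ (p - 1) * v (p : M)
      = (v (x / y - 1) * v (p : M)) * (v y ^ (p - 1) * v y) := by
        ac_rfl
    _ = (v (x / y - 1) * v (p : M)) * v y ^ p := by
        rw [← pow_succ, Nat.sub_add_cancel hp.one_le]
    _ ≤ _ := mul_le_mul_left h _

end Pool.Agent.Work.MP_59f3ad_nt.Pex
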