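import Pool.Agent.Work.MP_59f3ad_nt.Pex.Stmts

/-!
# MP_59f3ad_nt Pex: item Sub
-/

set_option autoImplicit false

open NumberField IsDedekindDomain

namespace Pool.Agent.Work.MP_59f3ad_nt.Pex

open Pool.Agent.Work.MP_59f3ad_nt.Tw

universe u

namespace IPxSub

/-- the place below -/
theorem exists_under (L M : Type u) [Field L] [NumberField L] [Field M] [NumberField M]
    [Algebra L M] (w : HeightOneSpectrum (𝓞 M)) :
    ∃ v : HeightOneSpectrum (𝓞 L), w.asIdeal.LiesOver v.asIdeal := by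
  have h1 : w.asIdeal.under (𝓞 L) ≠ ⊥ := by
    intro h
    exact w.ne_bot (Ideal.eq_bot_of_comap_eq_bot h)
  have : w.asIdeal.IsPrime := w.isPrime
  exact ⟨⟨w.asIdeal.under (𝓞 L), Ideal.IsPrime.under _ _, h1⟩, ⟨rfl⟩⟩

end IPxSub

theorem pr_Sub : StSub.{u} := by
  intro L M _ _ _ _ _ _ p hp hmu hV a ha hval happ
  have hinj : Function.Injective (algebraMap (𝓞 L) (𝓞 M)) :=
    FaithfulSMul.algebraMap_injective (𝓞 L) (𝓞 M)
  have ha' : algebraMap (𝓞 L) (𝓞 M) a ≠ 0 := by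
    rw [Ne, map_eq_zero_iff _ hinj]
    exact ha
  have hcoe : ((algebraMap (𝓞 L) (𝓞 M) a : 𝓞 M) : M) = algebraMap L M (a : L) := rfl
  obtain ⟨z, hz⟩ := hV (algebraMap (𝓞 L) (𝓞 M) a) ha' (fun w => by
    obtain ⟨v, hv⟩ := IPxSub.exists_under L M w
    obtain ⟨y, hy⟩ := hval v
    refine ⟨algebraMap L M y, ?_⟩
    rw [hcoe, ← HeightOneSpectrum.valuation_liesOver M v w, ← HeightOneSpectrum.valuation_liesOver M v w,
      hy, ← pow_mul, ← pow_mul, mul_comm]) (fun N => by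
    obtain ⟨y, hy⟩ := happ N
    refine ⟨algebraMap (𝓞 L) (𝓞 M) y, ?_⟩
    have := map_dvd (algebraMap (𝓞 L) (𝓞 M)) hy
    simpa using this)
  rw [hcoe] at hz
  have haL : (a : L) ≠ 0 := fun h => ha (RingOfIntegers.ext h)
  have hz0 : z ≠ 0 := by
    rintro rfl
    rw [zero_pow hp.ne_zero] at hz
    exact haL ((map_eq_zero _).1 hz.symm)
  have hfix : ∀ σ : M ≃ₐ[L] M, σ z = z := by
    intro σ
    have h1 : (σ z / z) ^ p = 1 := by
      rw [div_pow, ← map_pow, hz, σ.commutes, div_self]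
      rw [Ne, map_eq_zero]
      exact haL
    have h2 := hmu _ h1
    rwa [div_eq_one_iff_eq hz0] at h2
  obtain ⟨y, hy⟩ := (IsGalois.mem_range_algebraMap_iff_fixed z).2 hfix
  refine ⟨y, ?_⟩
  apply (algebraMap L M).injective
  rw [map_pow, hy, hz]

end Pool.Agent.Work.MP_59f3ad_nt.Pex
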