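import Pool.Agent.Work.MP_59f3ad_nt.Pex.Stmts

/-!
# MP_59f3ad_nt Pex, item Tame: the exceptional place
-/

set_option autoImplicit false

open NumberField IsDedekindDomain

namespace Pool.Agent.Work.MP_59f3ad_nt.Pex

open Pool.Agent.Work.MP_59f3ad_nt.Tw

universe u

namespace IPxTame

/-- the condition in the group of units modulo `p ^ 2` -/
theorem unitsCase (p f k : ℕ) (hp : p.Prime) (hp2 : p ≠ 2) (hf1 : 1 ≤ f) (hf2 : f < p)
    (hk : ¬ p ∣ k) (Q C ρ E : (ZMod (p ^ 2))ˣ) (hE : E = 1 ∨ E = -1)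
    (h : ρ ^ p = E * Q ^ (f * k) * C ^ p) : Q ^ (p - 1) = 1 := by
  have htot : (p ^ 2).totient = p * (p - 1) := by
    rw [Nat.totient_prime_pow hp (by norm_num)]
    simp
  have hx : ∀ x : (ZMod (p ^ 2))ˣ, (x ^ p) ^ (p - 1) = 1 := by
    intro x
    rw [← pow_mul, ← htot]
    exact ZMod.pow_totient x
  have hev : Even (p - 1) := by
    have h1 := hp.eq_two_or_odd'
    rcases h1 with h1 | h1
    · exact absurd h1 hp2
    · obtain ⟨j, hj⟩ := h1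
      exact ⟨j, by omega⟩
  have hE1 : E ^ (p - 1) = 1 := by
    rcases hE with h1 | h1
    · rw [h1, one_pow]
    · rw [h1, hev.neg_one_pow]
  have h2 : (ρ ^ p) ^ (p - 1) = E ^ (p - 1) * (Q ^ (f * k)) ^ (p - 1) * (C ^ p) ^ (p - 1) := by
    rw [h, mul_pow, mul_pow]
  rw [hx, hx, hE1, one_mul, mul_one] at h2
  have h3 : (Q ^ (p - 1)) ^ (f * k) = 1 := by
    rw [← pow_mul, mul_comm, pow_mul, ← h2]
  have h4 : (Q ^ (p - 1)) ^ p = 1 := by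
    rw [← pow_mul, mul_comm, pow_mul]
    exact hx Q
  have h5 : orderOf (Q ^ (p - 1)) ∣ Nat.gcd p (f * k) :=
    Nat.dvd_gcd (orderOf_dvd_of_pow_eq_one h4) (orderOf_dvd_of_pow_eq_one h3)
  have h6 : Nat.gcd p (f * k) = 1 := by
    rw [← Nat.coprime_iff_gcd_eq_one, Nat.Prime.coprime_iff_not_dvd hp, hp.dvd_mul]
    rintro (h7 | h7)
    · exact absurd (Nat.le_of_dvd (by omega) h7) (by omega)
    · exact hk h7
  rw [h6, Nat.dvd_one, orderOf_eq_one_iff] at h5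
  exact h5

/-- integers -/
theorem core (p q f k c : ℕ) (hp : p.Prime) (hp2 : p ≠ 2) (hq : q.Prime) (hqp : q ≠ p)
    (hf1 : 1 ≤ f) (hf2 : f < p) (hc : 0 < c) (A : ℤ) (hA : A.natAbs = q ^ (f * k) * c ^ p)
    (hY : ∀ N : ℕ, ∃ Y : ℤ, (p : ℤ) ^ N ∣ Y ^ p - A) (hw : ¬ p ^ 2 ∣ q ^ (p - 1) - 1) : p ∣ k := by
  by_contra hk
  have hp0 : (p : ℤ) ≠ 0 := by exact_mod_cast hp.ne_zero
  obtain ⟨s, c', hc', hcs⟩ := Nat.exists_eq_pow_mul_and_not_dvd hc.ne' p hp.ne_one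
  obtain ⟨ε, hε, hAε⟩ : ∃ ε : ℤ, (ε = 1 ∨ ε = -1) ∧ A = ε * (A.natAbs : ℤ) := by
    rcases Int.natAbs_eq A with h | h
    · exact ⟨1, Or.inl rfl, by rw [one_mul]; exact h⟩
    · exact ⟨-1, Or.inr rfl, by rw [neg_one_mul]; exact h⟩
  have hA2 : A = (p : ℤ) ^ (s * p) * (ε * (q : ℤ) ^ (f * k) * (c' : ℤ) ^ p) := by
    rw [hAε, hA, hcs]
    push_cast
    ring
  obtain ⟨Y, hY⟩ := hY (s * p + 2)
  have h1 : (p : ℤ) ^ (s * p) ∣ Y ^ p := by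
    have h2 : (p : ℤ) ^ (s * p) ∣ Y ^ p - A := (pow_dvd_pow _ (Nat.le_add_right _ _)).trans hY
    have h3 : (p : ℤ) ^ (s * p) ∣ A := by
      rw [hA2]
      exact Dvd.intro _ rfl
    have h4 := dvd_add h2 h3
    rwa [sub_add_cancel] at h4
  rw [pow_mul, Int.pow_dvd_pow_iff hp.ne_zero] at h1
  obtain ⟨r, hr⟩ := h1
  have h5 : (p : ℤ) ^ 2 ∣ r ^ p - ε * (q : ℤ) ^ (f * k) * (c' : ℤ) ^ p := by
    have h6 : Y ^ p - A = (p : ℤ) ^ (s * p) * (r ^ p - ε * (q : ℤ) ^ (f * k) * (c' : ℤ) ^ p) := by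
      rw [hA2, hr]
      ring
    rw [h6, pow_add] at hY
    exact (mul_dvd_mul_iff_left (pow_ne_zero _ hp0)).1 hY
  -- units modulo `p ^ 2`
  have hqc : q.Coprime (p ^ 2) := Nat.Coprime.pow_right 2 ((Nat.coprime_primes hq hp).2 hqp)
  have hcc : c'.Coprime (p ^ 2) :=
    Nat.Coprime.pow_right 2 (Nat.coprime_comm.1 ((Nat.Prime.coprime_iff_not_dvd hp).2 hc'))
  set Q : (ZMod (p ^ 2))ˣ := ZMod.unitOfCoprime q hqc with hQ
  set C : (ZMod (p ^ 2))ˣ := ZMod.unitOfCoprime c' hcc with hC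
  obtain ⟨E, hE, hEε⟩ : ∃ E : (ZMod (p ^ 2))ˣ, (E = 1 ∨ E = -1) ∧
      (E : ZMod (p ^ 2)) = ((ε : ℤ) : ZMod (p ^ 2)) := by
    rcases hε with h | h
    · exact ⟨1, Or.inl rfl, by rw [h]; simp⟩
    · exact ⟨-1, Or.inr rfl, by rw [h]; simp⟩
  have h6 : ((r : ℤ) : ZMod (p ^ 2)) ^ p = ((E * Q ^ (f * k) * C ^ p : (ZMod (p ^ 2))ˣ) :
      ZMod (p ^ 2)) := by
    have h7 : (((p ^ 2 : ℕ) : ℤ)) ∣ r ^ p - ε * (q : ℤ) ^ (f * k) * (c' : ℤ) ^ p := by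
      push_cast
      exact h5
    have h8 := (ZMod.intCast_zmod_eq_zero_iff_dvd _ _).2 h7
    push_cast at h8
    rw [sub_eq_zero] at h8
    rw [h8, Units.val_mul, Units.val_mul, Units.val_pow_eq_pow_val, Units.val_pow_eq_pow_val,
      hEε, hQ, hC, ZMod.coe_unitOfCoprime, ZMod.coe_unitOfCoprime]
  have h7 : IsUnit (((r : ℤ) : ZMod (p ^ 2))) := by
    rw [← isUnit_pow_iff hp.ne_zero, h6]
    exact Units.isUnit _
  obtain ⟨ρ, hρ⟩ := h7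
  have h8 : ρ ^ p = E * Q ^ (f * k) * C ^ p := by
    apply Units.ext
    rw [← h6, ← hρ, Units.val_pow_eq_pow_val]
  have h9 := unitsCase p f k hp hp2 hf1 hf2 hk Q C ρ E hE h8
  apply hw
  have h10 : ((q : ZMod (p ^ 2))) ^ (p - 1) = 1 := by
    have := congrArg (fun x : (ZMod (p ^ 2))ˣ => (x : ZMod (p ^ 2))) h9
    simpa [hQ] using this
  rw [← ZMod.natCast_eq_zero_iff]
  rw [Nat.cast_sub (Nat.one_le_pow _ _ hq.pos)]
  push_cast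
  rw [h10, sub_self]

end IPxTame

theorem pr_Tame (h1 : StNm.{u}) (h2 : StNI.{u}) : StTame.{u} := by
  intro K _ _ p q hp hp2 hfr hq hqp hw v₀ hv₀ a ha hval happ
  obtain ⟨f, k, c, hf1, hf2, hc, hn, himp⟩ := h2 K p q hp hq v₀ hv₀ a ha hval
  apply himp
  refine IPxTame.core p q f k c hp hp2 hq hqp hf1 (lt_of_le_of_lt hf2 hfr) hc
    (Algebra.norm ℤ a) hn ?_ hw
  intro N
  obtain ⟨y, hy⟩ := happ N
  refine ⟨Algebra.norm ℤ y, ?_⟩
  have h3 := h1 K (p ^ N) (y ^ p) a (by push_cast; exact hy)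
  rw [map_pow] at h3
  push_cast at h3
  exact h3

end Pool.Agent.Work.MP_59f3ad_nt.Pex
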