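import Pool.Agent.Work.MP_59f3ad_nt.Pex.Stmts

set_option autoImplicit false

/-!
# MP_59f3ad_nt Pex, item Tr: descent of the approximation by the trace
-/

open NumberField IsDedekindDomain

namespace Pool.Agent.Work.MP_59f3ad_nt.Pex

open Pool.Agent.Work.MP_59f3ad_nt.Tw

universe u

namespace IPxTr

section

variable {M : Type u} [Field M] [NumberField M]

theorem val_le (w : HeightOneSpectrum (𝓞 M)) (x : 𝓞 M) : w.valuation M (x : M) ≤ 1 :=
  w.valuation_le_one x

theorem p_lt (w : HeightOneSpectrum (𝓞 M)) (p : ℕ) (hp : (p : 𝓞 M) ∈ w.asIdeal) :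
    w.valuation M (p : M) < 1 := by
  have h : w.valuation M (algebraMap (𝓞 M) M (p : 𝓞 M)) < 1 :=
    (w.valuation_lt_one_iff_mem (K := M) (p : 𝓞 M)).2 hp
  rwa [map_natCast] at h

theorem val_one (w : HeightOneSpectrum (𝓞 M)) (n : ℕ) (hn : (n : 𝓞 M) ∉ w.asIdeal) :
    w.valuation M (n : M) = 1 := by
  have h : w.valuation M (algebraMap (𝓞 M) M (n : 𝓞 M)) = 1 :=
    (w.valuation_eq_one_iff_notMem (K := M)).2 hn
  rwa [map_natCast] at h

theorem val_dvd (w : HeightOneSpectrum (𝓞 M)) (p N : ℕ) (x : 𝓞 M) (h : (p : 𝓞 M) ^ N ∣ x) :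
    w.valuation M (x : M) ≤ w.valuation M (p : M) ^ N := by
  obtain ⟨t, rfl⟩ := h
  have e : (((p : 𝓞 M) ^ N * t : 𝓞 M) : M) = (p : M) ^ N * (t : M) := by
    push_cast
    rfl
  rw [e, map_mul, map_pow]
  exact mul_le_of_le_one_right' (val_le w t)

theorem dvd_of (p : ℕ) (hp : p.Prime) (x : 𝓞 M) (N : ℕ)
    (h : ∀ w : HeightOneSpectrum (𝓞 M), (p : 𝓞 M) ∈ w.asIdeal →
      w.valuation M (x : M) ≤ w.valuation M (p : M) ^ N) : (p : 𝓞 M) ^ N ∣ x := by
  have hp0 : (p : M) ≠ 0 := Nat.cast_ne_zero.2 hp.ne_zero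
  have h1 : ∀ w : HeightOneSpectrum (𝓞 M), w.valuation M ((x : M) / (p : M) ^ N) ≤ 1 := by
    intro w
    rw [map_div₀, map_pow]
    have hne : w.valuation M (p : M) ^ N ≠ 0 :=
      pow_ne_zero _ ((Valuation.ne_zero_iff _).2 hp0)
    by_cases hw : (p : 𝓞 M) ∈ w.asIdeal
    · exact div_le_one_of_le₀ (h w hw) zero_le
    · rw [val_one w p hw, one_pow, div_one]
      exact val_le w x
  obtain ⟨t, ht⟩ := HeightOneSpectrum.mem_integers_of_valuation_le_one M _ h1
  refine ⟨t, ?_⟩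
  apply RingOfIntegers.ext
  have e : (((p : 𝓞 M) ^ N * t : 𝓞 M) : M) = (p : M) ^ N * (t : M) := by
    push_cast
    rfl
  rw [e]
  have ht' : (t : M) = (x : M) / (p : M) ^ N := ht
  rw [ht', mul_div_cancel₀ _ (pow_ne_zero _ hp0)]

/-- bound of the valuations above `p` -/
theorem bound (p : ℕ) (hp : p.Prime) (a : 𝓞 M) (ha : a ≠ 0) :
    ∃ C : ℕ, ∀ w : HeightOneSpectrum (𝓞 M), (p : 𝓞 M) ∈ w.asIdeal →
      w.valuation M (p : M) ^ C ≤ w.valuation M (a : M) := by
  set n : ℕ := Ideal.absNorm (Ideal.span {a}) with hn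
  have hn0 : n ≠ 0 := by
    rw [hn, Ne, Ideal.absNorm_eq_zero_iff, Ideal.span_singleton_eq_bot]
    exact ha
  have hmem : (n : 𝓞 M) ∈ Ideal.span {a} := Ideal.absNorm_mem _
  obtain ⟨b, hb⟩ := Ideal.mem_span_singleton.1 hmem
  obtain ⟨C, m, hm, hnm⟩ := Nat.exists_eq_pow_mul_and_not_dvd hn0 p hp.ne_one
  refine ⟨C, fun w hw => ?_⟩
  have hmw : (m : 𝓞 M) ∉ w.asIdeal := by
    intro hm2
    have hco : IsCoprime (p : ℤ) (m : ℤ) :=
      Nat.isCoprime_iff_coprime.2 ((Nat.Prime.coprime_iff_not_dvd hp).2 hm)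
    obtain ⟨r, s, hrs⟩ := hco
    have h1 : (1 : 𝓞 M) ∈ w.asIdeal := by
      have h2 : (r : 𝓞 M) * (p : 𝓞 M) + (s : 𝓞 M) * (m : 𝓞 M) = 1 := by
        exact_mod_cast congrArg (Int.cast : ℤ → 𝓞 M) hrs
      rw [← h2]
      exact w.asIdeal.add_mem (w.asIdeal.mul_mem_left _ hw) (w.asIdeal.mul_mem_left _ hm2)
    exact w.isPrime.ne_top ((Ideal.eq_top_iff_one _).2 h1)
  have h3 : w.valuation M (n : M) = w.valuation M (p : M) ^ C := by
    rw [hnm, Nat.cast_mul, Nat.cast_pow, map_mul, map_pow, val_one w m hmw, mul_one]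
  have h4 : (n : M) = (a : M) * (b : M) := by
    have := congrArg (algebraMap (𝓞 M) M) hb
    rwa [map_natCast, map_mul] at this
  rw [← h3, h4, map_mul]
  exact mul_le_of_le_one_right' (val_le w b)

end

section

variable {K M : Type u} [Field K] [NumberField K] [Field M] [NumberField M] [Algebra K M]

theorem descend (p : ℕ) (hp : p.Prime) (N : ℕ) (x : 𝓞 K)
    (h : (p : 𝓞 M) ^ N ∣ algebraMap (𝓞 K) (𝓞 M) x) : (p : 𝓞 K) ^ N ∣ x := by
  obtain ⟨t, ht⟩ := h
  have hp0 : (p : K) ≠ 0 := Nat.cast_ne_zero.2 hp.ne_zero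
  have hpM : (p : M) ≠ 0 := Nat.cast_ne_zero.2 hp.ne_zero
  have h1 : algebraMap K M (x : K) = (p : M) ^ N * (t : M) := by
    have := congrArg (algebraMap (𝓞 M) M) ht
    rw [map_mul, map_pow, map_natCast] at this
    rw [← this]
    rfl
  have h2 : algebraMap K M ((x : K) / (p : K) ^ N) = (t : M) := by
    rw [map_div₀, map_pow, map_natCast, h1, mul_div_cancel_left₀ _ (pow_ne_zero _ hpM)]
  have h3 : IsIntegral ℤ ((x : K) / (p : K) ^ N) := by
    rw [← isIntegral_algebraMap_iff (algebraMap K M).injective, h2]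
    exact t.isIntegral_coe
  obtain ⟨z, hz⟩ : ∃ z : 𝓞 K, (z : K) = (x : K) / (p : K) ^ N := ⟨⟨_, h3⟩, rfl⟩
  refine ⟨z, RingOfIntegers.ext ?_⟩
  have e : (((p : 𝓞 K) ^ N * z : 𝓞 K) : K) = (p : K) ^ N * (z : K) := by
    push_cast
    rfl
  rw [e, hz, mul_div_cancel₀ _ (pow_ne_zero _ hp0)]

end

end IPxTr

open IPxTr in
theorem pr_Tr (h1 : StPhi.{u}) : StTr.{u} := by
  intro K M _ _ _ _ _ _ p hp hp2 hN a ha hA N
  have ha' : algebraMap (𝓞 K) (𝓞 M) a ≠ 0 := by
    rw [Ne, map_eq_zero_iff _ (FaithfulSMul.algebraMap_injective (𝓞 K) (𝓞 M))]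
    exact ha
  obtain ⟨C, hC⟩ := bound p hp _ ha'
  obtain ⟨y, hy⟩ := hA (N + 1 + C)
  set a' : 𝓞 M := algebraMap (𝓞 K) (𝓞 M) a with ha'def
  -- conjugates
  let s : (M ≃ₐ[K] M) → 𝓞 M := fun σ => RingOfIntegers.mapRingHom σ y
  have hs : ∀ σ, (s σ : M) = σ (y : M) := fun σ => rfl
  have hsd : ∀ σ, (p : 𝓞 M) ^ (N + 1 + C) ∣ s σ ^ p - a' := by
    intro σ
    obtain ⟨t, ht⟩ := hy
    refine ⟨RingOfIntegers.mapRingHom σ t, ?_⟩
    have h2 := congrArg (RingOfIntegers.mapRingHom (K := M) (L := M) σ) ht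
    rw [map_sub, map_pow, map_mul, map_pow, map_natCast] at h2
    have h3 : RingOfIntegers.mapRingHom (K := M) (L := M) σ a' = a' := by
      apply RingOfIntegers.ext
      change σ (algebraMap K M (a : K)) = algebraMap K M (a : K)
      exact σ.commutes _
    rw [h3] at h2
    exact h2
  have hval : ∀ w : HeightOneSpectrum (𝓞 M), (p : 𝓞 M) ∈ w.asIdeal → ∀ z : 𝓞 M,
      (p : 𝓞 M) ^ (N + 1 + C) ∣ z ^ p - a' → w.valuation M (z : M) ^ p = w.valuation M (a' : M) := by
    intro w hw z hz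
    have h2 := val_dvd w p _ _ hz
    have h3 : w.valuation M (p : M) ^ (N + 1 + C) < w.valuation M (a' : M) := by
      refine lt_of_lt_of_le ?_ (hC w hw)
      exact pow_lt_pow_right_of_lt_one₀ (zero_lt_iff.2 ((Valuation.ne_zero_iff _).2
        (Nat.cast_ne_zero.2 hp.ne_zero))) (p_lt w p hw) (by omega)
    have e : (z : M) ^ p = (a' : M) + ((z ^ p - a' : 𝓞 M) : M) := by
      push_cast
      ring
    rw [← map_pow, e]
    exact Valuation.map_add_eq_of_lt_left _ (h2.trans_lt h3)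
  have hdiff : ∀ σ, (p : 𝓞 M) ^ N ∣ s σ - y := by
    intro σ
    refine dvd_of p hp _ N fun w hw => ?_
    have hvp : w.valuation M (p : M) ≠ 0 :=
      (Valuation.ne_zero_iff _).2 (Nat.cast_ne_zero.2 hp.ne_zero)
    have e1 := hval w hw y hy
    have e2 := hval w hw (s σ) (hsd σ)
    have e3 : w.valuation M (s σ : M) = w.valuation M (y : M) :=
      (pow_left_inj₀ zero_le zero_le hp.ne_zero).1 (e2.trans e1.symm)
    have hva : w.valuation M (a' : M) ≠ 0 := fun h => by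
      have := hC w hw
      rw [h] at this
      exact pow_ne_zero _ hvp (le_antisymm this zero_le)
    have hy0 : (y : M) ≠ 0 := by
      intro h
      rw [h, map_zero, zero_pow hp.ne_zero] at e1
      exact hva e1.symm
    have h4 := h1 M p hp hp2 hN w hw (s σ : M) (y : M) hy0 e3
    have h5 : w.valuation M ((s σ : M) ^ p - (y : M) ^ p) ≤
        w.valuation M (p : M) ^ (N + 1 + C) := by
      have h6 : (p : 𝓞 M) ^ (N + 1 + C) ∣ s σ ^ p - y ^ p := by
        have := dvd_sub (hsd σ) hy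
        rwa [sub_sub_sub_cancel_right] at this
      have h7 := val_dvd w p _ _ h6
      have e : ((s σ ^ p - y ^ p : 𝓞 M) : M) = (s σ : M) ^ p - (y : M) ^ p := by
        push_cast
        rfl
      rwa [e] at h7
    have h8 : w.valuation M (p : M) ^ C ≤ w.valuation M (y : M) ^ (p - 1) := by
      calc w.valuation M (p : M) ^ C ≤ w.valuation M (a' : M) := hC w hw
        _ = w.valuation M (y : M) ^ p := e1.symm
        _ ≤ w.valuation M (y : M) ^ (p - 1) :=
            pow_le_pow_right_of_le_one' (val_le w y) (Nat.sub_le _ _)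
    have h9 : w.valuation M ((s σ : M) - (y : M)) * w.valuation M (p : M) ^ (C + 1) ≤
        w.valuation M (p : M) ^ N * w.valuation M (p : M) ^ (C + 1) := by
      calc w.valuation M ((s σ : M) - (y : M)) * w.valuation M (p : M) ^ (C + 1)
          = w.valuation M ((s σ : M) - (y : M)) * w.valuation M (p : M) ^ C *
              w.valuation M (p : M) := by rw [pow_succ, mul_assoc]
        _ ≤ w.valuation M ((s σ : M) - (y : M)) * w.valuation M (y : M) ^ (p - 1) *
              w.valuation M (p : M) := by gcongr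
        _ ≤ w.valuation M ((s σ : M) ^ p - (y : M) ^ p) := h4
        _ ≤ w.valuation M (p : M) ^ (N + 1 + C) := h5
        _ = w.valuation M (p : M) ^ N * w.valuation M (p : M) ^ (C + 1) := by
            rw [← pow_add]
            congr 1
            omega
    have h10 : w.valuation M ((s σ : M) - (y : M)) ≤ w.valuation M (p : M) ^ N :=
      le_of_mul_le_mul_right h9 (zero_lt_iff.2 (pow_ne_zero _ hvp))
    have e : ((s σ - y : 𝓞 M) : M) = (s σ : M) - (y : M) := by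
      push_cast
      rfl
    rwa [e]
  -- the trace
  have hint : IsIntegral ℤ (Algebra.trace K M (y : M)) :=
    Algebra.isIntegral_trace y.isIntegral_coe
  let b : 𝓞 K := ⟨Algebra.trace K M (y : M), hint⟩
  have hb : algebraMap (𝓞 K) (𝓞 M) b = ∑ σ, s σ := by
    apply RingOfIntegers.ext
    have e : ((∑ σ, s σ : 𝓞 M) : M) = ∑ σ, (s σ : M) := map_sum (algebraMap (𝓞 M) M) _ _
    rw [e]
    change algebraMap K M (Algebra.trace K M (y : M)) = ∑ σ : M ≃ₐ[K] M, σ (y : M)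
    exact trace_eq_sum_automorphisms (y : M)
  have hcard : Fintype.card (M ≃ₐ[K] M) = Module.finrank K M := by
    rw [← Nat.card_eq_fintype_card]
    exact IsGalois.card_aut_eq_finrank K M
  refine ⟨b, descend (M := M) p hp N _ ?_⟩
  have h11 : (p : 𝓞 M) ^ N ∣ ∑ σ, s σ - (Module.finrank K M : 𝓞 M) * y := by
    have h12 : ∑ σ, s σ - (Module.finrank K M : 𝓞 M) * y = ∑ σ, (s σ - y) := by
      rw [Finset.sum_sub_distrib, Finset.sum_const, Finset.card_univ, hcard, nsmul_eq_mul]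
    rw [h12]
    exact Finset.dvd_sum fun σ _ => hdiff σ
  have h13 : algebraMap (𝓞 K) (𝓞 M) (b ^ p - (Module.finrank K M : 𝓞 K) ^ p * a) =
      ((∑ σ, s σ) ^ p - ((Module.finrank K M : 𝓞 M) * y) ^ p) +
        (Module.finrank K M : 𝓞 M) ^ p * (y ^ p - a') := by
    rw [map_sub, map_pow, hb, map_mul, map_pow, map_natCast, mul_pow]
    ring
  rw [h13]
  refine dvd_add (h11.trans (sub_dvd_pow_sub_pow _ _ _)) (Dvd.dvd.mul_left ?_ _)
  exact (pow_dvd_pow _ (by omega)).trans hy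

end Pool.Agent.Work.MP_59f3ad_nt.Pex
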