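import Pool.Agent.Work.MP_59f3ad_nt.Pex.Stmts

/-!
# Block Pex, item VP (helper72): places above p
-/

set_option autoImplicit false

open NumberField IsDedekindDomain

namespace Pool.Agent.Work.MP_59f3ad_nt.Pex

universe u

theorem pr_VP : StVP.{u} := by
  intro K _ _ p _ a ha hA v hv
  have hp1 : v.valuation K ((p : 𝓞 K) : K) < 1 := (v.valuation_lt_one_iff_mem (p : 𝓞 K)).2 hv
  have ha0 : v.valuation K (a : K) ≠ 0 := by
    rw [Ne, map_eq_zero]
    intro h
    exact ha (RingOfIntegers.ext h)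
  obtain ⟨N, hN⟩ := exists_pow_lt₀ hp1 (Units.mk0 _ ha0)
  rw [Units.val_mk0] at hN
  obtain ⟨y, c, hc⟩ := hA N
  refine ⟨(y : K), ?_⟩
  have h1 : ((y : K)) ^ p - (a : K) = ((p : 𝓞 K) : K) ^ N * (c : K) := by
    have h2 := congrArg (algebraMap (𝓞 K) K) hc
    simpa only [map_sub, map_pow, map_mul] using h2
  have h3 : v.valuation K ((y : K) ^ p - (a : K)) < v.valuation K (a : K) := by
    rw [h1, map_mul, map_pow]
    calc v.valuation K ((p : 𝓞 K) : K) ^ N * v.valuation K (c : K)
        ≤ v.valuation K ((p : 𝓞 K) : K) ^ N * 1 := by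
          gcongr
          exact v.valuation_le_one c
      _ = v.valuation K ((p : 𝓞 K) : K) ^ N := mul_one _
      _ < v.valuation K (a : K) := hN
  rw [← map_pow]
  exact (Valuation.map_eq_of_sub_lt _ h3).symm

end Pool.Agent.Work.MP_59f3ad_nt.Pex
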