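import Pool.Agent.Work.MP_59f3ad_nt.Pex.Stmts

/-!
# MP_59f3ad_nt Pex, item VU: unramified places
-/

set_option autoImplicit false

open NumberField IsDedekindDomain

namespace Pool.Agent.Work.MP_59f3ad_nt.Pex

universe u

namespace IPxVU

/-- a place above `v` -/
lemma exists_above (K M : Type u) [Field K] [NumberField K] [Field M] [NumberField M]
    [Algebra K M] (v : HeightOneSpectrum (𝓞 K)) :
    ∃ w : HeightOneSpectrum (𝓞 M), w.asIdeal.LiesOver v.asIdeal := by
  have hker : RingHom.ker (algebraMap (𝓞 K) (𝓞 M)) ≤ v.asIdeal := by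
    intro x hx
    rw [RingHom.mem_ker] at hx
    have : x = 0 := (FaithfulSMul.algebraMap_injective (𝓞 K) (𝓞 M)) (by rw [hx, map_zero])
    rw [this]
    exact Ideal.zero_mem _
  have hmax : v.asIdeal.IsMaximal := v.isMaximal
  obtain ⟨Q, hQ, hQc⟩ := Ideal.exists_ideal_over_maximal_of_isIntegral (S := 𝓞 M) v.asIdeal hker
  have hlo : Q.LiesOver v.asIdeal := ⟨hQc.symm⟩
  exact ⟨⟨Q, hQ.isPrime, Ideal.ne_bot_of_liesOver_of_ne_bot v.ne_bot Q⟩, hlo⟩

end IPxVU

theorem pr_VU : StVU.{u} := by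
  intro K M _ _ _ _ _ q v hv a ha
  obtain ⟨w, hw⟩ := IPxVU.exists_above K M v
  have he : Ideal.ramificationIdx w.asIdeal (𝓞 K) = 1 := hv.ramificationIdx_eq_one hw
  have he' : v.asIdeal.ramificationIdx' w.asIdeal = 1 := by
    rw [Ideal.ramificationIdx'_eq_ramificationIdx v.asIdeal w.asIdeal v.ne_bot, he]
  obtain ⟨y, hy⟩ := ha w
  obtain ⟨z, hz⟩ := v.valuation_surjective K (w.valuation M y)
  refine ⟨z, ?_⟩
  have h1 := HeightOneSpectrum.valuation_liesOver M v w a
  rw [he', pow_one] at h1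
  rw [h1, hy, hz]

end Pool.Agent.Work.MP_59f3ad_nt.Pex
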