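import Mathlib
import Pool.Agent.Work.MP_59f3ad_nt.Bdx.B06
import Pool.Agent.Work.MP_59f3ad_nt.Bdx.B07
import Pool.Agent.Work.MP_59f3ad_nt.Tw.NVA
import Pool.Agent.Work.MP_59f3ad_nt.Tw.ClsG
import Pool.Agent.Work.MP_59f3ad_nt.Cod.Ord
import Pool.Agent.Work.MP_59f3ad_nt.Cod.Res
import Pool.Agent.Work.MP_59f3ad_nt.Cod.SZ

/-!
# MP_59f3ad_nt Pex: the good primes of almost all members of an arbitrary family

The proof is the one of `stSeven`; only the last lines are different.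
-/

set_option autoImplicit false

open NumberField IsDedekindDomain Polynomial

namespace Pool.Agent.Work.MP_59f3ad_nt.Pex

open Pool.Agent.Work.MP_59f3ad_nt Pool.Agent.Work.MP_59f3ad_nt.Tw Pool.Agent.Work.MP_59f3ad_nt.Cod

universe u

/-- the data of a good prime -/
def GoodP (K : Type u) [Field K] [NumberField K] (p : ℕ) : Prop :=
  LLeo K p 0 ∧ ¬ p ∣ classNumber K ∧ Module.finrank ℚ K + 1 < p

open CoreX in
/-- the data of a good prime, as in `none_core` -/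
theorem good_p (hLL : StLL1.{u}) (hTex : StTex1.{u}) (hRed : StRed.{u})
    (K : Type u) [Field K] [NumberField K] (p : ℕ)
    [hpf : Fact p.Prime] (hd : Module.finrank ℚ K + 1 < p) (f : ℤ[X]) (hf : f.Monic)
    (hirr : Irreducible f) (hsep : (f.map (red p)).Separable) (y : 𝓞 K)
    (hfin : Module.finrank ℚ K = f.natDegree) (hy : aeval y f = 0) (n : ℕ)
    (hrank : Units.rank K = n) (w : Fin n → (𝓞 K)ˣ) (hw : PInd K p w 1)
    (hh : ¬ p ∣ classNumber K) : GoodP K p := by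
  have hp : p.Prime := hpf.out
  obtain ⟨T, hT0, hTp, hT⟩ := hTex K p hp (hRed p f hf hirr hsep K y hfin hy)
  exact ⟨hLL K p hp (no_torsion K p hp hd) n w hw hrank T hT0 hTp hT, hh, hd⟩

/-- The theorem on arbitrary families, with the arithmetic data of the good primes. -/
def StSevenB : Prop := ∀ (m : ℕ) (F : (MvPolynomial (Fin (m + 1)) ℤ)[X]), F.Monic → ∀ (n : ℕ)
  (u : Fin n → (AdjoinRoot F)ˣ),
  (∀ E : Fin n → ℤ, E ≠ 0 →
    Transcendental ℤ ((∏ i, u i ^ E i : (AdjoinRoot F)ˣ) : AdjoinRoot F)) →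
  ∃ A : ℕ, ∀ H : ℕ, 2 ≤ H → ∃ Bad : Set (Fin (m + 1) → ℤ),
    ({t : Fin (m + 1) → ℤ | (∀ i, |t i| ≤ H) ∧ t ∈ Bad}.ncard : ℝ) ≤
      A * (H : ℝ) ^ (m + 1) / Real.log H ∧
    ∀ t : Fin (m + 1) → ℤ, (∀ i, |t i| ≤ H) → t ∉ Bad →
      Irreducible (F.map (MvPolynomial.eval t)) →
      ∀ (K : Type u) [Field K] [NumberField K] (x : K),
        aeval x (F.map (MvPolynomial.eval t)) = 0 → Module.finrank ℚ K = F.natDegree →
        Units.rank K = n →
        (∀ (p : ℕ) [Fact p.Prime], p ^ 2 ≤ H → (∀ ζ : K, ζ ^ p = 1 → ζ = 1) →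
          ∀ S : Set (HeightOneSpectrum (𝓞 K)),
          (∀ v : HeightOneSpectrum (𝓞 K), (p : 𝓞 K) ∈ v.asIdeal → v ∈ S) →
          GoodB K p S (A * H ^ A)) ∧
        ∃ P : Finset ℕ, (P.card : ℝ) ≤ A * (Real.log H) ^ 2 ∧
          ∀ (p : ℕ) [Fact p.Prime], p ^ 2 ≤ H → p ∉ P → GoodP K p

open SixX CoreX in
theorem stSevenB (hThree : StThree.{u}) (hPrime : StPrimeG.{u}) (hMk : StMk1) (hRootG : StRootG)
    (hTwo1 : StTwo1.{u}) (hLL : StLL.{u}) (hLL1 : StLL1.{u})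
    (hTex : StTex.{u}) (hTex1 : StTex1.{u}) (hRed : StRed.{u}) (hIdx : StIdx.{u})
    (hHcl : StHcl.{u}) (hSig : StSig.{u}) (hZp : StZp) : StSevenB.{u} := by
  classical
  intro m F hF n u hu
  have hcard : Fintype.card (Fin (m + 1)) = m + 1 := Fintype.card_fin _
  obtain ⟨Bad0, C0, -, hD, hGood⟩ := hThree m F hF n u hu
  obtain ⟨C5, p0, hP1⟩ := hPrime (Fin (m + 1)) F hF 0 n u hu
  let Bad2 : ℕ → Set (Fin (m + 1) → ℤ) := fun p =>
    {t | Irreducible (F.map (MvPolynomial.eval t)) ∧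
      (¬ ((F.map (MvPolynomial.eval t)).map (red p)).Separable ∨ ¬ NBG.{u} F p n t)}
  obtain ⟨C6, hC6⟩ := hMk (Fin (m + 1)) C5 p0
  have hMk' := fun (H : ℕ) (hH : 2 ≤ H) => hC6 Bad2 H hH (fun p hp hpp hpH => by
    haveI := Fact.mk hp
    exact hP1 p hpp H hpH)
  rw [hcard] at hMk'
  obtain ⟨Cr, hCr⟩ := hRootG (Fin (m + 1)) F hF
  obtain ⟨Cg, hCg⟩ := good_core.{u} hTwo1 hLL hTex hIdx hHcl F.natDegree n 0 Cr
  have hbox := fun H => BoundX.box_finite (Fin (m + 1)) H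
  let Bad3 : ℕ → Set (Fin (m + 1) → ℤ) := fun H => {t | ∃ p : ℕ, p.Prime ∧ p ^ 2 ≤ H ∧
      t ∈ Bad0 H p}
  let Bad4 : ℕ → Set (Fin (m + 1) → ℤ) := fun H => {t | (Real.log H) ^ 2 <
    ({p : ℕ | p.Prime ∧ p0 < p ∧ p ^ 2 ≤ H ∧ t ∈ Bad2 p}.ncard : ℝ)}
  refine ⟨C0 + C6 + (3 * (p0 + F.natDegree + 3) + 5 * Cg + 1), fun H hH =>
    ⟨Bad3 H ∪ Bad4 H, ?_, ?_⟩⟩
  · have hH1 : (1 : ℝ) ≤ H := by exact_mod_cast (by omega : 1 ≤ H)
    have hL : (0 : ℝ) < Real.log H := Real.log_pos (by exact_mod_cast hH)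
    have h1 : {t : Fin (m + 1) → ℤ | (∀ i, |t i| ≤ H) ∧ t ∈ (Bad3 H ∪ Bad4 H)} ⊆
        ({t : Fin (m + 1) → ℤ | (∀ i, |t i| ≤ H) ∧ ∃ p : ℕ, p.Prime ∧ p ^ 2 ≤ H ∧
          t ∈ Bad0 H p} ∪ {t : Fin (m + 1) → ℤ | (∀ i, |t i| ≤ H) ∧ (Real.log H) ^ 2 <
          ({p : ℕ | p.Prime ∧ p0 < p ∧ p ^ 2 ≤ H ∧ t ∈ Bad2 p}.ncard : ℝ)}) := by
      rintro t ⟨ht, ht' | ht'⟩
      · exact Or.inl ⟨ht, ht'⟩
      · exact Or.inr ⟨ht, ht'⟩
    have h2 := ((Set.ncard_le_ncard h1 (((hbox H).subset fun t ht => ht.1).union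
      ((hbox H).subset fun t ht => ht.1)))).trans (Set.ncard_union_le _ _)
    have h3 : (({t : Fin (m + 1) → ℤ | (∀ i, |t i| ≤ H) ∧ t ∈
        (Bad3 H ∪ Bad4 H)}.ncard : ℕ) : ℝ) ≤
        (({t : Fin (m + 1) → ℤ | (∀ i, |t i| ≤ H) ∧ ∃ p : ℕ, p.Prime ∧ p ^ 2 ≤ H ∧
          t ∈ Bad0 H p}.ncard : ℝ) + ({t : Fin (m + 1) → ℤ | (∀ i, |t i| ≤ H) ∧
          (Real.log H) ^ 2 <
          ({p : ℕ | p.Prime ∧ p0 < p ∧ p ^ 2 ≤ H ∧ t ∈ Bad2 p}.ncard : ℝ)}.ncard : ℝ)) := by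
      exact_mod_cast h2
    have h7 : (0 : ℝ) ≤ (3 * (p0 + F.natDegree + 3) + 5 * Cg + 1) * (H : ℝ) ^ (m + 1) /
        Real.log H := by positivity
    calc _ ≤ _ := h3
      _ ≤ (C0 * (H : ℝ) ^ (m + 1) / Real.log H +
          C6 * (H : ℝ) ^ (m + 1) / Real.log H) := add_le_add (hD H hH) (hMk' H hH)
      _ ≤ (C0 * (H : ℝ) ^ (m + 1) / Real.log H +
          C6 * (H : ℝ) ^ (m + 1) / Real.log H) +
          (3 * (p0 + F.natDegree + 3) + 5 * Cg + 1) * (H : ℝ) ^ (m + 1) /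
        Real.log H := le_add_of_nonneg_right h7
      _ = _ := by push_cast; ring
  intro t htH ht hirr K _ _ x hx hK hrank
  rw [Set.mem_union, not_or] at ht
  obtain ⟨ht3, ht4⟩ := ht
  set f : ℤ[X] := F.map (MvPolynomial.eval t) with hf
  have hfm : f.Monic := hF.map _
  have hfd : f.natDegree = F.natDegree := hF.natDegree_map _
  have hxint : IsIntegral ℤ x := ⟨f, hfm, hx⟩
  obtain ⟨y, hy⟩ : ∃ y : 𝓞 K, algebraMap (𝓞 K) K y = x := ⟨⟨x, hxint⟩, rfl⟩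
  have hy0 : aeval y f = 0 := by
    apply FaithfulSMul.algebraMap_injective (𝓞 K) K
    rw [map_zero, ← hx, ← hy]
    exact (aeval_algebraMap_apply K y f).symm
  have hroot : ∀ z : ℂ, (f.map (Int.castRingHom ℂ)).eval z = 0 → ‖z‖ ≤ Cr * (H : ℝ) ^ Cr :=
    fun z hz => hCr H (by omega) t htH z hz
  have hpH : ∀ p : ℕ, p ^ 2 ≤ H → p ≤ H := by
    intro p hp
    nlinarith [Nat.zero_le p]
  have hcl : classNumber K ≤ Cg * H ^ Cg := by
    haveI : Fact (Nat.Prime 2) := ⟨Nat.prime_two⟩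
    exact (hCg H 2 (by omega) f hfm hfd hirr hroot K y hK hy0).1
  refine ⟨?_, ?_⟩
  · intro p hpf hp hζ S hSp
    have h : t ∉ Bad0 H p := fun h => ht3 ⟨p, hpf.out, hp, h⟩
    obtain ⟨hG1, hG2⟩ := hGood H p (hpH p hp) t htH h hirr K x hx hK hrank hζ S hSp
    refine ⟨hG1, fun k r φ hφ hind => (hG2 k r φ hφ hind).trans ?_⟩
    exact Nat.mul_le_mul (by omega) (Nat.pow_le_pow_right (by omega) (by omega))
  · have hfinP : {p : ℕ | p.Prime ∧ p0 < p ∧ p ^ 2 ≤ H ∧ t ∈ Bad2 p}.Finite :=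
      (Set.finite_Iic H).subset fun p hp => hpH p hp.2.2.1
    refine ⟨Finset.range (p0 + F.natDegree + 3) ∪ (classNumber K).primeFactors ∪
      hfinP.toFinset, ?_, ?_⟩
    · have hL2 := Real.log_two_gt_d9
      have hLH : Real.log 2 ≤ Real.log H := Real.log_le_log (by norm_num) (by exact_mod_cast hH)
      set L := Real.log H with hLdef
      have hL : (0.69 : ℝ) ≤ L := by linarith
      have h1 : (Finset.range (p0 + F.natDegree + 3) ∪ (classNumber K).primeFactors ∪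
          hfinP.toFinset).card ≤ (p0 + F.natDegree + 3) + Nat.log 2 (classNumber K) +
          {p : ℕ | p.Prime ∧ p0 < p ∧ p ^ 2 ≤ H ∧ t ∈ Bad2 p}.ncard := by
        refine (Finset.card_union_le _ _).trans (Nat.add_le_add ?_ ?_)
        · refine (Finset.card_union_le _ _).trans (Nat.add_le_add ?_ ?_)
          · rw [Finset.card_range]
          · exact card_primeFactors_le _ (classNumber_ne_zero K)
        · rw [Set.ncard_eq_toFinset_card _ hfinP]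
      have h2 : ({p : ℕ | p.Prime ∧ p0 < p ∧ p ^ 2 ≤ H ∧ t ∈ Bad2 p}.ncard : ℝ) ≤
          L ^ 2 := not_lt.mp ht4
      have h3 : (Nat.log 2 (classNumber K) : ℝ) * Real.log 2 ≤ 2 * Cg * L := by
        have h5 : ((2 : ℝ)) ^ Nat.log 2 (classNumber K) ≤ (H : ℝ) ^ (2 * Cg) := by
          have h6 : 2 ^ Nat.log 2 (classNumber K) ≤ H ^ (2 * Cg) := by
            refine (Nat.pow_log_le_self 2 (classNumber_ne_zero K)).trans (hcl.trans ?_)
            calc Cg * H ^ Cg ≤ H ^ Cg * H ^ Cg := by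
                  refine Nat.mul_le_mul_right _ ?_
                  exact (Nat.lt_two_pow_self).le.trans (Nat.pow_le_pow_left hH _)
              _ = H ^ (2 * Cg) := by rw [two_mul, pow_add]
          exact_mod_cast h6
        have h7 := Real.log_le_log (by positivity) h5
        rw [Real.log_pow, Real.log_pow] at h7
        push_cast at h7
        linarith
      have h8 : (Nat.log 2 (classNumber K) : ℝ) ≤ 5 * Cg * L ^ 2 := by
        have h9 : (Nat.log 2 (classNumber K) : ℝ) * 0.69 ≤ 2 * Cg * L := by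
          refine le_trans ?_ h3
          gcongr
          linarith
        have h10 : 2 * (Cg : ℝ) * L * 0.69 ≤ 2 * Cg * L * L := by
          gcongr
        have h11 : (0 : ℝ) ≤ (Cg : ℝ) * L ^ 2 := by positivity
        nlinarith
      have h12 : (1 : ℝ) ≤ 3 * L ^ 2 := by nlinarith
      have h13 : ((p0 + F.natDegree + 3 : ℕ) : ℝ) ≤ 3 * ((p0 + F.natDegree + 3 : ℕ) : ℝ) * L ^ 2 := by
        have : (0 : ℝ) ≤ ((p0 + F.natDegree + 3 : ℕ) : ℝ) := Nat.cast_nonneg _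
        nlinarith
      have h14 : ((Finset.range (p0 + F.natDegree + 3) ∪ (classNumber K).primeFactors ∪
          hfinP.toFinset).card : ℝ) ≤ ((p0 + F.natDegree + 3 : ℕ) : ℝ) +
          (Nat.log 2 (classNumber K) : ℝ) +
          ({p : ℕ | p.Prime ∧ p0 < p ∧ p ^ 2 ≤ H ∧ t ∈ Bad2 p}.ncard : ℝ) := by
        exact_mod_cast h1
      refine h14.trans ?_
      have h15 : (0 : ℝ) ≤ (C0 + C6 : ℝ) * L ^ 2 := by positivity
      push_cast at h13 ⊢
      nlinarith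
    · intro p hpf hp hpP
      rw [Finset.mem_union, Finset.mem_union, not_or, not_or, Finset.mem_range,
        Nat.mem_primeFactors, Set.Finite.mem_toFinset] at hpP
      obtain ⟨⟨hp1, hp2⟩, hp3⟩ := hpP
      have hpb' : ¬ (Irreducible (F.map (MvPolynomial.eval t)) ∧
        (¬ ((F.map (MvPolynomial.eval t)).map (red p)).Separable ∨ ¬ NBG.{u} F p n t)) :=
        fun h => hp3 ⟨hpf.out, by omega, hp, h⟩
      push Not at hpb'
      obtain ⟨hsep, hNB⟩ := hpb' hirr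
      obtain ⟨w, hw⟩ := hNB K y hK hy0
      exact good_p hLL1 hTex1 hRed K p
        (by rw [hK]; omega) f hfm hirr hsep y
        (by rw [hK, hfd]) hy0 _ hrank w hw
        (fun h => hp2 ⟨hpf.out, h, classNumber_ne_zero K⟩)

open Pool.Agent.Work.MP_59f3ad_nt.Cod in
theorem allSevenB : StSevenB.{u} := by
  have hTwo1 : StTwo1.{u} := stTwo1 allFun (pr_Cnt1 pr_Kum pr_Cl1 pr_Un)
  have hNVA : StNVA := pr_NVA (pr_NVB pr_Lim)
  have hDig : StDigG.{u} := pr_DigG pr_MvT pr_Ord pr_Crit1.{u}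
  have hCls : StClsG.{u} := pr_ClsG hDig pr_Pen
  have hPrime : StPrimeG.{u} := pr_PrimeG hNVA hCls (pr_BadE pr_Res pr_SZ) pr_CntV
  exact stSevenB allThree hPrime pr_Mk1 pr_RootG hTwo1 pr_LL pr_LL1 pr_Tex pr_Tex1 pr_Red pr_Idx
    pr_Hcl pr_Sig pr_Zp

end Pool.Agent.Work.MP_59f3ad_nt.Pex
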