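import Mathlib
import Pool.Agent.Work.MP_59f3ad_nt.Bdx.B06
import Pool.Agent.Work.MP_59f3ad_nt.Pex.Stmts

/-!
# MP_59f3ad_nt Pex: no exceptional twists if the groups `V_m` are trivial
-/

set_option autoImplicit false

open NumberField IsDedekindDomain

namespace Pool.Agent.Work.MP_59f3ad_nt.Pex

open Pool.Agent.Work.MP_59f3ad_nt.Tw

universe u

namespace TopX

/-- a locally trivial cocycle modulo `p^m` is a coboundary modulo `p^m` -/
theorem cob (K : Type u) [Field K] [NumberField K] (p : ℕ) [Fact p.Prime] (hV : VM K p)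
    (S : Set (HeightOneSpectrum (𝓞 K)))
    (hS : ∀ v : HeightOneSpectrum (𝓞 K), (p : 𝓞 K) ∈ v.asIdeal → v ∈ S)
    (m : ℕ) (F : GK K → ℤ_[p]) (hF : KF K p m S F) :
    ∃ t : ℤ_[p], ∀ g, (p : ℤ_[p]) ^ m ∣ F g - ((cyc K p g : ℤ_[p]) - 1) * t := by
  obtain ⟨ζ, hζ⟩ := (hasRoots K p m).exists_primitiveRoot
  obtain ⟨β, α, hβ0, hα0, hβ, hα, hloc, hval⟩ := pr_Kum K p m S F ζ hζ hF
  obtain ⟨z, hz⟩ := hV m α hα0 hval (fun v hv => hloc v (hS v hv))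
  have hz0 : z ≠ 0 := by
    rintro rfl
    rw [zero_pow (pow_ne_zero _ (Fact.out : p.Prime).ne_zero)] at hz
    exact hα0 hz.symm
  obtain ⟨t, ht⟩ := Cnt1X.diff K p m ζ hζ F (fun _ => 0) β 1 α 1 z one_ne_zero hz0 hβ
    (fun g => by rw [map_one, zpw_zero hζ.pow_eq_one, one_mul]) hα (by rw [map_one, one_pow])
    (by rw [mul_one, hz])
  exact ⟨t, fun g => by simpa using ht g⟩

/-- a locally trivial cocycle in the twist `1` satisfies `KF` -/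
theorem kf_one (K : Type u) [Field K] [NumberField K] (p : ℕ) [Fact p.Prime]
    (S : Set (HeightOneSpectrum (𝓞 K))) (φ : GK K → ℤ_[p]) (hφ : φ ∈ ShaZ K p 1 S) (m : ℕ) :
    KF K p m S φ := by
  have ht : ∀ g : GK K, twist K p 1 g = (cyc K p g : ℤ_[p]) := by
    intro g
    rw [twist, zpow_one]
  obtain ⟨⟨⟨h1, h2⟩, h3⟩, h4, -⟩ := hφ
  refine ⟨h1, fun g h => ?_, fun g hg => ?_, fun v hv ι => ?_⟩
  · rw [h2 g h, ht, sub_self]
    exact dvd_zero _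
  · rw [h3 g hg]
    exact dvd_zero _
  · obtain ⟨c, hc⟩ := h4 v hv ι
    refine ⟨c, fun g h hgh => ?_⟩
    rw [hc g h hgh, ht, sub_self]
    exact dvd_zero _

theorem eq_zero_of_dvd (p : ℕ) [Fact p.Prime] (x : ℤ_[p]) (h : ∀ m : ℕ, (p : ℤ_[p]) ^ m ∣ x) :
    x = 0 := by
  have hp : p.Prime := Fact.out
  by_contra hx
  have h1 := h (x.valuation + 1)
  rw [← Ideal.mem_span_singleton, ← PadicInt.norm_le_pow_iff_mem_span_pow,
    PadicInt.norm_eq_zpow_neg_valuation hx] at h1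
  have h2 : (1 : ℝ) < p := by exact_mod_cast hp.one_lt
  have h3 := (zpow_le_zpow_iff_right₀ h2).mp h1
  push_cast at h3
  linarith

open CoreX in
/-- no exceptional twists if the groups `V_m` are trivial -/
theorem top (K : Type u) [Field K] [NumberField K] (p : ℕ) [Fact p.Prime] (hV : VM K p)
    (hmu : NoMu K p) (S : Set (HeightOneSpectrum (𝓞 K)))
    (hS : ∀ v : HeightOneSpectrum (𝓞 K), (p : 𝓞 K) ∈ v.asIdeal → v ∈ S) (r : ℤ)
    (hr : ((p : ℤ) - 1) ∣ r - 1) : Sha1 K p r S = ⊥ := by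
  have hp : p.Prime := Fact.out
  by_cases hr1 : r = 1
  · subst hr1
    rw [Sha1_eq_bot_iff]
    intro φ hφ
    obtain ⟨σ, τ, hτ⟩ := pr_Sig K p hmu
    refine ⟨((τ⁻¹ : ℤ_[p]ˣ) : ℤ_[p]) * φ σ, fun g => ?_⟩
    have ht : twist K p 1 g = (cyc K p g : ℤ_[p]) := by rw [twist, zpow_one]
    rw [ht, ← sub_eq_zero]
    apply eq_zero_of_dvd
    intro m
    obtain ⟨t, h⟩ := cob K p hV S hS m φ (kf_one K p S φ hφ m)
    have h1 := h g
    have h2 := h σ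
    rw [← hτ] at h2
    have h3 : φ g - ((cyc K p g : ℤ_[p]) - 1) * (((τ⁻¹ : ℤ_[p]ˣ) : ℤ_[p]) * φ σ) =
        (φ g - ((cyc K p g : ℤ_[p]) - 1) * t) -
          ((cyc K p g : ℤ_[p]) - 1) * ((τ⁻¹ : ℤ_[p]ˣ) : ℤ_[p]) * (φ σ - (τ : ℤ_[p]) * t) := by
      have h4 : ((τ⁻¹ : ℤ_[p]ˣ) : ℤ_[p]) * (τ : ℤ_[p]) = 1 := Units.inv_mul τ
      linear_combination ((cyc K p g : ℤ_[p]) - 1) * t * (-h4)
    rw [h3]
    exact dvd_sub h1 (Dvd.dvd.mul_left h2 _)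
  by_contra hne
  obtain ⟨φ, hφ, hφB⟩ := exists_mem_of_ne_bot K p r S hne
  have hind : Indep K p (fun _ : Fin 1 => r) (fun _ => φ) :=
    indep_of_injective pr_Sig pr_Zp K p hmu 1 _ (fun _ _ _ => Subsingleton.elim _ _) (fun _ => hr) _
      (fun _ => hφB)
  obtain ⟨m0, hm0⟩ := allFun K p hmu S 1 (fun _ => r) (fun _ => φ) (fun _ => ⟨hr1, hr, hφ⟩) hind
  obtain ⟨N, F, hF1, hF2, hN⟩ := hm0 m0 le_rfl
  have h2N : 2 ≤ N := by
    refine le_trans ?_ hN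
    rw [Fin.sum_univ_one]
    calc 2 ≤ p := hp.two_le
      _ = p ^ 1 := (pow_one p).symm
      _ ≤ p ^ (1 + padicValInt p (r - 1)) := Nat.pow_le_pow_right hp.pos (by omega)
  obtain ⟨t0, h0⟩ := cob K p hV S hS m0 (F ⟨0, by omega⟩) (hF1 _)
  obtain ⟨t1, h1⟩ := cob K p hV S hS m0 (F ⟨1, by omega⟩) (hF1 _)
  have h3 := hF2 ⟨0, by omega⟩ ⟨1, by omega⟩ (t0 - t1) (fun g => by
    have := dvd_sub (h0 g) (h1 g)
    have e : F ⟨0, by omega⟩ g - F ⟨1, by omega⟩ g - ((cyc K p g : ℤ_[p]) - 1) * (t0 - t1) =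
        (F ⟨0, by omega⟩ g - ((cyc K p g : ℤ_[p]) - 1) * t0) -
          (F ⟨1, by omega⟩ g - ((cyc K p g : ℤ_[p]) - 1) * t1) := by ring
    rw [e]
    exact this)
  exact absurd (congrArg Fin.val h3) (by norm_num)

end TopX

end Pool.Agent.Work.MP_59f3ad_nt.Pex
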