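import Mathlib
import Pool.Agent.Work.MP_59f3ad_nt.Pex.Top
import Pool.Agent.Work.MP_59f3ad_nt.Pex.Seven

/-!
# MP_59f3ad_nt Pex: assembly
-/

set_option autoImplicit false

open NumberField IsDedekindDomain

namespace Pool.Agent.Work.MP_59f3ad_nt.Pex

open Pool.Agent.Work.MP_59f3ad_nt.Tw

universe u

/-- `VA` for the base field -/
theorem va_base (h1 : StNRK.{u}) (h2 : StBase.{u}) (K : Type u) [Field K] [NumberField K] (p : ℕ)
    (hp : p.Prime) (hG : GoodP K p) : NR K p ∧ VA K p := by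
  obtain ⟨hL, hcl, hd⟩ := hG
  have hp2 : p ≠ 2 := by
    have := Module.finrank_pos (R := ℚ) (M := K)
    omega
  have hNR := h1 K p hp hd
  exact ⟨hNR, h2 K p hp hp2 hNR hL hcl⟩

/-- going up and down -/
theorem vm_top (h1 : StNRK.{u}) (h2 : StBase.{u}) (h3 : StNRM.{u}) (h4 : StNRL.{u}) (h5 : StMu.{u})
    (h6 : StMild.{u}) (h7 : StDesc.{u}) (h8 : StSub.{u}) (h9 : StLift.{u})
    (K M : Type u) [Field K] [NumberField K] [Field M] [NumberField M] [Algebra K M] [IsGalois K M]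
    (p j : ℕ) (hp : p.Prime) (hG : GoodP K p) (hj : Module.finrank K M = p ^ j)
    (hP : Prim K M p ∨ ∃ v₀ q, Mild K M p v₀ q) (L : IntermediateField K M) :
    NoMu L p ∧ VM L p := by
  obtain ⟨hNR, hVA⟩ := va_base h1 h2 K p hp hG
  have hp2 : p ≠ 2 := by
    have := Module.finrank_pos (R := ℚ) (M := K)
    have := hG.2.2
    omega
  have hNRM := h3 K M p j hp hp2 hj hNR
  have hPr : Prim K M p := by
    rcases hP with h | ⟨v₀, q, h⟩
    · exact h
    · exact h6 K M p hp hp2 (by have := hG.2.2; omega) v₀ q h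
  have hVM := h7 K M p j hp hp2 hj hNR hNRM hPr hVA
  have hNRL := h4 L M p hp hNRM
  have hVL := h8 L M p hp (h5 M p hp hp2 hNRM) hVM
  exact ⟨h5 L p hp hp2 hNRL, h9 L p hp hp2 hNRL hVL⟩

theorem clq : StClq.{u} := pr_Cl1

end Pool.Agent.Work.MP_59f3ad_nt.Pex
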