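import Mathlib
import Pool.Agent.Work.MP_59f3ad_nt.Pex.Main
import Pool.Agent.Work.MP_59f3ad_nt.Pex.I_NRK
import Pool.Agent.Work.MP_59f3ad_nt.Pex.I_NRM
import Pool.Agent.Work.MP_59f3ad_nt.Pex.I_NRL
import Pool.Agent.Work.MP_59f3ad_nt.Pex.I_Phi
import Pool.Agent.Work.MP_59f3ad_nt.Pex.I_Loc1
import Pool.Agent.Work.MP_59f3ad_nt.Pex.I_Mu
import Pool.Agent.Work.MP_59f3ad_nt.Pex.I_LA
import Pool.Agent.Work.MP_59f3ad_nt.Pex.I_AL
import Pool.Agent.Work.MP_59f3ad_nt.Pex.I_Lift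
import Pool.Agent.Work.MP_59f3ad_nt.Pex.I_Fix
import Pool.Agent.Work.MP_59f3ad_nt.Pex.I_H90
import Pool.Agent.Work.MP_59f3ad_nt.Pex.I_Tr
import Pool.Agent.Work.MP_59f3ad_nt.Pex.I_VU
import Pool.Agent.Work.MP_59f3ad_nt.Pex.I_VP
import Pool.Agent.Work.MP_59f3ad_nt.Pex.I_Nm
import Pool.Agent.Work.MP_59f3ad_nt.Pex.I_NI
import Pool.Agent.Work.MP_59f3ad_nt.Pex.I_Tame
import Pool.Agent.Work.MP_59f3ad_nt.Pex.I_Mild
import Pool.Agent.Work.MP_59f3ad_nt.Pex.I_Desc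
import Pool.Agent.Work.MP_59f3ad_nt.Pex.I_Sub
import Pool.Agent.Work.MP_59f3ad_nt.Pex.I_Base

/-!
# MP_59f3ad_nt Pex: all items together
-/

set_option autoImplicit false

open NumberField IsDedekindDomain

namespace Pool.Agent.Work.MP_59f3ad_nt.Pex

open Pool.Agent.Work.MP_59f3ad_nt.Tw

universe u

theorem exists_above (K : Type u) [Field K] [NumberField K] (p : ℕ) (hp : p.Prime) :
    ∃ w : HeightOneSpectrum (𝓞 K), (p : 𝓞 K) ∈ w.asIdeal := IPxMu.exists_above K p hp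

theorem all_Loc1 : StLoc1.{u} := pr_Loc1 pr_Phi
theorem all_Mu : StMu.{u} := pr_Mu all_Loc1
theorem all_AL : StAL.{u} := pr_AL pr_Phi
theorem all_Tame : StTame.{u} := pr_Tame pr_Nm pr_NI
theorem all_Mild : StMild.{u} := pr_Mild all_Tame pr_LA pr_VP
theorem all_Desc : StDesc.{u} := pr_Desc all_Mu pr_Fix pr_H90 (pr_Tr pr_Phi) pr_VU all_AL

/-- no exceptional twists in all extensions -/
theorem all_top (K M : Type u) [Field K] [NumberField K] [Field M] [NumberField M] [Algebra K M]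
    [IsGalois K M] (p j : ℕ) [hpf : Fact p.Prime] (hG : GoodP K p)
    (hj : Module.finrank K M = p ^ j) (hP : Prim K M p ∨ ∃ v₀ q, Mild K M p v₀ q)
    (L : IntermediateField K M) (S : Set (HeightOneSpectrum (𝓞 L)))
    (hS : ∀ v : HeightOneSpectrum (𝓞 L), (p : 𝓞 L) ∈ v.asIdeal → v ∈ S) (r : ℤ)
    (hr : ((p : ℤ) - 1) ∣ r - 1) : Sha1 L p r S = ⊥ := by
  obtain ⟨h1, h2⟩ := vm_top pr_NRK (pr_Base all_AL clq) pr_NRM pr_NRL all_Mu all_Mild all_Desc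
    pr_Sub (pr_Lift pr_LA all_Loc1) K M p j hpf.out hG hj hP L
  exact TopX.top L p h2 h1 S hS r hr

end Pool.Agent.Work.MP_59f3ad_nt.Pex
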