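import Mathlib
import Pool.Agent.Work.MP_59f3ad_nt.Cod.Id
import Pool.Agent.Work.MP_59f3ad_nt.Cod.Tay
import Pool.Agent.Work.MP_59f3ad_nt.Cod.QCH
import Pool.Agent.Work.MP_59f3ad_nt.Cod.Ord
import Pool.Agent.Work.MP_59f3ad_nt.Cod.QN
import Pool.Agent.Work.MP_59f3ad_nt.Cod.HZ
import Pool.Agent.Work.MP_59f3ad_nt.Cod.MDS
import Pool.Agent.Work.MP_59f3ad_nt.Cod.Js
import Pool.Agent.Work.MP_59f3ad_nt.Cod.Norm
import Pool.Agent.Work.MP_59f3ad_nt.Cod.Rolle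
import Pool.Agent.Work.MP_59f3ad_nt.Cod.Cau
import Pool.Agent.Work.MP_59f3ad_nt.Cod.Spec1
import Pool.Agent.Work.MP_59f3ad_nt.Cod.Spec0
import Pool.Agent.Work.MP_59f3ad_nt.Cod.Res
import Pool.Agent.Work.MP_59f3ad_nt.Cod.Sep
import Pool.Agent.Work.MP_59f3ad_nt.Cod.SZ
import Pool.Agent.Work.MP_59f3ad_nt.Cod.Chain
import Pool.Agent.Work.MP_59f3ad_nt.Cod.Fin
import Pool.Agent.Work.MP_59f3ad_nt.Cod.Ev
import Pool.Agent.Work.MP_59f3ad_nt.Cod.GC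
import Pool.Agent.Work.MP_59f3ad_nt.Cod.Tot
import Pool.Agent.Work.MP_59f3ad_nt.Cod.Sm
import Pool.Agent.Work.MP_59f3ad_nt.Bdx.B06
import Pool.Agent.Work.MP_59f3ad_nt.Bdx.B05
import Pool.Agent.Work.MP_59f3ad_nt.Pex.Seven

/-!
# MP_59f3ad_nt Pex: the good primes of almost all members of the explicit family

The proof is the one of `stSix`; only the last lines are different.
-/

set_option autoImplicit false

open NumberField IsDedekindDomain Polynomial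

namespace Pool.Agent.Work.MP_59f3ad_nt.Pex

open Pool.Agent.Work.MP_59f3ad_nt Pool.Agent.Work.MP_59f3ad_nt.Multi Pool.Agent.Work.MP_59f3ad_nt.Tw Pool.Agent.Work.MP_59f3ad_nt.Cod

universe u

/-- The theorem on the explicit family, with the arithmetic data of the good primes. -/
def StSixB : Prop := ∀ r1 r2 k : ℕ, 1 ≤ r1 + 2 * r2 → 1 ≤ k → k ≤ r2 + 1 →
  (Even k ∨ 1 ≤ r1) → ∃ A : ℕ, ∀ H : ℕ, 2 ≤ H → ∃ Bad : Set (Fin r1 ⊕ Fin r2 ⊕ Fin r2 → ℤ),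
    ({t : Fin r1 ⊕ Fin r2 ⊕ Fin r2 → ℤ | (∀ i, |t i| ≤ H) ∧ t ∈ Bad}.ncard : ℝ) ≤
      A * (H : ℝ) ^ (r1 + 2 * r2) / Real.log H ∧
    ∀ t : Fin r1 ⊕ Fin r2 ⊕ Fin r2 → ℤ, (∀ i, |t i| ≤ H) → t ∉ Bad →
      ∀ f : ℤ[X], f = (∏ i : Fin r1, (X - C (t (Sum.inl i)))) *
        ∏ j : Fin r2, ((X - C (t (Sum.inr (Sum.inl j)))) ^ 2 +
          C (2 * t (Sum.inr (Sum.inr j)) ^ 2)) - 1 →
      Irreducible (f.map (Int.castRingHom ℚ)) ∧
      ∀ (K : Type u) [Field K] [NumberField K] (x : K), aeval x f = 0 →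
        Module.finrank ℚ K = r1 + 2 * r2 →
        InfinitePlace.nrRealPlaces K = r1 ∧ InfinitePlace.nrComplexPlaces K = r2 ∧
        (∀ (p : ℕ) [Fact p.Prime], p ^ (k + 1) ≤ H ^ k → (∀ ζ : K, ζ ^ p = 1 → ζ = 1) →
          ∀ S : Set (HeightOneSpectrum (𝓞 K)),
          (∀ v : HeightOneSpectrum (𝓞 K), (p : 𝓞 K) ∈ v.asIdeal → v ∈ S) →
          GoodB K p S (A * H ^ A)) ∧
        ∃ P : Finset ℕ, (P.card : ℝ) ≤ A * (Real.log H) ^ 2 ∧
          ∀ (p : ℕ) [Fact p.Prime], p ^ (k + 1) ≤ H ^ k → p ∉ P → GoodP K p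

open SixX CoreX in
theorem stSixB (hBoxP : StBoxP.{u}) (hAll : StAll.{u}) (hDenK : StDenK) (hPrime1 : StPrime1.{u})
    (hMk : StMk) (hRootG : StRootG) (hTwo1 : StTwo1.{u}) (hLL : StLL.{u}) (hLL1 : StLL1.{u})
    (hTex : StTex.{u}) (hTex1 : StTex1.{u}) (hRed : StRed.{u}) (hIdx : StIdx.{u})
    (hHcl : StHcl.{u}) (hSig : StSig.{u}) (hZp : StZp) : StSixB.{u} := by
  classical
  intro r1 r2 k hd hk1 hk2 hk3
  have hcard : Fintype.card (Ix r1 r2) = r1 + 2 * r2 := Ix_card r1 r2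
  obtain ⟨hPm, hPd⟩ := GenUnits.genP_monic_natDegree r1 r2 hd
  obtain ⟨Bad0, C0, hC1, hC2, hBad⟩ := setupP.{u} hBoxP r1 r2 hd
  obtain ⟨Ca, hCa⟩ := hAll r1 r2 k hd hk1 hk2 hk3 C0
  let Bad1 : ℕ → ℕ → Set (Ix r1 r2 → ℤ) := fun H p =>
    {t | t ∈ Bad0 H p ∧ Irreducible (gg t - 1) ∧ ¬ NB1.{u} r1 r2 p t}
  have hB1 : ∀ p : ℕ, p.Prime → ∀ H : ℕ, 1 ≤ H →
      {t : Ix r1 r2 → ℤ | (∀ i, |t i| ≤ H) ∧ t ∈ Bad1 H p}.ncard ≤
        Ca * (p ^ k * H ^ (r1 + 2 * r2 - k) + H ^ (r1 + 2 * r2 - 1)) := by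
    intro p hp H hH
    exact hCa p hp H hH (Bad0 H p) (hC1 p hp H hH) (fun m hm t0 => hC2 p hp m t0 H hm)
  obtain ⟨D1, hD1⟩ := hDenK (Ix r1 r2) k Ca hk1 (by rw [hcard]; omega)
  have hD1' := hD1 Bad1 (by rw [hcard]; exact hB1)
  rw [hcard] at hD1'
  obtain ⟨C5, p0, hP1⟩ := hPrime1 r1 r2 k hd hk1 hk2 hk3
  let Bad2 : ℕ → Set (Ix r1 r2 → ℤ) := fun p =>
    {t | Irreducible (gg t - 1) ∧ (¬ ((gg t - 1).map (red p)).Separable ∨ ¬ NB1.{u} r1 r2 p t)}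
  obtain ⟨C6, hC6⟩ := hMk (Ix r1 r2) k C5 p0 hk1 (by rw [hcard]; omega)
  have hMk' := hC6 Bad2 (fun p hp hpp H hH => by
    rw [hcard]
    haveI := Fact.mk hp
    exact hP1 p hpp H hH)
  rw [hcard] at hMk'
  obtain ⟨C2', hS⟩ := sep_count r1 r2
  obtain ⟨Cr, hCr⟩ := hRootG (Ix r1 r2) (genP r1 r2) hPm
  obtain ⟨Cg, hCg⟩ := good_core.{u} hTwo1 hLL hTex hIdx hHcl (r1 + 2 * r2) (r1 + r2 - 1) (C0 + 1) Cr
  have hbox := fun H => BoundX.box_finite (Ix r1 r2) H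
  let Sep : (Ix r1 r2 → ℤ) → Prop := fun t =>
    (∀ i j : Fin r1, i ≠ j → 4 ≤ |t (Sum.inl i) - t (Sum.inl j)|) ∧
    (∀ k l : Fin r2, k ≠ l → 4 ≤ |t (Sum.inr (Sum.inl k)) - t (Sum.inr (Sum.inl l))|) ∧
    (∀ k : Fin r2, 3 ≤ |t (Sum.inr (Sum.inr k))|)
  let Bad3 : ℕ → Set (Ix r1 r2 → ℤ) := fun H => {t | ∃ p : ℕ, p.Prime ∧ p ^ (k + 1) ≤ H ^ k ∧
      t ∈ Bad1 H p}
  let Bad4 : ℕ → Set (Ix r1 r2 → ℤ) := fun H => {t | (Real.log H) ^ 2 <
    ({p : ℕ | p.Prime ∧ p0 < p ∧ p ^ (k + 1) ≤ H ^ k ∧ t ∈ Bad2 p}.ncard : ℝ)}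
  refine ⟨D1 + C6 + C2' + (3 * (p0 + (r1 + 2 * r2) + 3) + 5 * Cg + 1), fun H hH =>
    ⟨{t | ¬ Sep t} ∪ (Bad3 H ∪ Bad4 H), ?_, ?_⟩⟩
  · have hH1 : (1 : ℝ) ≤ H := by exact_mod_cast (by omega : 1 ≤ H)
    have hL : (0 : ℝ) < Real.log H := Real.log_pos (by exact_mod_cast hH)
    have h1 : {t : Ix r1 r2 → ℤ | (∀ i, |t i| ≤ H) ∧ t ∈ {t | ¬ Sep t} ∪ (Bad3 H ∪ Bad4 H)} ⊆
        {t : Ix r1 r2 → ℤ | (∀ i, |t i| ≤ H) ∧ ¬ Sep t} ∪
        ({t : Ix r1 r2 → ℤ | (∀ i, |t i| ≤ H) ∧ ∃ p : ℕ, p.Prime ∧ p ^ (k + 1) ≤ H ^ k ∧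
          t ∈ Bad1 H p} ∪ {t : Ix r1 r2 → ℤ | (∀ i, |t i| ≤ H) ∧ (Real.log H) ^ 2 <
          ({p : ℕ | p.Prime ∧ p0 < p ∧ p ^ (k + 1) ≤ H ^ k ∧ t ∈ Bad2 p}.ncard : ℝ)}) := by
      rintro t ⟨ht, ht' | ht' | ht'⟩
      · exact Or.inl ⟨ht, ht'⟩
      · exact Or.inr (Or.inl ⟨ht, ht'⟩)
      · exact Or.inr (Or.inr ⟨ht, ht'⟩)
    have h2 := ((Set.ncard_le_ncard h1 (((hbox H).subset fun t ht => ht.1).union
      (((hbox H).subset fun t ht => ht.1).union ((hbox H).subset fun t ht => ht.1)))).trans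
      (Set.ncard_union_le _ _)).trans (Nat.add_le_add_left (Set.ncard_union_le _ _) _)
    have h3 : (({t : Ix r1 r2 → ℤ | (∀ i, |t i| ≤ H) ∧ t ∈ {t | ¬ Sep t} ∪
        (Bad3 H ∪ Bad4 H)}.ncard : ℕ) : ℝ) ≤
        ({t : Ix r1 r2 → ℤ | (∀ i, |t i| ≤ H) ∧ ¬ Sep t}.ncard : ℝ) +
        (({t : Ix r1 r2 → ℤ | (∀ i, |t i| ≤ H) ∧ ∃ p : ℕ, p.Prime ∧ p ^ (k + 1) ≤ H ^ k ∧
          t ∈ Bad1 H p}.ncard : ℝ) + ({t : Ix r1 r2 → ℤ | (∀ i, |t i| ≤ H) ∧ (Real.log H) ^ 2 <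
          ({p : ℕ | p.Prime ∧ p0 < p ∧ p ^ (k + 1) ≤ H ^ k ∧ t ∈ Bad2 p}.ncard : ℝ)}.ncard : ℝ)) := by
      exact_mod_cast h2
    have h4 : ({t : Ix r1 r2 → ℤ | (∀ i, |t i| ≤ H) ∧ ¬ Sep t}.ncard : ℝ) ≤
        C2' * (H : ℝ) ^ (r1 + 2 * r2) / Real.log H := by
      have h5 : ({t : Ix r1 r2 → ℤ | (∀ i, |t i| ≤ H) ∧ ¬ Sep t}.ncard : ℝ) ≤
          C2' * (H : ℝ) ^ (r1 + 2 * r2 - 1) := by
        exact_mod_cast hS H (by omega)
      refine h5.trans ?_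
      rw [le_div_iff₀ hL, mul_assoc]
      refine mul_le_mul_of_nonneg_left ?_ (Nat.cast_nonneg _)
      have h6 : Real.log H ≤ H := Real.log_le_self (by positivity)
      calc (H : ℝ) ^ (r1 + 2 * r2 - 1) * Real.log H ≤ (H : ℝ) ^ (r1 + 2 * r2 - 1) * H := by
            gcongr
        _ = (H : ℝ) ^ (r1 + 2 * r2) := by
            rw [← pow_succ]
            congr 1
            omega
    have h7 : (0 : ℝ) ≤ (3 * (p0 + (r1 + 2 * r2) + 3) + 5 * Cg + 1) * (H : ℝ) ^ (r1 + 2 * r2) /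
        Real.log H := by positivity
    calc _ ≤ _ := h3
      _ ≤ C2' * (H : ℝ) ^ (r1 + 2 * r2) / Real.log H + (D1 * (H : ℝ) ^ (r1 + 2 * r2) / Real.log H +
          C6 * (H : ℝ) ^ (r1 + 2 * r2) / Real.log H) :=
          add_le_add h4 (add_le_add (hD1' H hH) (hMk' H hH))
      _ ≤ C2' * (H : ℝ) ^ (r1 + 2 * r2) / Real.log H + (D1 * (H : ℝ) ^ (r1 + 2 * r2) / Real.log H +
          C6 * (H : ℝ) ^ (r1 + 2 * r2) / Real.log H) +
          (3 * (p0 + (r1 + 2 * r2) + 3) + 5 * Cg + 1) * (H : ℝ) ^ (r1 + 2 * r2) /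
        Real.log H := le_add_of_nonneg_right h7
      _ = _ := by push_cast; ring
  intro t htH ht f hf
  rw [Set.mem_union, Set.mem_union, not_or, not_or, Set.mem_setOf_eq, not_not] at ht
  obtain ⟨⟨hta, htb, htc⟩, ht3, ht4⟩ := ht
  have hfam : f = Multi.genF (fun i => t (Sum.inl i)) (fun k => t (Sum.inr (Sum.inl k)))
    (fun k => t (Sum.inr (Sum.inr k))) := by rw [hf, Multi.genF, genG]
  have hgg : f = gg t - 1 := by rw [hf, MainX.gg_eq]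
  have hinj : ∀ {m : ℕ} (a : Fin m → ℤ), (∀ i j, i ≠ j → 4 ≤ |a i - a j|) →
      Function.Injective a := by
    intro m a h i j hij
    by_contra hne
    have h1 := h i j hne
    rw [hij, sub_self, abs_zero] at h1
    norm_num at h1
  have hfm : f.Monic := by
    rw [hgg]
    exact ff_monic t hd
  have hfd : f.natDegree = r1 + 2 * r2 := by
    rw [hgg, ← genP_map, hPm.natDegree_map, hPd]
  have hirr : Irreducible f := by
    rw [hfam]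
    exact Multi.genF_irreducible _ _ _ (hinj _ hta) (hinj _ htb)
      (fun k h => by have := htc k; rw [h] at this; norm_num at this) hd
  refine ⟨(IsPrimitive.Int.irreducible_iff_irreducible_map_cast hfm.isPrimitive).mp hirr,
    fun K _ _ x hx hK => ?_⟩
  have hxint : IsIntegral ℤ x := ⟨f, hfm, hx⟩
  obtain ⟨y, hy⟩ : ∃ y : 𝓞 K, algebraMap (𝓞 K) K y = x := ⟨⟨x, hxint⟩, rfl⟩
  have hy0 : aeval y f = 0 := by
    apply FaithfulSMul.algebraMap_injective (𝓞 K) K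
    rw [map_zero, ← hx, ← hy]
    exact (aeval_algebraMap_apply K y f).symm
  have hr := gen_nrReal_eq _ _ _ y hta htb htc hd hK (by rw [← hfam]; exact hy0)
  have hc := gen_nrComplex_eq _ _ _ y hta htb htc hd hK (by rw [← hfam]; exact hy0)
  have hrank : Units.rank K = r1 + r2 - 1 := by
    rw [Units.rank, InfinitePlace.card_eq_nrRealPlaces_add_nrComplexPlaces, hr, hc]
  have hroot : ∀ z : ℂ, (f.map (Int.castRingHom ℂ)).eval z = 0 → ‖z‖ ≤ Cr * (H : ℝ) ^ Cr := by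
    intro z hz
    exact hCr H (by omega) t htH z (by rw [genP_map, ← hgg]; exact hz)
  have hpH : ∀ p : ℕ, p ^ (k + 1) ≤ H ^ k → p ≤ H := by
    intro p hp
    by_contra hcon
    have h1 : H + 1 ≤ p := by omega
    have h2 : (H + 1) ^ (k + 1) ≤ p ^ (k + 1) := Nat.pow_le_pow_left h1 _
    have h3 : H ^ k ≤ (H + 1) ^ k := Nat.pow_le_pow_left (by omega) _
    have h4 : (H + 1) ^ k < (H + 1) ^ (k + 1) := Nat.pow_lt_pow_right (by omega) (by omega)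
    omega
  have hcl : classNumber K ≤ Cg * H ^ Cg :=
    (hCg H 2 (by omega) f hfm hfd hirr hroot K y hK hy0).1
  refine ⟨hr, hc, ?_, ?_⟩
  · intro p hpf hp hζ S hSp
    have hw : ∃ w : Fin (r1 + r2 - 1) → (𝓞 K)ˣ, ∀ c1 : ℕ, IdxC K y (r1 + 2 * r2) p c1 →
        PInd K p w (c1 + (C0 + 1) * (1 + Nat.log p H)) := by
      by_cases h : t ∈ Bad0 H p
      · have hNB : NB1.{u} r1 r2 p t := by
          by_contra hcon
          exact ht3 ⟨p, hpf.out, hp, h, by rw [← hgg]; exact hirr, hcon⟩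
        obtain ⟨w, hw⟩ := hNB K y hK (by rw [← hgg]; exact hy0)
        exact ⟨w, fun c1 _ => pind_mono hw (by nlinarith [Nat.zero_le c1])⟩
      · obtain ⟨w, hw⟩ := hBad p hpf.out H (by omega) t htH h (by rw [← hgg]; exact hirr) K y hK
          (by rw [← hgg]; exact hy0)
        exact ⟨w, fun c1 hc1 => pind_mono (hw c1 hc1)
          (Nat.add_le_add_left (Nat.mul_le_mul_right _ (by omega)) _)⟩
    obtain ⟨hG1, hG2⟩ := (hCg H p (hpH p hp) f hfm hfd hirr hroot K y hK hy0).2 hrank hζ hw S hSp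
    refine ⟨hG1, fun n r φ hφ hind => (hG2 n r φ hφ hind).trans ?_⟩
    exact Nat.mul_le_mul (by omega) (Nat.pow_le_pow_right (by omega) (by omega))
  · have hfinP : {p : ℕ | p.Prime ∧ p0 < p ∧ p ^ (k + 1) ≤ H ^ k ∧ t ∈ Bad2 p}.Finite :=
      (Set.finite_Iic H).subset fun p hp => hpH p hp.2.2.1
    refine ⟨Finset.range (p0 + (r1 + 2 * r2) + 3) ∪ (classNumber K).primeFactors ∪
      hfinP.toFinset, ?_, ?_⟩
    · have hL2 := Real.log_two_gt_d9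
      have hLH : Real.log 2 ≤ Real.log H := Real.log_le_log (by norm_num) (by exact_mod_cast hH)
      set L := Real.log H with hLdef
      have hL : (0.69 : ℝ) ≤ L := by linarith
      have h1 : (Finset.range (p0 + (r1 + 2 * r2) + 3) ∪ (classNumber K).primeFactors ∪
          hfinP.toFinset).card ≤ (p0 + (r1 + 2 * r2) + 3) + Nat.log 2 (classNumber K) +
          {p : ℕ | p.Prime ∧ p0 < p ∧ p ^ (k + 1) ≤ H ^ k ∧ t ∈ Bad2 p}.ncard := by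
        refine (Finset.card_union_le _ _).trans (Nat.add_le_add ?_ ?_)
        · refine (Finset.card_union_le _ _).trans (Nat.add_le_add ?_ ?_)
          · rw [Finset.card_range]
          · exact card_primeFactors_le _ (classNumber_ne_zero K)
        · rw [Set.ncard_eq_toFinset_card _ hfinP]
      have h2 : ({p : ℕ | p.Prime ∧ p0 < p ∧ p ^ (k + 1) ≤ H ^ k ∧ t ∈ Bad2 p}.ncard : ℝ) ≤
          L ^ 2 := not_lt.mp ht4
      have h3 : (Nat.log 2 (classNumber K) : ℝ) * Real.log 2 ≤ 2 * Cg * L := by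
        have h5 : ((2 : ℝ)) ^ Nat.log 2 (classNumber K) ≤ (H : ℝ) ^ (2 * Cg) := by
          have h6 : 2 ^ Nat.log 2 (classNumber K) ≤ H ^ (2 * Cg) := by
            refine (Nat.pow_log_le_self 2 (classNumber_ne_zero K)).trans (hcl.trans ?_)
            calc Cg * H ^ Cg ≤ H ^ Cg * H ^ Cg := by
                  refine Nat.mul_le_mul_right _ ?_
                  exact (Nat.lt_two_pow_self).le.trans (Nat.pow_le_pow_left hH _)
              _ = H ^ (2 * Cg) := by rw [two_mul, pow_add]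
          exact_mod_cast h6
        have h7 := Real.log_le_log (by positivity) h5
        rw [Real.log_pow, Real.log_pow] at h7
        push_cast at h7
        linarith
      have h8 : (Nat.log 2 (classNumber K) : ℝ) ≤ 5 * Cg * L ^ 2 := by
        have h9 : (Nat.log 2 (classNumber K) : ℝ) * 0.69 ≤ 2 * Cg * L := by
          refine le_trans ?_ h3
          gcongr
          linarith
        have h10 : 2 * (Cg : ℝ) * L * 0.69 ≤ 2 * Cg * L * L := by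
          gcongr
        have h11 : (0 : ℝ) ≤ (Cg : ℝ) * L ^ 2 := by positivity
        nlinarith
      have h12 : (1 : ℝ) ≤ 3 * L ^ 2 := by nlinarith
      have h13 : ((p0 + (r1 + 2 * r2) + 3 : ℕ) : ℝ) ≤ 3 * ((p0 + (r1 + 2 * r2) + 3 : ℕ) : ℝ) * L ^ 2 := by
        have : (0 : ℝ) ≤ ((p0 + (r1 + 2 * r2) + 3 : ℕ) : ℝ) := Nat.cast_nonneg _
        nlinarith
      have h14 : ((Finset.range (p0 + (r1 + 2 * r2) + 3) ∪ (classNumber K).primeFactors ∪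
          hfinP.toFinset).card : ℝ) ≤ ((p0 + (r1 + 2 * r2) + 3 : ℕ) : ℝ) +
          (Nat.log 2 (classNumber K) : ℝ) +
          ({p : ℕ | p.Prime ∧ p0 < p ∧ p ^ (k + 1) ≤ H ^ k ∧ t ∈ Bad2 p}.ncard : ℝ) := by
        exact_mod_cast h1
      refine h14.trans ?_
      have h15 : (0 : ℝ) ≤ (D1 + C6 + C2' : ℝ) * L ^ 2 := by positivity
      push_cast at h13 ⊢
      nlinarith
    · intro p hpf hp hpP
      rw [Finset.mem_union, Finset.mem_union, not_or, not_or, Finset.mem_range,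
        Nat.mem_primeFactors, Set.Finite.mem_toFinset] at hpP
      obtain ⟨⟨hp1, hp2⟩, hp3⟩ := hpP
      have hpb : p ∉ {p | t ∈ Bad2 p} := fun h => hp3 ⟨hpf.out, by omega, hp, h⟩
      have hirr' : Irreducible (gg t - 1) := by rw [← hgg]; exact hirr
      have hpb' : ¬ (Irreducible (gg t - 1) ∧ (¬ ((gg t - 1).map (red p)).Separable ∨
        ¬ NB1.{u} r1 r2 p t)) := hpb
      push Not at hpb'
      obtain ⟨hsep, hNB⟩ := hpb' hirr'
      obtain ⟨w, hw⟩ := hNB K y hK (by rw [← hgg]; exact hy0)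
      exact good_p hLL1 hTex1 hRed K p
        (by rw [hK]; omega) f hfm hirr (by rw [hgg]; exact hsep) y
        (by rw [hK, hfd]) hy0 _ hrank w hw
        (fun h => hp2 ⟨hpf.out, h, classNumber_ne_zero K⟩)

theorem allTwo1B : StTwo1.{u} := stTwo1 allFun (pr_Cnt1 pr_Kum pr_Cl1 pr_Un)

theorem allSixB : StSixB.{u} := by
  have hId : StId := pr_Id
  have hJs : StJs := pr_Js
  have hQN : StQN := pr_QN pr_Tay pr_QCH hId
  have hDig : StDig1.{u} := pr_Dig1 hId pr_Ord hQN pr_Crit1.{u}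
  have hFin : StFin := pr_Fin pr_Chain
  have hEv : StEv := pr_Ev hId hFin pr_HZ pr_MDS hJs
  have hCF : StClassFin1.{u} := pr_ClassFin1 hDig hEv
  have hS1 : StSpec1 := pr_Spec1 pr_Rolle pr_Cau
  have hS0 : StSpec0 := pr_Spec0 pr_Rolle pr_Cau
  have hSep : StSep := pr_Sep pr_Res hS1 hS0
  exact stSixB (pr_BoxP (pr_FamP (pr_FamC pr_Zer pr_Pin)))
    (pr_All hCF hJs pr_Norm hS1 hS0 hSep pr_SZ pr_GC pr_Tot pr_Sm) pr_DenK
    (pr_Prime1 hCF hJs pr_Norm hS1 hS0 hSep pr_SZ pr_Count) pr_Mk pr_RootG allTwo1B pr_LL pr_LL1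
    pr_Tex pr_Tex1 pr_Red pr_Idx pr_Hcl pr_Sig pr_Zp


end Pool.Agent.Work.MP_59f3ad_nt.Pex
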