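import Mathlib
import Pool.Agent.Work.MP_59f3ad_nt.Tw.SetForm
import Pool.Agent.Work.MP_59f3ad_nt.Pex.Six
import Pool.Agent.Work.MP_59f3ad_nt.Pex.All

/-!
Schneider's conjecture for the twists `r ≡ 1 mod p - 1` in all primitively ramified Galois
extensions of `p`-power degree (and their subfields) of almost all members of an explicit family of
number fields of every signature.
-/

open Polynomial NumberField IsDedekindDomain

namespace Pool.Agent.Work.MP_59f3ad_nt.Pex.Final6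

open Pool.Agent.Work.MP_59f3ad_nt Pool.Agent.Work.MP_59f3ad_nt.Pex

universe u

/-- The polynomial `f_t = ∏ (X - a_i) ∏ ((X - b_j) ^ 2 + 2 c_j ^ 2) - 1`, where `t = (a, b, c)`. -/
noncomputable def fam {r1 r2 : ℕ} (t : Fin r1 ⊕ Fin r2 ⊕ Fin r2 → ℤ) : ℤ[X] :=
  (∏ i : Fin r1, (X - C (t (Sum.inl i)))) *
    ∏ j : Fin r2, ((X - C (t (Sum.inr (Sum.inl j)))) ^ 2 + C (2 * t (Sum.inr (Sum.inr j)) ^ 2)) - 1

/-- `S` contains all finite places above `p`. -/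
def Above (K : Type u) [Field K] [NumberField K] (p : ℕ) (S : Set (HeightOneSpectrum (𝓞 K))) :
    Prop :=
  ∀ v : HeightOneSpectrum (𝓞 K), (p : 𝓞 K) ∈ v.asIdeal → v ∈ S

/-- The cocycles `φ_i` for the twists `r_i` are `ℤ_p`-independent modulo coboundaries: if for every
`ρ` the combination of those `φ_i` with `r_i = ρ` is a coboundary of `ℤ_p(ρ)`, then all
coefficients are `0`. -/
def Indep (K : Type u) [Field K] [NumberField K] (p : ℕ) [Fact p.Prime] {n : ℕ} (r : Fin n → ℤ)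
    (φ : Fin n → GK K → ℤ_[p]) : Prop :=
  ∀ a : Fin n → ℤ_[p], (∀ ρ : ℤ, (fun g => ∑ i with r i = ρ, a i * φ i g) ∈ B1 K p ρ) → a = 0

/-- `Ш^1(ℤ_p(r)) = 0` for all `r ≡ 1 mod p - 1`. -/
def NoTwist (K : Type u) [Field K] [NumberField K] (p : ℕ) [Fact p.Prime] : Prop :=
  ∀ S : Set (HeightOneSpectrum (𝓞 K)), Above K p S →
    ∀ r : ℤ, ((p : ℤ) - 1) ∣ r - 1 → Sha1 K p r S = ⊥

/-- `Ш^1(ℤ_p(1)) = 0`, and `p ^ ∑ (1 + v_p(r - 1)) ≤ B` for every finite set `R` of exceptional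
twists `r ≡ 1 mod p - 1`, `r ≠ 1` (`Ш^1(ℤ_p(r)) ≠ 0`), and more generally, with multiplicities,
for all independent locally trivial cocycles for such twists. -/
def FewTwists (K : Type u) [Field K] [NumberField K] (p : ℕ) [Fact p.Prime] (B : ℕ) : Prop :=
  ∀ S : Set (HeightOneSpectrum (𝓞 K)), Above K p S → Sha1 K p 1 S = ⊥ ∧
    (∀ R : Finset ℤ, (∀ r ∈ R, r ≠ 1 ∧ ((p : ℤ) - 1) ∣ r - 1 ∧ Sha1 K p r S ≠ ⊥) →
      p ^ (∑ r ∈ R, (1 + padicValInt p (r - 1))) ≤ B) ∧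
    ∀ (n : ℕ) (r : Fin n → ℤ) (φ : Fin n → GK K → ℤ_[p]),
      (∀ i, r i ≠ 1 ∧ ((p : ℤ) - 1) ∣ r i - 1 ∧ φ i ∈ ShaZ K p (r i) S) → Indep K p r φ →
      p ^ (∑ i, (1 + padicValInt p (r i - 1))) ≤ B

/-- The valuation of `a` at `v` is divisible by `p`. -/
def ValDvd (K : Type u) [Field K] [NumberField K] (p : ℕ) (v : HeightOneSpectrum (𝓞 K)) (a : K) :
    Prop := ∃ y : K, v.valuation K a = v.valuation K y ^ p

/-- `M/K` is primitively ramified: if `a ∈ K^*` is a `p`-th power in all completions above `p` and has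
valuation divisible by `p` at all places not above `p` which are unramified in `M`, then it has
valuation divisible by `p` at all places. -/
def Primitive (K M : Type u) [Field K] [NumberField K] [Field M] [NumberField M] [Algebra K M]
    (p : ℕ) : Prop :=
  ∀ a : K, a ≠ 0 →
    (∀ v : HeightOneSpectrum (𝓞 K), (p : 𝓞 K) ∈ v.asIdeal →
      ∃ η : v.adicCompletion K, η ^ p = algebraMap K (v.adicCompletion K) a) →
    (∀ v : HeightOneSpectrum (𝓞 K), (p : 𝓞 K) ∉ v.asIdeal →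
      Algebra.IsUnramifiedIn (𝓞 M) v.asIdeal → ValDvd K p v a) →
    ∀ v : HeightOneSpectrum (𝓞 K), ValDvd K p v a

/-- `M/K` is unramified at all finite places not above `p`, with the possible exception of one place
`v₀`, which divides a prime number `q` with `q ^ (p - 1) ≢ 1` modulo `p ^ 2`. -/
def OneTame (K M : Type u) [Field K] [NumberField K] [Field M] [NumberField M] [Algebra K M]
    (p : ℕ) : Prop :=
  (∀ v : HeightOneSpectrum (𝓞 K), (p : 𝓞 K) ∉ v.asIdeal → Algebra.IsUnramifiedIn (𝓞 M) v.asIdeal) ∨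
  ∃ (v₀ : HeightOneSpectrum (𝓞 K)) (q : ℕ), q.Prime ∧ (q : 𝓞 K) ∈ v₀.asIdeal ∧
    ¬ p ^ 2 ∣ q ^ (p - 1) - 1 ∧
    ∀ v : HeightOneSpectrum (𝓞 K), v ≠ v₀ → (p : 𝓞 K) ∉ v.asIdeal →
      Algebra.IsUnramifiedIn (𝓞 M) v.asIdeal

theorem bridge (K M : Type u) [Field K] [NumberField K] [Field M] [NumberField M] [Algebra K M]
    (p : ℕ) (hp : p.Prime) (h : Primitive K M p ∨ OneTame K M p) :
    Prim K M p ∨ ∃ v₀ q, Mild K M p v₀ q := by
  rcases h with h | h | ⟨v₀, q, h1, h2, h3, h4⟩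
  · left
    intro a ha hloc hval
    exact h a ha (fun v hv => by simpa using hloc v hv) hval
  · right
    obtain ⟨v₀, hv₀⟩ := exists_above K p hp
    exact ⟨v₀, p, hp, hv₀, Or.inl rfl, fun v _ hv => h v hv⟩
  · right
    exact ⟨v₀, q, h1, h2, Or.inr h3, h4⟩

theorem result (r1 r2 k : ℕ) (hd : 1 ≤ r1 + 2 * r2) (hk1 : 1 ≤ k) (hk2 : k ≤ r2 + 1)
    (hk3 : Even k ∨ 1 ≤ r1) :
    ∃ A : ℕ, ∀ H : ℕ, 2 ≤ H → ∃ Bad : Set (Fin r1 ⊕ Fin r2 ⊕ Fin r2 → ℤ),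
      ({t : Fin r1 ⊕ Fin r2 ⊕ Fin r2 → ℤ | (∀ i, |t i| ≤ H) ∧ t ∈ Bad}.ncard : ℝ) ≤
        A * (H : ℝ) ^ (r1 + 2 * r2) / Real.log H ∧
      ∀ t : Fin r1 ⊕ Fin r2 ⊕ Fin r2 → ℤ, (∀ i, |t i| ≤ H) → t ∉ Bad →
        Irreducible ((fam t).map (Int.castRingHom ℚ)) ∧
        ∀ (K : Type u) [Field K] [NumberField K] (x : K), aeval x (fam t) = 0 →
          Module.finrank ℚ K = r1 + 2 * r2 →
          InfinitePlace.nrRealPlaces K = r1 ∧ InfinitePlace.nrComplexPlaces K = r2 ∧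
          (∃ P : Finset ℕ, (P.card : ℝ) ≤ A * (Real.log H) ^ 2 ∧
            ∀ (p : ℕ) [Fact p.Prime], p ^ (k + 1) ≤ H ^ k → p ∉ P →
              ∀ (M : Type u) [Field M] [NumberField M] [Algebra K M] [IsGalois K M],
              (∃ j : ℕ, Module.finrank K M = p ^ j) → (Primitive K M p ∨ OneTame K M p) →
              ∀ L : IntermediateField K M, NoTwist L p) ∧
          ∀ (p : ℕ) [Fact p.Prime], p ^ (k + 1) ≤ H ^ k → (∀ ζ : K, ζ ^ p = 1 → ζ = 1) →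
            FewTwists K p (A * H ^ A) := by
  obtain ⟨A, hA⟩ := Pex.allSixB.{u} r1 r2 k hd hk1 hk2 hk3
  refine ⟨A, fun H hH => ?_⟩
  obtain ⟨Bad, hBad, h⟩ := hA H hH
  refine ⟨Bad, hBad, fun t ht htB => ?_⟩
  obtain ⟨h1, h2⟩ := h t ht htB (fam t) rfl
  refine ⟨h1, fun K _ _ x hx hK => ?_⟩
  obtain ⟨h3, h4, h5, P, hP, h6⟩ := h2 K x hx hK
  refine ⟨h3, h4, ⟨P, hP, fun p hpf hp hpP M _ _ _ _ hj hM L S hS r hr => ?_⟩,
    fun p _ hp hζ S hS => ?_⟩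
  · obtain ⟨j, hj⟩ := hj
    exact Pex.all_top K M p j (h6 p hp hpP) hj (bridge K M p hpf.out hM) L S hS r hr
  · obtain ⟨h7, h8⟩ := h5 p hp hζ S hS
    exact ⟨h7, Tw.set_form K p hζ S _ h8, h8⟩

end Pool.Agent.Work.MP_59f3ad_nt.Pex.Final6
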