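import Mathlib
import Pool.Agent.Work.MP_59f3ad_nt.Pex.Stmts

/-!
# MP_59f3ad_nt Pex, item Desc: the descent in a Galois extension of `p`-power degree
-/

set_option autoImplicit false

open NumberField IsDedekindDomain

namespace Pool.Agent.Work.MP_59f3ad_nt.Pex

open Pool.Agent.Work.MP_59f3ad_nt.Tw

universe u

namespace IPxDesc

variable {M : Type u} [Field M] [NumberField M]

/-- valuations of integers determine each other by divisibility -/
theorem int_eq (v w : HeightOneSpectrum (𝓞 M)) (r s : 𝓞 M)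
    (h : ∀ n : ℕ, r ∈ v.asIdeal ^ n ↔ s ∈ w.asIdeal ^ n) (hr : r ≠ 0) (hs : s ≠ 0) :
    v.intValuation r = w.intValuation s := by
  have h1 := v.intValuation_if_neg hr
  have h2 := w.intValuation_if_neg hs
  set a := (Associates.mk v.asIdeal).count (Associates.mk (Ideal.span {r} : Ideal (𝓞 M))).factors
  set b := (Associates.mk w.asIdeal).count (Associates.mk (Ideal.span {s} : Ideal (𝓞 M))).factors
  have h3 : ∀ n : ℕ, n ≤ a ↔ n ≤ b := by
    intro n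
    have h4 := v.intValuation_le_pow_iff_mem r n
    have h5 := w.intValuation_le_pow_iff_mem s n
    rw [h1, WithZero.exp_le_exp] at h4
    rw [h2, WithZero.exp_le_exp] at h5
    have h6 := h n
    constructor
    · intro h7
      have := h5.2 (h6.1 (h4.1 (by omega)))
      omega
    · intro h7
      have := h4.2 (h6.2 (h5.1 (by omega)))
      omega
  have h4 : a = b := le_antisymm ((h3 a).1 le_rfl) ((h3 b).2 le_rfl)
  rw [h1, h2, h4]

/-- automorphisms permute the places -/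
theorem place_aut (e : M ≃+* M) (w : HeightOneSpectrum (𝓞 M)) :
    ∃ v : HeightOneSpectrum (𝓞 M), ∀ x : M, v.valuation M x = w.valuation M (e x) := by
  let e' : 𝓞 M ≃+* 𝓞 M := RingOfIntegers.mapRingEquiv e
  let v : HeightOneSpectrum (𝓞 M) := HeightOneSpectrum.comap (e' : 𝓞 M →+* 𝓞 M) e'.surjective w
  have hv : v.asIdeal = w.asIdeal.comap (e' : 𝓞 M →+* 𝓞 M) := rfl
  have h1 : ∀ (r : 𝓞 M) (n : ℕ), r ∈ v.asIdeal ^ n ↔ e' r ∈ w.asIdeal ^ n := by
    intro r n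
    rw [hv]
    have h2 : (w.asIdeal.comap (e' : 𝓞 M →+* 𝓞 M)) ^ n =
        (w.asIdeal ^ n).comap (e' : 𝓞 M →+* 𝓞 M) := by
      have h3 := Ideal.map_symm (I := w.asIdeal) e'
      have h4 := Ideal.map_symm (I := w.asIdeal ^ n) e'
      have h5 := Ideal.map_pow (e'.symm : 𝓞 M →+* 𝓞 M) w.asIdeal n
      change (Ideal.comap e' w.asIdeal) ^ n = Ideal.comap e' (w.asIdeal ^ n)
      rw [← h3, ← h4]
      exact h5.symm
    rw [h2]
    rfl
  have h2 : ∀ r : 𝓞 M, v.intValuation r = w.intValuation (e' r) := by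
    intro r
    rcases eq_or_ne r 0 with rfl | hr
    · simp
    · exact int_eq v w r (e' r) (h1 r) hr ((map_ne_zero_iff e' e'.injective).2 hr)
  have h3 : ∀ r : 𝓞 M, v.valuation M (r : M) = w.valuation M (e (r : M)) := by
    intro r
    have h4 : e (r : M) = ((e' r : 𝓞 M) : M) := rfl
    rw [h4]
    change v.valuation M (algebraMap (𝓞 M) M r) = w.valuation M (algebraMap (𝓞 M) M (e' r))
    rw [HeightOneSpectrum.valuation_of_algebraMap, HeightOneSpectrum.valuation_of_algebraMap, h2]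
  refine ⟨v, fun x => ?_⟩
  obtain ⟨r, s, -, rfl⟩ := IsFractionRing.div_surjective (A := 𝓞 M) x
  have h5 := h3 r
  have h6 := h3 s
  rw [map_div₀, map_div₀, map_div₀]
  exact congrArg₂ (· / ·) h5 h6

/-- nonzero integers in a number field -/
theorem clear (x : M) : ∃ (c : ℕ) (y : 𝓞 M), 0 < c ∧ (y : M) = c * x := by
  obtain ⟨c, hc, h⟩ := exists_integral_multiples ℤ ℚ (L := M) {x}
  have h1 := h x (Finset.mem_singleton_self x)
  have h2 : IsIntegral ℤ ((c.natAbs : M) * x) := by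
    have h3 : ((c.natAbs : M)) * x = (c.sign : M) * (c • x) := by
      rw [zsmul_eq_mul, ← mul_assoc]
      congr 1
      have := Int.sign_mul_natAbs c
      have h4 : (c.natAbs : ℤ) = c.sign * c := by
        rw [mul_comm, Int.mul_sign_self]
      have h5 := congrArg (Int.cast : ℤ → M) h4
      push_cast at h5
      rw [← h5]
      simp
    rw [h3]
    exact (isIntegral_algebraMap (R := ℤ) (A := M) (x := c.sign)).mul h1
  exact ⟨c.natAbs, ⟨_, h2⟩, Int.natAbs_pos.2 hc, rfl⟩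

theorem valAt_mul {q : ℕ} {w : HeightOneSpectrum (𝓞 M)} {a b : M} (ha : ValAt M q w a)
    (hb : ValAt M q w b) : ValAt M q w (a * b) := by
  obtain ⟨x, hx⟩ := ha
  obtain ⟨y, hy⟩ := hb
  exact ⟨x * y, by rw [map_mul, map_mul, mul_pow, hx, hy]⟩

theorem valAt_pow {q : ℕ} {w : HeightOneSpectrum (𝓞 M)} (a : M) : ValAt M q w (a ^ q) :=
  ⟨a, by rw [map_pow]⟩

theorem valP_mul {q : ℕ} {a b : M} (ha : ValP M q a) (hb : ValP M q b) : ValP M q (a * b) :=
  fun w => valAt_mul (ha w) (hb w)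

theorem app_mul {p : ℕ} {a b : 𝓞 M} (ha : App M p a) (hb : App M p b) : App M p (a * b) := by
  intro N
  obtain ⟨x, hx⟩ := ha N
  obtain ⟨y, hy⟩ := hb N
  refine ⟨x * y, ?_⟩
  have h : (x * y) ^ p - a * b = x ^ p * (y ^ p - b) + b * (x ^ p - a) := by ring
  rw [h]
  exact dvd_add (hy.mul_left _) (hx.mul_left _)

theorem app_pow {p : ℕ} (a : 𝓞 M) : App M p (a ^ p) := fun N => ⟨a, by simp⟩

/-- the condition of the descent -/
def Q (M : Type u) [Field M] [NumberField M] (p : ℕ) (x : M) : Prop :=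
  ∃ x₀ : 𝓞 M, x₀ ≠ 0 ∧ (x₀ : M) = x ∧ ValP M p x ∧ App M p x₀

theorem Q_mul {p : ℕ} (x y : M) (hx : Q M p x) (hy : Q M p y) : Q M p (x * y) := by
  obtain ⟨x₀, h1, h2, h3, h4⟩ := hx
  obtain ⟨y₀, g1, g2, g3, g4⟩ := hy
  refine ⟨x₀ * y₀, mul_ne_zero h1 g1, ?_, valP_mul h3 g3, app_mul h4 g4⟩
  rw [← h2, ← g2]
  rfl

theorem Q_aut {p : ℕ} (e : M ≃+* M) (x : M) (hx : Q M p x) : Q M p (e x) := by
  obtain ⟨x₀, h1, h2, h3, h4⟩ := hx
  let e' : 𝓞 M ≃+* 𝓞 M := RingOfIntegers.mapRingEquiv e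
  refine ⟨e' x₀, (map_ne_zero_iff e' e'.injective).2 h1, ?_, ?_, ?_⟩
  · rw [← h2]
    rfl
  · intro w
    obtain ⟨v, hv⟩ := place_aut e w
    obtain ⟨y, hy⟩ := h3 v
    exact ⟨e y, by rw [← hv, ← hv, hy]⟩
  · intro N
    obtain ⟨y, hy⟩ := h4 N
    refine ⟨e' y, ?_⟩
    have h5 := map_dvd e' hy
    rw [map_pow, map_natCast, map_sub, map_pow] at h5
    exact h5

end IPxDesc

open IPxDesc in
/-- Item Desc. -/
theorem pr_Desc (h1 : StMu.{u}) (h2 : StFix.{u}) (h3 : StH90.{u}) (h4 : StTr.{u}) (h5 : StVU.{u})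
    (h6 : StAL.{u}) : StDesc.{u} := by
  intro K M _ _ _ _ _ _ p j hp hp2 hdeg hK hM hPrim hVA a ha haV haA
  by_contra hno
  have hmu : NoMu M p := h1 M p hp hp2 hM
  have hQa : Q M p (a : M) := ⟨a, ha, rfl, haV, haA⟩
  have ha' : (a : M) ≠ 0 := by
    intro h
    exact ha (RingOfIntegers.coe_injective (h.trans (map_zero (algebraMap (𝓞 M) M)).symm))
  obtain ⟨x', hx'0, ⟨x₀, hx₀0, hx₀, hx'V, hx₀A⟩, hx'n, hx'fix⟩ := h2 K M p j hp hdeg (Q M p)
    Q_mul (fun σ x hx => Q_aut (σ : M ≃+* M) x hx) (a : M) ha' hQa hno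
  obtain ⟨b, z, hb0, hz0, hbz⟩ := h3 K M p hp hmu x' hx'0 hx'fix
  obtain ⟨c₁, b₁, hc₁, hb₁⟩ := clear b
  obtain ⟨c₂, y₂, hc₂, hy₂⟩ := clear z⁻¹
  have hp1 : 1 ≤ p := hp.one_lt.le
  obtain ⟨q, rfl⟩ : ∃ q, p = q + 1 := ⟨p - 1, by omega⟩
  set p := q + 1 with hpq
  -- the integers `b₀ = c^p b`, `y₀ = c / z`
  set c : ℕ := c₁ * c₂ with hc
  have hcpos : 0 < c := Nat.mul_pos hc₁ hc₂
  let b₀ : 𝓞 K := (c₁ : 𝓞 K) ^ q * (c₂ : 𝓞 K) ^ p * b₁
  have hb₀ : (b₀ : K) = (c : K) ^ p * b := by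
    have e1 : (b₀ : K) = (c₁ : K) ^ q * (c₂ : K) ^ p * (b₁ : K) := by
      simp [b₀]
    rw [e1, hb₁, hc, hpq]
    push_cast
    ring
  let y₀ : 𝓞 M := (c₁ : 𝓞 M) * y₂
  have hy₀ : (y₀ : M) = (c : M) * z⁻¹ := by
    have e1 : (y₀ : M) = (c₁ : M) * (y₂ : M) := by
      simp [y₀]
    rw [e1, hy₂, hc]
    push_cast
    ring
  have hcK : (c : K) ≠ 0 := Nat.cast_ne_zero.2 hcpos.ne'
  have hcM : (c : M) ≠ 0 := Nat.cast_ne_zero.2 hcpos.ne'
  have hb₀0 : b₀ ≠ 0 := by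
    intro h
    have e1 : (b₀ : K) = 0 := by rw [h]; rfl
    rw [hb₀] at e1
    exact (mul_ne_zero (pow_ne_zero p hcK) hb0) e1
  -- in `M`
  have hM1 : algebraMap (𝓞 K) (𝓞 M) b₀ = x₀ * y₀ ^ p := by
    apply RingOfIntegers.coe_injective
    have e1 : ((algebraMap (𝓞 K) (𝓞 M) b₀ : 𝓞 M) : M) = algebraMap K M (b₀ : K) := rfl
    have e2 : ((x₀ * y₀ ^ p : 𝓞 M) : M) = (x₀ : M) * (y₀ : M) ^ p := by
      simp
    refine e1.trans (Eq.trans ?_ e2.symm)
    rw [hb₀, hx₀, hy₀, hbz, map_mul, map_pow, map_natCast]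
    have hzz : z ^ p * (z⁻¹) ^ p = 1 := by rw [← mul_pow, mul_inv_cancel₀ hz0, one_pow]
    calc (c : M) ^ p * algebraMap K M b
        = algebraMap K M b * ((z ^ p * (z⁻¹) ^ p) * (c : M) ^ p) := by rw [hzz]; ring
      _ = algebraMap K M b * z ^ p * ((c : M) * z⁻¹) ^ p := by rw [mul_pow]; ring
  have hAppM : App M p (algebraMap (𝓞 K) (𝓞 M) b₀) := by
    rw [hM1]
    exact app_mul hx₀A (app_pow y₀)
  have hValM : ValP M p (algebraMap K M (b₀ : K)) := by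
    have e1 : algebraMap K M (b₀ : K) = x' * (y₀ : M) ^ p := by
      have e2 := congrArg (fun t : 𝓞 M => (t : M)) hM1
      simp only [map_mul, map_pow] at e2
      change algebraMap K M (b₀ : K) = (x₀ : M) * (y₀ : M) ^ p at e2
      rw [hx₀] at e2
      exact e2
    rw [e1]
    exact fun w => valAt_mul (hx'V w) (valAt_pow _)
  -- descent
  have hAppK := h4 K M p hp hp2 hM b₀ hb₀0 hAppM
  set d : ℕ := Module.finrank K M with hd
  have hdpos : 0 < d := by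
    rw [hdeg]
    exact pow_pos hp.pos j
  set b₂ : 𝓞 K := (d : 𝓞 K) ^ p * b₀ with hb₂
  have hd0 : (d : 𝓞 K) ≠ 0 := Nat.cast_ne_zero.2 hdpos.ne'
  have hb₂0 : b₂ ≠ 0 := mul_ne_zero (pow_ne_zero p hd0) hb₀0
  have hb₂K : (b₂ : K) = (d : K) ^ p * (b₀ : K) := by
    rw [hb₂]
    simp
  have hb₂K0 : (b₂ : K) ≠ 0 := by
    intro h
    exact hb₂0 (RingOfIntegers.coe_injective (h.trans (map_zero (algebraMap (𝓞 K) K)).symm))
  have hLoc := h6 K p hp hp2 hK b₂ hb₂0 hAppK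
  have hValM2 : ValP M p (algebraMap K M (b₂ : K)) := by
    rw [hb₂K, map_mul, map_pow]
    exact fun w => valAt_mul (valAt_pow _) (hValM w)
  have hValK : ValP K p (b₂ : K) := hPrim _ hb₂K0 hLoc fun v _ hv => h5 K M p v hv _ hValM2
  obtain ⟨t, ht⟩ := hVA b₂ hb₂0 hValK hAppK
  apply hx'n
  have hdM : (d : M) ≠ 0 := Nat.cast_ne_zero.2 hdpos.ne'
  refine ⟨algebraMap K M t * z / ((d : M) * c), ?_⟩
  have e1 : algebraMap K M t ^ p = (d : M) ^ p * ((c : M) ^ p * algebraMap K M b) := by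
    rw [← map_pow, ht, hb₂K, hb₀]
    simp only [map_mul, map_pow, map_natCast]
  rw [hbz, div_pow, mul_pow, mul_pow, e1]
  field_simp

end Pool.Agent.Work.MP_59f3ad_nt.Pex
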