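import Pool.Agent.Work.MP_59f3ad_nt.Pex.Stmts

/-!
# MP_59f3ad_nt Pex, item Lift: from level one to all levels
-/

set_option autoImplicit false

open NumberField IsDedekindDomain

namespace Pool.Agent.Work.MP_59f3ad_nt.Pex

open Pool.Agent.Work.MP_59f3ad_nt.Tw

universe u

/-- equality of `p`-th powers in a field without `p`-th roots of unity -/
theorem IPxLift.eq_of_pow {F : Type u} [Field F] {p : ℕ} (h : NoMu F p) {x y : F} (hy : y ≠ 0)
    (hxy : x ^ p = y ^ p) : x = y := by
  have h1 : (x / y) ^ p = 1 := by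
    rw [div_pow, hxy, div_self (pow_ne_zero p hy)]
  have h2 := h _ h1
  rwa [div_eq_one_iff_eq hy] at h2

theorem pr_Lift (h1 : StLA.{u}) (h2 : StLoc1.{u}) : StLift.{u} := by
  intro K _ _ p hp hp2 hN hV m
  have hp0 : p ≠ 0 := hp.ne_zero
  induction m with
  | zero =>
    intro α _ _ _
    exact ⟨α, by rw [pow_zero, pow_one]⟩
  | succ m ih =>
    intro α hα hval hloc
    obtain ⟨a0, b0, hb0, hab⟩ := IsFractionRing.div_surjective (A := 𝓞 K) α
    have hb1 : b0 ≠ 0 := nonZeroDivisors.ne_zero hb0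
    have hb : (b0 : K) ≠ 0 := by
      intro h
      exact hb1 ((map_eq_zero_iff (algebraMap (𝓞 K) K) RingOfIntegers.coe_injective).1 h)
    have hab' : α * (b0 : K) = (a0 : K) := by
      rw [← hab]
      exact div_mul_cancel₀ _ hb
    have hq : p ^ (m + 1) = (p ^ (m + 1) - 1) + 1 :=
      (Nat.sub_add_cancel (Nat.one_le_pow _ _ hp.pos)).symm
    set a : 𝓞 K := a0 * b0 ^ (p ^ (m + 1) - 1) with ha
    have haK : (a : K) = α * (b0 : K) ^ p ^ (m + 1) := by
      have h3 : (a : K) = (a0 : K) * (b0 : K) ^ (p ^ (m + 1) - 1) := by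
        change algebraMap (𝓞 K) K (a0 * b0 ^ (p ^ (m + 1) - 1)) =
          algebraMap (𝓞 K) K a0 * algebraMap (𝓞 K) K b0 ^ (p ^ (m + 1) - 1)
        rw [map_mul, map_pow]
      rw [h3, ← hab']
      conv_rhs => rw [hq, pow_succ]
      ring
    have haK0 : (a : K) ≠ 0 := by
      rw [haK]
      exact mul_ne_zero hα (pow_ne_zero _ hb)
    have ha0 : a ≠ 0 := by
      intro h
      apply haK0
      rw [h]
      exact map_zero (algebraMap (𝓞 K) K)
    -- valuations
    have hva : ∀ w : HeightOneSpectrum (𝓞 K), ∃ y : K,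
        w.valuation K (a : K) = (w.valuation K y ^ p ^ m) ^ p := by
      intro w
      obtain ⟨y, hy⟩ := hval w
      refine ⟨y * b0, ?_⟩
      rw [haK, map_mul, map_pow, hy, ← mul_pow, ← map_mul, ← pow_mul, ← pow_succ]
    have hV1 : ValP K p (a : K) := by
      intro w
      obtain ⟨y, hy⟩ := hva w
      exact ⟨y ^ p ^ m, by rw [hy, map_pow]⟩
    -- local powers
    have hla : ∀ v : HeightOneSpectrum (𝓞 K), (p : 𝓞 K) ∈ v.asIdeal →
        ∃ η : v.adicCompletion K,
          (η ^ p ^ m) ^ p = algebraMap K (v.adicCompletion K) (a : K) := by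
      intro v hv
      obtain ⟨η, hη⟩ := hloc v hv
      refine ⟨η * algebraMap K (v.adicCompletion K) (b0 : K), ?_⟩
      rw [← pow_mul, ← pow_succ, mul_pow, hη, haK, map_mul, map_pow]
    have hL1 : LocPow K p 1 (a : K) := by
      intro v hv
      obtain ⟨η, hη⟩ := hla v hv
      exact ⟨η ^ p ^ m, by rw [pow_one, hη]⟩
    obtain ⟨z, hz⟩ := hV a ha0 hV1 (h1 K p hp a hL1)
    have hz0 : z ≠ 0 := by
      intro h
      rw [h, zero_pow hp0] at hz
      exact haK0 hz.symm
    have hzV : ValP K (p ^ m) z := by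
      intro w
      obtain ⟨y, hy⟩ := hva w
      refine ⟨y, ?_⟩
      rw [← hz, map_pow] at hy
      exact (pow_left_inj₀ zero_le zero_le hp0).1 hy
    have hzL : LocPow K p m z := by
      intro v hv
      obtain ⟨η, hη⟩ := hla v hv
      refine ⟨η, ?_⟩
      have h3 : algebraMap K (v.adicCompletion K) z ≠ 0 := by
        rw [Ne, map_eq_zero]
        exact hz0
      refine IPxLift.eq_of_pow (h2 K p hp hp2 hN v hv) h3 ?_
      rw [hη, ← map_pow, hz]
    obtain ⟨z', hz'⟩ := ih z hz0 hzV hzL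
    refine ⟨z' / (b0 : K), ?_⟩
    rw [div_pow, div_eq_iff (pow_ne_zero _ hb), ← haK, ← hz, ← hz', ← pow_mul, ← pow_succ]

end Pool.Agent.Work.MP_59f3ad_nt.Pex
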